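import Pool.Agent.Helper5.WP.Ang

/-! # Project WP, module D2: the order of the points on the lines through the centre -/

set_option autoImplicit false

namespace Pool.Agent.Helper5.WP

open Pool.Agent.Helper7.TP Metric Set Topology
open Filter (Tendsto atTop atBot)

private theorem altw_norm (z : ℂ) (h : ℝ) : ‖vec z h‖ ^ 2 = z.re ^ 2 + z.im ^ 2 + h ^ 2 := by
  rw [EuclideanSpace.real_norm_sq_eq, Fin.sum_univ_three]
  rfl

private theorem altw_smul (r : ℝ) (z : ℂ) (h : ℝ) :
    r • vec z h = vec ((r : ℂ) * z) (r * h) := by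
  unfold vec
  ext i
  fin_cases i
  · simp
  · simp
  · simp

private theorem altw_zero {Γ : ℂ → ℝ} (h : IsGauge Γ) {w : ℂ} (hw : w.re = 0) : Γ w = 0 := by
  have h1 : ¬ 0 < Γ w := by
    rw [h.pos, hw]
    exact lt_irrefl 0
  have h2 : ¬ 0 < Γ (((-1 : ℝ) : ℂ) * w) := by
    rw [h.pos]
    simp [hw]
  rw [h.smul] at h2
  linarith [not_lt.1 h1, not_lt.1 h2]

/-- The unit vector with the angle `θ` and the latitude `τ`. -/
private noncomputable def altw_c (θ τ : ℝ) : S2 :=
  ⟨vec ((Real.cos τ : ℂ) * Complex.exp ((θ : ℂ) * Complex.I)) (Real.sin τ), by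
    rw [mem_sphere_zero_iff_norm]
    have h1 : ‖vec ((Real.cos τ : ℂ) * Complex.exp ((θ : ℂ) * Complex.I)) (Real.sin τ)‖ ^ 2
        = 1 := by
      rw [altw_norm, Complex.re_ofReal_mul, Complex.im_ofReal_mul, Complex.exp_ofReal_mul_I_re,
        Complex.exp_ofReal_mul_I_im]
      have h2 := Real.cos_sq_add_sin_sq τ
      have h3 := Real.cos_sq_add_sin_sq θ
      calc _ = Real.cos τ ^ 2 * (Real.cos θ ^ 2 + Real.sin θ ^ 2) + Real.sin τ ^ 2 := by ring
        _ = 1 := by rw [h3, mul_one, h2]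
    exact (pow_eq_one_iff_of_nonneg (norm_nonneg _) two_ne_zero).1 h1⟩

/-- The normal vector of the line through the centre with the angle `θ`. -/
private noncomputable def altw_l (θ : ℝ) : S2 :=
  ⟨vec (Complex.I * Complex.exp ((θ : ℂ) * Complex.I)) 0, by
    rw [mem_sphere_zero_iff_norm]
    have h1 : ‖vec (Complex.I * Complex.exp ((θ : ℂ) * Complex.I)) 0‖ ^ 2 = 1 := by
      rw [altw_norm, Complex.I_mul_re, Complex.I_mul_im, Complex.exp_ofReal_mul_I_re,
        Complex.exp_ofReal_mul_I_im]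
      have h3 := Real.cos_sq_add_sin_sq θ
      calc _ = Real.cos θ ^ 2 + Real.sin θ ^ 2 := by ring
        _ = 1 := h3
    exact (pow_eq_one_iff_of_nonneg (norm_nonneg _) two_ne_zero).1 h1⟩

private theorem altw_mem {Γ : ℂ → ℝ} (h : IsGauge Γ) (θ τ : ℝ) :
    mk (altw_c θ τ) ∈ incLine (HG Γ) (altw_l θ) := by
  refine ⟨altw_c θ τ, rfl, ?_⟩
  have h1 : cx (altw_c θ τ) = (Real.cos τ : ℂ) * Complex.exp ((θ : ℂ) * Complex.I) := by
    apply Complex.ext
    · rfl
    · rfl
  have h2 : cx (altw_l θ) = Complex.I * Complex.exp ((θ : ℂ) * Complex.I) := by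
    apply Complex.ext
    · rfl
    · rfl
  have h3 : ((altw_l θ : S2) : E3) 2 = 0 := rfl
  unfold HG
  rw [h1, h2, h3, mul_zero, sub_zero, mul_assoc, h.smul]
  have h4 : (Complex.exp ((θ : ℂ) * Complex.I) *
      (starRingEnd ℂ) (Complex.I * Complex.exp ((θ : ℂ) * Complex.I))).re = 0 := by
    rw [map_mul, Complex.conj_I]
    have h5 : Complex.exp ((θ : ℂ) * Complex.I) * (-Complex.I *
        (starRingEnd ℂ) (Complex.exp ((θ : ℂ) * Complex.I))) =
        -Complex.I * (Complex.exp ((θ : ℂ) * Complex.I) *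
          (starRingEnd ℂ) (Complex.exp ((θ : ℂ) * Complex.I))) := by ring
    rw [h5, Complex.mul_conj]
    simp
  rw [altw_zero h h4, mul_zero]

private theorem altw_cont (θ : ℝ) : Continuous fun τ : ℝ => mk (altw_c θ τ) := by
  refine continuous_mk.comp (Continuous.subtype_mk ?_ _)
  unfold vec
  have h0 : Continuous fun τ : ℝ =>
      ((Real.cos τ : ℂ) * Complex.exp ((θ : ℂ) * Complex.I)) :=
    (Complex.continuous_ofReal.comp Real.continuous_cos).mul continuous_const
  refine (PiLp.continuous_toLp 2 _).comp (continuous_pi fun i => ?_)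
  fin_cases i
  · exact Complex.continuous_re.comp h0
  · exact Complex.continuous_im.comp h0
  · exact Real.continuous_sin

private theorem altw_org (θ : ℝ) : mk (altw_c θ (Real.pi / 2)) = org := by
  rw [← pr_coe]
  unfold org
  have h : ((altw_c θ (Real.pi / 2) : S2) : E3) =
      vec ((Real.cos (Real.pi / 2) : ℂ) * Complex.exp ((θ : ℂ) * Complex.I))
        (Real.sin (Real.pi / 2)) := rfl
  rw [h, Real.cos_pi_div_two, Real.sin_pi_div_two, Complex.ofReal_zero, zero_mul]

private theorem altw_idl (θ : ℝ) : mk (altw_c θ 0) = idl (θ - Real.pi / 2) := by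
  rw [← pr_coe]
  unfold idl
  have h : ((altw_c θ 0 : S2) : E3) =
      vec ((Real.cos 0 : ℂ) * Complex.exp ((θ : ℂ) * Complex.I)) (Real.sin 0) := rfl
  have h2 : Complex.I * Complex.exp (((θ - Real.pi / 2 : ℝ) : ℂ) * Complex.I) =
      Complex.exp ((θ : ℂ) * Complex.I) := by
    have h3 : ((θ - Real.pi / 2 : ℝ) : ℂ) * Complex.I =
        (θ : ℂ) * Complex.I + (-((Real.pi : ℂ) / 2 * Complex.I)) := by
      push_cast
      ring
    rw [h3, Complex.exp_add, Complex.exp_neg, Complex.exp_pi_div_two_mul_I]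
    field_simp
  rw [h, h2, Real.cos_zero, Real.sin_zero, Complex.ofReal_one, one_mul]

private theorem altw_pi (θ : ℝ) : mk (altw_c θ Real.pi) = mk (altw_c θ 0) := by
  rw [← pr_coe, ← pr_coe]
  have h : ((altw_c θ Real.pi : S2) : E3) = (-1 : ℝ) • ((altw_c θ 0 : S2) : E3) := by
    change vec ((Real.cos Real.pi : ℂ) * Complex.exp ((θ : ℂ) * Complex.I)) (Real.sin Real.pi) =
      (-1 : ℝ) • vec ((Real.cos 0 : ℂ) * Complex.exp ((θ : ℂ) * Complex.I)) (Real.sin 0)
    rw [altw_smul, Real.cos_pi, Real.sin_pi, Real.cos_zero, Real.sin_zero]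
    congr 1
    · push_cast
      ring
    · ring
  rw [h, pr_smul (by norm_num)]

private theorem altw_pt (θ r : ℝ) :
    mk (altw_c θ (Real.pi / 2 - Real.arctan r)) = pt r θ := by
  rw [← pr_coe]
  unfold pt
  have hc : 0 < Real.cos (Real.arctan r) := Real.cos_arctan_pos r
  have h : ((altw_c θ (Real.pi / 2 - Real.arctan r) : S2) : E3) =
      (Real.cos (Real.arctan r)) • vec ((r : ℂ) * Complex.exp ((θ : ℂ) * Complex.I)) 1 := by
    change vec ((Real.cos (Real.pi / 2 - Real.arctan r) : ℂ) *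
      Complex.exp ((θ : ℂ) * Complex.I)) (Real.sin (Real.pi / 2 - Real.arctan r)) = _
    rw [altw_smul, Real.cos_pi_div_two_sub, Real.sin_pi_div_two_sub, mul_one]
    congr 1
    rw [← mul_assoc, ← Complex.ofReal_mul]
    congr 2
    have h1 : Real.tan (Real.arctan r) = r := Real.tan_arctan r
    rw [Real.tan_eq_sin_div_cos] at h1
    rw [div_eq_iff hc.ne'] at h1
    rw [h1]
    ring
  rw [h, pr_smul hc.ne']

private theorem altw_inj (θ : ℝ) : InjOn (fun τ : ℝ => mk (altw_c θ τ)) (Ico 0 Real.pi) := by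
  intro τ hτ τ' hτ' h
  have h0 : mk (altw_c θ τ) = mk (altw_c θ τ') := h
  have key : ∀ s : ℝ, ((altw_c θ τ' : S2) : E3) = s • ((altw_c θ τ : S2) : E3) →
      Real.sin (τ - τ') = 0 := by
    intro s hs
    have e : vec ((Real.cos τ' : ℂ) * Complex.exp ((θ : ℂ) * Complex.I)) (Real.sin τ') =
        s • vec ((Real.cos τ : ℂ) * Complex.exp ((θ : ℂ) * Complex.I)) (Real.sin τ) := hs
    rw [altw_smul] at e
    have e0 := congrArg (fun v : E3 => v 0) e
    have e1 := congrArg (fun v : E3 => v 1) e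
    have e2 := congrArg (fun v : E3 => v 2) e
    have f0 : ((Real.cos τ' : ℂ) * Complex.exp ((θ : ℂ) * Complex.I)).re =
      ((s : ℂ) * ((Real.cos τ : ℂ) * Complex.exp ((θ : ℂ) * Complex.I))).re := e0
    have f1 : ((Real.cos τ' : ℂ) * Complex.exp ((θ : ℂ) * Complex.I)).im =
      ((s : ℂ) * ((Real.cos τ : ℂ) * Complex.exp ((θ : ℂ) * Complex.I))).im := e1
    have f2 : Real.sin τ' = s * Real.sin τ := e2
    rw [Complex.re_ofReal_mul, Complex.re_ofReal_mul, Complex.re_ofReal_mul,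
      Complex.exp_ofReal_mul_I_re] at f0
    rw [Complex.im_ofReal_mul, Complex.im_ofReal_mul, Complex.im_ofReal_mul,
      Complex.exp_ofReal_mul_I_im] at f1
    have f3 : Real.cos τ' = s * Real.cos τ := by
      have h3 := Real.cos_sq_add_sin_sq θ
      calc Real.cos τ' = Real.cos τ' * (Real.cos θ ^ 2 + Real.sin θ ^ 2) := by rw [h3, mul_one]
        _ = (Real.cos τ' * Real.cos θ) * Real.cos θ + (Real.cos τ' * Real.sin θ) * Real.sin θ := by
          ring
        _ = (s * (Real.cos τ * Real.cos θ)) * Real.cos θ +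
            (s * (Real.cos τ * Real.sin θ)) * Real.sin θ := by rw [f0, f1]
        _ = s * Real.cos τ * (Real.cos θ ^ 2 + Real.sin θ ^ 2) := by ring
        _ = s * Real.cos τ := by rw [h3, mul_one]
    rw [Real.sin_sub, f2, f3]
    ring
  have h1 : Real.sin (τ - τ') = 0 := by
    rcases mk_eq_mk.1 h0 with h2 | h2
    · refine key 1 ?_
      rw [h2, one_smul]
    · refine key (-1) ?_
      rw [h2, coe_neg_sphere, neg_smul, one_smul]
  obtain ⟨a1, a2⟩ := hτ
  obtain ⟨b1, b2⟩ := hτ'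
  have h3 : τ - τ' = 0 :=
    (Real.sin_eq_zero_iff_of_lt_of_lt (by linarith) (by linarith)).1 h1
  linarith

theorem alt_pos {Γ : ℂ → ℝ} (h : IsGauge Γ) {θ r₁ r₂ r₃ : ℝ} (h1 : 0 < r₁) (h2 : r₁ < r₂)
    (h3 : r₂ < r₃) : Alt (radPlane Γ) (pt r₃ θ) (pt r₂ θ) (pt r₁ θ) org := by
  have hp : 0 < Real.pi := Real.pi_pos
  have l1 : 0 < Real.arctan r₁ := Real.arctan_pos.2 h1
  have l2 : Real.arctan r₁ < Real.arctan r₂ := Real.arctan_strictMono h2
  have l3 : Real.arctan r₂ < Real.arctan r₃ := Real.arctan_strictMono h3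
  have l4 : Real.arctan r₃ < Real.pi / 2 := Real.arctan_lt_pi_div_two r₃
  refine ⟨incLine (HG Γ) (altw_l θ), mem_range_self _, fun τ => mk (altw_c θ τ), 0, Real.pi,
    Real.pi / 2 - Real.arctan r₃, Real.pi / 2 - Real.arctan r₂, Real.pi / 2 - Real.arctan r₁,
    Real.pi / 2, (altw_cont θ).continuousOn, altw_inj θ, (altw_pi θ).symm,
    fun t _ => altw_mem h θ t, by linarith, by linarith, by linarith, by linarith, by linarith,
    altw_pt θ r₃, altw_pt θ r₂, altw_pt θ r₁, altw_org θ⟩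

theorem alt_sign {Γ : ℂ → ℝ} (h : IsGauge Γ) {θ r s : ℝ} (hr : r < 0) (hs : 0 < s) :
    Alt (radPlane Γ) (idl (θ - Real.pi / 2)) (pt s θ) org (pt r θ) := by
  have hp : 0 < Real.pi := Real.pi_pos
  have l1 : 0 < Real.arctan s := Real.arctan_pos.2 hs
  have l2 : Real.arctan s < Real.pi / 2 := Real.arctan_lt_pi_div_two s
  have l3 : Real.arctan r < 0 := by
    have := Real.arctan_strictMono hr
    rwa [Real.arctan_zero] at this
  have l4 : -(Real.pi / 2) < Real.arctan r := Real.neg_pi_div_two_lt_arctan r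
  refine ⟨incLine (HG Γ) (altw_l θ), mem_range_self _, fun τ => mk (altw_c θ τ), 0, Real.pi,
    0, Real.pi / 2 - Real.arctan s, Real.pi / 2,
    Real.pi / 2 - Real.arctan r, (altw_cont θ).continuousOn, altw_inj θ, (altw_pi θ).symm,
    fun t _ => altw_mem h θ t, le_refl _, by linarith, by linarith, by linarith, by linarith,
    altw_idl θ, altw_pt θ s, altw_org θ, altw_pt θ r⟩

end Pool.Agent.Helper5.WP
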