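import Pool.Agent.Helper5.WP.Defs

/-! # Project WP, module C: the points of the radial plane -/

set_option autoImplicit false

namespace Pool.Agent.Helper5.WP

open Pool.Agent.Helper7.TP Metric Set Topology
open Filter (Tendsto atTop atBot)

theorem ang_add_pi {Γ : ℂ → ℝ} (h : IsGauge Γ) (t : ℝ) : ang Γ (t + Real.pi) = -ang Γ t := by
  unfold ang
  have h1 : Complex.exp (((t + Real.pi : ℝ) : ℂ) * Complex.I) =
      ((-1 : ℝ) : ℂ) * Complex.exp ((t : ℂ) * Complex.I) := by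
    push_cast
    rw [add_mul, Complex.exp_add, Complex.exp_pi_mul_I]
    ring
  rw [h1, h.smul]
  ring

theorem ang_pos {Γ : ℂ → ℝ} (h : IsGauge Γ) (t : ℝ) : 0 < ang Γ t ↔ 0 < Real.cos t := by
  unfold ang
  rw [h.pos, Complex.exp_ofReal_mul_I_re]

theorem ang_eq_zero {Γ : ℂ → ℝ} (h : IsGauge Γ) (t : ℝ) : ang Γ t = 0 ↔ Real.cos t = 0 := by
  have h1 := ang_pos h t
  have h2 := ang_pos h (t + Real.pi)
  rw [ang_add_pi h, Real.cos_add_pi] at h2
  constructor
  · intro h0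
    rw [h0] at h1 h2
    have h3 : ¬ 0 < Real.cos t := fun hc => lt_irrefl _ (h1.2 hc)
    have h4 : ¬ 0 < -Real.cos t := fun hc => by
      have := h2.2 hc
      simp at this
    linarith
  · intro h0
    rw [h0] at h1 h2
    have h3 : ¬ 0 < ang Γ t := fun hc => lt_irrefl _ (h1.1 hc)
    have h4 : ¬ 0 < -ang Γ t := fun hc => by
      have := h2.1 hc
      simp at this
    linarith

private theorem pr_of_ne {v : E3} (hv : v ≠ 0) : pr v = mk (nrm v hv) := by
  unfold pr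
  rw [dif_neg hv]

theorem pr_smul {v : E3} {r : ℝ} (hr : r ≠ 0) : pr (r • v) = pr v := by
  by_cases hv : v = 0
  · rw [hv, smul_zero]
  · have hrv : r • v ≠ 0 := smul_ne_zero hr hv
    rw [pr_of_ne hv, pr_of_ne hrv]
    apply eq_smul_mk (r := ‖r • v‖⁻¹ * r * ‖v‖)
    rw [nrm_coe, nrm_coe, smul_smul, smul_smul]
    congr 1
    have : ‖v‖ ≠ 0 := norm_ne_zero_iff.2 hv
    field_simp

theorem pr_eq_pr {v w : E3} (hv : v ≠ 0) (hw : w ≠ 0) :
    pr v = pr w ↔ ∃ r : ℝ, r ≠ 0 ∧ w = r • v := by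
  constructor
  · intro h
    rw [pr_of_ne hv, pr_of_ne hw, mk_eq_mk] at h
    have hv' : ‖v‖ ≠ 0 := norm_ne_zero_iff.2 hv
    have hw' : ‖w‖ ≠ 0 := norm_ne_zero_iff.2 hw
    rcases h with h | h
    · have h1 : (nrm w hw : E3) = (nrm v hv : E3) := by rw [h]
      rw [nrm_coe, nrm_coe] at h1
      refine ⟨‖w‖ * ‖v‖⁻¹, mul_ne_zero hw' (inv_ne_zero hv'), ?_⟩
      rw [mul_smul, ← h1, smul_smul, mul_inv_cancel₀ hw', one_smul]
    · have h1 : (nrm w hw : E3) = -(nrm v hv : E3) := by rw [h, coe_neg_sphere]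
      rw [nrm_coe, nrm_coe] at h1
      refine ⟨-(‖w‖ * ‖v‖⁻¹), neg_ne_zero.2 (mul_ne_zero hw' (inv_ne_zero hv')), ?_⟩
      rw [neg_smul, mul_smul, ← smul_neg, ← h1, smul_smul, mul_inv_cancel₀ hw', one_smul]
  · rintro ⟨r, hr, rfl⟩
    rw [pr_smul hr]

theorem pr_coe (p : S2) : pr (p : E3) = mk p := by
  have hp : ‖(p : E3)‖ = 1 := norm_eq_of_mem_sphere p
  have hp0 : (p : E3) ≠ 0 := by
    intro h
    rw [h, norm_zero] at hp
    exact zero_ne_one hp
  rw [pr_of_ne hp0]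
  congr 1
  apply Subtype.ext
  rw [nrm_coe, hp, inv_one, one_smul]

theorem pr_surj (x : P2) : ∃ v : E3, v ≠ 0 ∧ pr v = x := by
  obtain ⟨p, rfl⟩ := mk_surjective x
  refine ⟨(p : E3), ?_, pr_coe p⟩
  have hp : ‖(p : E3)‖ = 1 := norm_eq_of_mem_sphere p
  intro h
  rw [h, norm_zero] at hp
  exact zero_ne_one hp

theorem continuousAt_pr {v : E3} (hv : v ≠ 0) : ContinuousAt pr v := by
  have hU : IsOpen {w : E3 | w ≠ 0} := isOpen_ne
  have h1 : ContinuousOn pr {w : E3 | w ≠ 0} := by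
    rw [continuousOn_iff_continuous_domRestrict]
    have h2 : ({w : E3 | w ≠ 0}.domRestrict pr) =
        fun w : {w : E3 | w ≠ 0} => mk (nrm (w : E3) w.2) := by
      funext w
      exact pr_of_ne w.2
    rw [h2]
    refine continuous_mk.comp (Continuous.subtype_mk ?_ _)
    exact (continuous_subtype_val.norm.inv₀ fun w => norm_ne_zero_iff.2 w.2).smul
      continuous_subtype_val
  exact h1.continuousAt (hU.mem_nhds hv)

theorem pr_mem_incLine {H : S2 → S2 → ℝ} (h : IsInc H) {p l : S2} :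
    mk p ∈ incLine H l ↔ H p l = 0 := by
  constructor
  · rintro ⟨q, hq, hq0⟩
    rcases mk_eq_mk.1 hq with h' | h'
    · rw [h']
      exact hq0
    · rw [h', h.neg_left, hq0, neg_zero]
  · intro h0
    exact ⟨p, rfl, h0⟩

end Pool.Agent.Helper5.WP
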