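import Pool.Agent.Helper5.WP.Points
import Pool.Agent.Helper5.WP.Ang

/-! # Project WP, module G: asymptotic coordinates -/

/-! # Project WP, module G: asymptotic coordinates -/

set_option autoImplicit false

namespace Pool.Agent.Helper5.WP

open Pool.Agent.Helper7.TP Metric Set Topology
open Filter (Tendsto atTop atBot)

/-- The vector of `E3` with the given coordinates. -/
private def vE (v : Fin 3 → ℝ) : E3 := WithLp.toLp 2 v

private theorem vE_ne {v : Fin 3 → ℝ} (hv : v ≠ 0) : vE v ≠ 0 := by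
  intro h
  apply hv
  ext i
  have := congrArg (fun w : E3 => w i) h
  simpa [vE] using this

private theorem vE_smul (r : ℝ) (v : Fin 3 → ℝ) : vE (r • v) = r • vE v := rfl

private theorem vE_inj {v w : Fin 3 → ℝ} (h : vE v = vE w) : v = w := by
  ext i
  have := congrArg (fun w : E3 => w i) h
  simpa [vE] using this

private theorem vE_coe (v : E3) : vE (fun i => v i) = v := rfl

private theorem vE_inner (v w : Fin 3 → ℝ) : inner ℝ (vE v) (vE w) = w ⬝ᵥ v := by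
  unfold vE
  rw [EuclideanSpace.inner_toLp_toLp]
  simp [dotProduct]

private theorem sg_pr (l m : S2) {v : E3} (hv : v ≠ 0) :
    sg l m (pr v) = (‖v‖⁻¹) ^ 2 * (inner ℝ v (l : E3) * inner ℝ v (m : E3)) := by
  have : pr v = mk (nrm v hv) := by
    unfold pr
    rw [dif_neg hv]
  rw [this]
  change inner ℝ ((nrm v hv : S2) : E3) (l : E3) * inner ℝ ((nrm v hv : S2) : E3) (m : E3) = _
  rw [nrm_coe]
  simp only [inner_smul_left]
  simp
  ring

private theorem sg_pr_nrm {a b v : Fin 3 → ℝ} (ha : a ≠ 0) (hb : b ≠ 0) (hv : v ≠ 0) :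
    sg (nrm (vE a) (vE_ne ha)) (nrm (vE b) (vE_ne hb)) (pr (vE v)) =
      ((‖vE v‖⁻¹) ^ 2 * ‖vE a‖⁻¹ * ‖vE b‖⁻¹) * ((a ⬝ᵥ v) * (b ⬝ᵥ v)) := by
  rw [sg_pr _ _ (vE_ne hv), nrm_coe, nrm_coe]
  simp only [inner_smul_right]
  rw [vE_inner, vE_inner]
  ring

private theorem fac_pos {a b v : Fin 3 → ℝ} (ha : a ≠ 0) (hb : b ≠ 0) (hv : v ≠ 0) :
    0 < (‖vE v‖⁻¹) ^ 2 * ‖vE a‖⁻¹ * ‖vE b‖⁻¹ := by
  have h1 := norm_pos_iff.2 (vE_ne ha)
  have h2 := norm_pos_iff.2 (vE_ne hb)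
  have h3 := norm_pos_iff.2 (vE_ne hv)
  positivity

private theorem sg_pos {a b v : Fin 3 → ℝ} (ha : a ≠ 0) (hb : b ≠ 0) (hv : v ≠ 0)
    (h : 0 < (a ⬝ᵥ v) * (b ⬝ᵥ v)) :
    0 < sg (nrm (vE a) (vE_ne ha)) (nrm (vE b) (vE_ne hb)) (pr (vE v)) := by
  rw [sg_pr_nrm ha hb hv]
  exact mul_pos (fac_pos ha hb hv) h

private theorem sg_neg {a b v : Fin 3 → ℝ} (ha : a ≠ 0) (hb : b ≠ 0) (hv : v ≠ 0)
    (h : (a ⬝ᵥ v) * (b ⬝ᵥ v) < 0) :
    sg (nrm (vE a) (vE_ne ha)) (nrm (vE b) (vE_ne hb)) (pr (vE v)) < 0 := by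
  rw [sg_pr_nrm ha hb hv]
  exact mul_neg_of_pos_of_neg (fac_pos ha hb hv) h

private theorem cont_sg {X : Type*} [TopologicalSpace X] {f g : X → S2} {h : X → P2}
    (hf : Continuous f) (hg : Continuous g) (hh : Continuous h) :
    Continuous fun x => sg (f x) (g x) (h x) :=
  continuous_sg.comp ((hf.prodMk hg).prodMk hh)

private theorem ev_lines {𝓛 : Set (Set P2)} {e : ℕ → P2 ≃ₜ P2} (he : Copies 𝓛 e)
    {U : Ultrafilter ℕ} (hU : (U : Filter ℕ) ≤ atTop) {k : ℕ} {V : Fin k → Set S2}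
    (hV : ∀ i, IsOpen (V i)) {l : Fin k → S2} (hl : ∀ i, l i ∈ V i) :
    ∀ᶠ n in (U : Filter ℕ), ∃ l' : Fin k → S2, (∀ i, l' i ∈ V i) ∧
      ∀ i, (e n) '' straight (l' i) ∈ 𝓛 := by
  have h1 : ∀ᶠ n in (U : Filter ℕ), ∀ i, ∃ l ∈ V i, (e n) '' straight l ∈ 𝓛 := by
    rw [Filter.eventually_all]
    intro i
    exact (he (V i) (hV i) ⟨l i, hl i⟩).filter_mono hU
  filter_upwards [h1] with n hn
  choose l' h2 h3 using hn
  exact ⟨l', h2, h3⟩

private theorem det_solve {u v w : Fin 3 → ℝ} (h : Matrix.det ![u, v, w] ≠ 0) (p q r : ℝ) :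
    ∃ a : Fin 3 → ℝ, a ⬝ᵥ u = p ∧ a ⬝ᵥ v = q ∧ a ⬝ᵥ w = r := by
  set t : Fin 3 → ℝ := ![p, q, r] with ht
  have hu : IsUnit (Matrix.of ![u, v, w]).det := isUnit_iff_ne_zero.2 h
  refine ⟨(Matrix.of ![u, v, w])⁻¹.mulVec t, ?_⟩
  have h1 : (Matrix.of ![u, v, w]).mulVec ((Matrix.of ![u, v, w])⁻¹.mulVec t) = t := by
    rw [Matrix.mulVec_mulVec, Matrix.mul_nonsing_inv _ hu, Matrix.one_mulVec]
  refine ⟨?_, ?_, ?_⟩
  · rw [dotProduct_comm]
    exact congrFun h1 0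
  · rw [dotProduct_comm]
    exact congrFun h1 1
  · rw [dotProduct_comm]
    exact congrFun h1 2

theorem exists_chart {𝓛 : Set (Set P2)} (h𝓛 : IsTPP 𝓛) {e : ℕ → P2 ≃ₜ P2} (he : Copies 𝓛 e)
    {U : Ultrafilter ℕ} (hU : (U : Filter ℕ) ≤ atTop) : ∃ St, Chart 𝓛 U St := by
  refine ⟨fun P v => v ≠ 0 ∧
    Tendsto (fun n => (e n).symm (P n)) (U : Filter ℕ) (𝓝 (pr (vE v))), ?_⟩
  constructor
  · rintro P v ⟨h, -⟩
    exact h
  · intro v hv
    refine ⟨fun n => e n (pr (vE v)), hv, ?_⟩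
    simp
  · intro P
    obtain ⟨x, -, hx⟩ := isCompact_univ.ultrafilter_le_nhds (U.map fun n => (e n).symm (P n))
      (by simp)
    obtain ⟨v, hv, rfl⟩ := pr_surj x
    refine ⟨fun i => v i, ?_, ?_⟩
    · intro h
      apply hv
      rw [← vE_coe v, h]
      rfl
    · rw [vE_coe]
      exact hx
  · rintro P Q v ⟨hv, h1⟩ h2
    refine ⟨hv, h1.congr' ?_⟩
    filter_upwards [h2] with n hn
    rw [hn]
  · rintro P v w ⟨hv, h1⟩
    constructor
    · rintro ⟨hw, h2⟩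
      have h3 := tendsto_nhds_unique h1 h2
      obtain ⟨r, hr, h4⟩ := (pr_eq_pr (vE_ne hv) (vE_ne hw)).1 h3
      refine ⟨r, hr, vE_inj ?_⟩
      rw [h4, vE_smul]
    · rintro ⟨r, hr, rfl⟩
      refine ⟨smul_ne_zero hr hv, ?_⟩
      rw [vE_smul, pr_smul hr]
      exact h1
  · rintro P Q R u v w hC ⟨hu, hP⟩ ⟨hv, hQ⟩ ⟨hw, hR⟩
    by_contra hdet
    obtain ⟨a0, a00, a01, a02⟩ := det_solve hdet 1 1 1
    obtain ⟨a1, a10, a11, a12⟩ := det_solve hdet (-1) 1 1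
    obtain ⟨a2, a20, a21, a22⟩ := det_solve hdet 1 (-1) 1
    obtain ⟨a3, a30, a31, a32⟩ := det_solve hdet 1 1 (-1)
    have n0 : a0 ≠ 0 := by
      rintro rfl
      simp at a00
    have n1 : a1 ≠ 0 := by
      rintro rfl
      simp at a11
    have n2 : a2 ≠ 0 := by
      rintro rfl
      simp at a20
    have n3 : a3 ≠ 0 := by
      rintro rfl
      simp at a30
    set G : Set ((Fin 4 → S2) × P2 × P2 × P2) := {z |
      (sg (z.1 0) (z.1 1) z.2.1 < 0 ∧ 0 < sg (z.1 0) (z.1 1) z.2.2.1 ∧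
        0 < sg (z.1 0) (z.1 1) z.2.2.2) ∧
      (0 < sg (z.1 0) (z.1 2) z.2.1 ∧ sg (z.1 0) (z.1 2) z.2.2.1 < 0 ∧
        0 < sg (z.1 0) (z.1 2) z.2.2.2) ∧
      (0 < sg (z.1 0) (z.1 3) z.2.1 ∧ 0 < sg (z.1 0) (z.1 3) z.2.2.1 ∧
        sg (z.1 0) (z.1 3) z.2.2.2 < 0)} with hG
    have hGo : IsOpen G := by
      have hc : ∀ i : Fin 4, Continuous fun z : (Fin 4 → S2) × P2 × P2 × P2 => z.1 i :=
        fun i => (continuous_apply i).comp continuous_fst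
      have k1 : Continuous fun z : (Fin 4 → S2) × P2 × P2 × P2 => z.2.1 := by fun_prop
      have k2 : Continuous fun z : (Fin 4 → S2) × P2 × P2 × P2 => z.2.2.1 := by fun_prop
      have k3 : Continuous fun z : (Fin 4 → S2) × P2 × P2 × P2 => z.2.2.2 := by fun_prop
      refine IsOpen.inter (IsOpen.inter ?_ (IsOpen.inter ?_ ?_))
        (IsOpen.inter (IsOpen.inter ?_ (IsOpen.inter ?_ ?_))
          (IsOpen.inter ?_ (IsOpen.inter ?_ ?_)))
      · exact isOpen_lt (cont_sg (hc 0) (hc 1) k1) continuous_const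
      · exact isOpen_lt continuous_const (cont_sg (hc 0) (hc 1) k2)
      · exact isOpen_lt continuous_const (cont_sg (hc 0) (hc 1) k3)
      · exact isOpen_lt continuous_const (cont_sg (hc 0) (hc 2) k1)
      · exact isOpen_lt (cont_sg (hc 0) (hc 2) k2) continuous_const
      · exact isOpen_lt continuous_const (cont_sg (hc 0) (hc 2) k3)
      · exact isOpen_lt continuous_const (cont_sg (hc 0) (hc 3) k1)
      · exact isOpen_lt continuous_const (cont_sg (hc 0) (hc 3) k2)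
      · exact isOpen_lt (cont_sg (hc 0) (hc 3) k3) continuous_const
    set l : Fin 4 → S2 := ![nrm (vE a0) (vE_ne n0), nrm (vE a1) (vE_ne n1),
      nrm (vE a2) (vE_ne n2), nrm (vE a3) (vE_ne n3)] with hl
    have hmem : (l, pr (vE u), pr (vE v), pr (vE w)) ∈ G := by
      refine ⟨⟨?_, ?_, ?_⟩, ⟨?_, ?_, ?_⟩, ⟨?_, ?_, ?_⟩⟩
      · exact sg_neg n0 n1 hu (by rw [a00, a10]; norm_num)
      · exact sg_pos n0 n1 hv (by rw [a01, a11]; norm_num)
      · exact sg_pos n0 n1 hw (by rw [a02, a12]; norm_num)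
      · exact sg_pos n0 n2 hu (by rw [a00, a20]; norm_num)
      · exact sg_neg n0 n2 hv (by rw [a01, a21]; norm_num)
      · exact sg_pos n0 n2 hw (by rw [a02, a22]; norm_num)
      · exact sg_pos n0 n3 hu (by rw [a00, a30]; norm_num)
      · exact sg_pos n0 n3 hv (by rw [a01, a31]; norm_num)
      · exact sg_neg n0 n3 hw (by rw [a02, a32]; norm_num)
    obtain ⟨A, B, hA, hB, hlA, hxB, hAB⟩ := isOpen_prod_iff.1 hGo l _ hmem
    obtain ⟨B1, B2, hB1, hB2, hx1, hx2, hB12⟩ := isOpen_prod_iff.1 hB _ _ hxB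
    obtain ⟨B3, B4, hB3, hB4, hx3, hx4, hB34⟩ := isOpen_prod_iff.1 hB2 _ _ hx2
    obtain ⟨V, hV, hVA⟩ := isOpen_pi_iff'.1 hA l hlA
    have e1 := ev_lines he hU (fun i => (hV i).1) (fun i => (hV i).2)
    have e2 := hP.eventually (hB1.mem_nhds hx1)
    have e3 := hQ.eventually (hB3.mem_nhds hx3)
    have e4 := hR.eventually (hB4.mem_nhds hx4)
    obtain ⟨n, ⟨l', hl1, hl2⟩, hn2, hn3, hn4, C, hC1, hC2, hC3, hC4⟩ :=
      (e1.and (e2.and (e3.and (e4.and hC)))).exists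
    have hg : (l', (e n).symm (P n), (e n).symm (Q n), (e n).symm (R n)) ∈ G :=
      hAB ⟨hVA fun i _ => hl1 i, hB12 ⟨hn2, hB34 ⟨hn3, hn4⟩⟩⟩
    exact three_points h𝓛 (e n) l' hl2 hC1 (by simpa using hC2) (by simpa using hC3)
      (by simpa using hC4) hg.1 hg.2.1 hg.2.2
  · rintro P Q R S u v w x a b hA ⟨hu, hP⟩ ⟨hv, hQ⟩ ⟨hw, hR⟩ ⟨hx, hS⟩ s1 s2 s3 s4
    have na : a ≠ 0 := by
      rintro rfl
      simp at s1
    have nb : b ≠ 0 := by
      rintro rfl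
      simp at s1
    set G : Set ((Fin 2 → S2) × P2 × P2 × P2 × P2) := {z |
      0 < sg (z.1 0) (z.1 1) z.2.1 ∧ sg (z.1 0) (z.1 1) z.2.2.1 < 0 ∧
        0 < sg (z.1 0) (z.1 1) z.2.2.2.1 ∧ sg (z.1 0) (z.1 1) z.2.2.2.2 < 0} with hG
    have hGo : IsOpen G := by
      have hc : ∀ i : Fin 2, Continuous fun z : (Fin 2 → S2) × P2 × P2 × P2 × P2 => z.1 i :=
        fun i => (continuous_apply i).comp continuous_fst
      have k1 : Continuous fun z : (Fin 2 → S2) × P2 × P2 × P2 × P2 => z.2.1 := by fun_prop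
      have k2 : Continuous fun z : (Fin 2 → S2) × P2 × P2 × P2 × P2 => z.2.2.1 := by fun_prop
      have k3 : Continuous fun z : (Fin 2 → S2) × P2 × P2 × P2 × P2 => z.2.2.2.1 := by fun_prop
      have k4 : Continuous fun z : (Fin 2 → S2) × P2 × P2 × P2 × P2 => z.2.2.2.2 := by fun_prop
      refine IsOpen.inter ?_ (IsOpen.inter ?_ (IsOpen.inter ?_ ?_))
      · exact isOpen_lt continuous_const (cont_sg (hc 0) (hc 1) k1)
      · exact isOpen_lt (cont_sg (hc 0) (hc 1) k2) continuous_const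
      · exact isOpen_lt continuous_const (cont_sg (hc 0) (hc 1) k3)
      · exact isOpen_lt (cont_sg (hc 0) (hc 1) k4) continuous_const
    set l : Fin 2 → S2 := ![nrm (vE a) (vE_ne na), nrm (vE b) (vE_ne nb)] with hl
    have hmem : (l, pr (vE u), pr (vE v), pr (vE w), pr (vE x)) ∈ G :=
      ⟨sg_pos na nb hu s1, sg_neg na nb hv s2, sg_pos na nb hw s3, sg_neg na nb hx s4⟩
    obtain ⟨A, B, hA', hB, hlA, hxB, hAB⟩ := isOpen_prod_iff.1 hGo l _ hmem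
    obtain ⟨B1, B2, hB1, hB2, hx1, hx2, hB12⟩ := isOpen_prod_iff.1 hB _ _ hxB
    obtain ⟨B3, B4, hB3, hB4, hx3, hx4, hB34⟩ := isOpen_prod_iff.1 hB2 _ _ hx2
    obtain ⟨B5, B6, hB5, hB6, hx5, hx6, hB56⟩ := isOpen_prod_iff.1 hB4 _ _ hx4
    obtain ⟨V, hV, hVA⟩ := isOpen_pi_iff'.1 hA' l hlA
    have e1 := ev_lines he hU (fun i => (hV i).1) (fun i => (hV i).2)
    have e2 := hP.eventually (hB1.mem_nhds hx1)
    have e3 := hQ.eventually (hB3.mem_nhds hx3)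
    have e4 := hR.eventually (hB5.mem_nhds hx5)
    have e5 := hS.eventually (hB6.mem_nhds hx6)
    obtain ⟨n, ⟨l', hl1, hl2⟩, hn2, hn3, hn4, hn5, hn6⟩ :=
      (e1.and (e2.and (e3.and (e4.and (e5.and hA))))).exists
    have hg : (l', (e n).symm (P n), (e n).symm (Q n), (e n).symm (R n), (e n).symm (S n)) ∈ G :=
      hAB ⟨hVA fun i _ => hl1 i, hB12 ⟨hn2, hB34 ⟨hn3, hB56 ⟨hn4, hn5⟩⟩⟩⟩
    exact four_points h𝓛 (e n) (hl2 0) (hl2 1) (by simpa using hn6) hg.1 hg.2.1 hg.2.2.1 hg.2.2.2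

end Pool.Agent.Helper5.WP
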