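import Pool.Agent.Helper7.TP.Straight

/-!
# Project WP: a topological projective plane that misses a simple arrangement of straight lines

Definitions. `P2`, pseudolines, arrangements, topological projective planes and the presence of an
arrangement are those of `Pool.Agent.Helper7.TP.Defs`.
-/

set_option autoImplicit false

namespace Pool.Agent.Helper5.WP

open Pool.Agent.Helper7.TP Metric Set Topology
open Filter (Tendsto atTop atBot)

/-! ### Incidence functions -/

/-- An incidence function on the sphere whose zero sets are the lines of a topological projective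
plane. -/
structure IsInc (H : S2 → S2 → ℝ) : Prop where
  cont : Continuous fun z : S2 × S2 => H z.1 z.2
  neg_left : ∀ p l, H (-p) l = -H p l
  neg_right : ∀ p l, H p (-l) = -H p l
  curve : ∀ l, ∃ c : Circle → S2, Continuous c ∧ Function.Injective c ∧
    range c = {p | H p l = 0} ∧ ∀ z, c (-z) = -c z
  dual : ∀ p, ∃ c : Circle → S2, Continuous c ∧ (∀ z, H p (c z) = 0) ∧ ∀ z, c (-z) = -c z
  uniq : ∀ p q l m, H p l = 0 → H q l = 0 → H p m = 0 → H q m = 0 → mk p = mk q ∨ mk l = mk m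
  conn : ∀ l, IsPreconnected {p | 0 < H p l}
  change : ∀ p l, H p l = 0 → ∀ U ∈ 𝓝 p, ∃ V ⊆ U, IsPreconnected V ∧ (∃ q ∈ V, 0 < H q l) ∧
    ∃ q ∈ V, H q l < 0

/-- The line with the index `l`. -/
def incLine (H : S2 → S2 → ℝ) (l : S2) : Set P2 := {x | ∃ p, mk p = x ∧ H p l = 0}

/-- The plane of an incidence function. -/
def incPlane (H : S2 → S2 → ℝ) : Set (Set P2) := range (incLine H)

/-! ### Radial planes -/

/-- A profile: a strictly concave function on `(-π/2, π/2)` which tends to `-∞` at both ends. -/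
structure IsProf (F : ℝ → ℝ) : Prop where
  cont : ContinuousOn F (Ioo (-(Real.pi / 2)) (Real.pi / 2))
  left : Tendsto F (𝓝[>] (-(Real.pi / 2))) atBot
  right : Tendsto F (𝓝[<] (Real.pi / 2)) atBot
  mix : ∀ a b c d : ℝ, a < b → c < d → -(Real.pi / 2) < a - d → b - c < Real.pi / 2 →
    F (a - d) + F (b - c) < F (a - c) + F (b - d)

/-- The value of the function `Γ` at the unit complex number with the angle `t`. -/
noncomputable def ang (Γ : ℂ → ℝ) (t : ℝ) : ℝ := Γ (Complex.exp ((t : ℂ) * Complex.I))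

/-- A gauge: a homogeneous continuous function on the complex plane which has the sign of the real
part, and is strictly logarithmically concave as a function of the angle. -/
structure IsGauge (Γ : ℂ → ℝ) : Prop where
  cont : Continuous Γ
  smul : ∀ (r : ℝ) (w : ℂ), Γ ((r : ℂ) * w) = r * Γ w
  pos : ∀ w, 0 < Γ w ↔ 0 < w.re
  mix : ∀ a b c d : ℝ, a < b → c < d → -(Real.pi / 2) < a - d → b - c < Real.pi / 2 →
    ang Γ (a - d) * ang Γ (b - c) < ang Γ (a - c) * ang Γ (b - d)

/-- The gauge of a profile. -/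
noncomputable def gam (F : ℝ → ℝ) (w : ℂ) : ℝ :=
  if w.re = 0 then 0 else w.re / |w.re| * ‖w‖ * Real.exp (F (Real.arctan (w.im / w.re)))

/-- The first two coordinates of a point of the sphere, as a complex number. -/
def cx (p : S2) : ℂ := ⟨(p : E3) 0, (p : E3) 1⟩

/-- The incidence function of the radial plane. -/
noncomputable def HG (Γ : ℂ → ℝ) (p l : S2) : ℝ :=
  Γ (cx p * (starRingEnd ℂ) (cx l)) - (p : E3) 2 * (l : E3) 2

/-- The radial plane. -/
def radPlane (Γ : ℂ → ℝ) : Set (Set P2) := incPlane (HG Γ)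

/-! ### Points -/

/-- A point of the sphere. -/
def north : S2 := ⟨!₂[0, 0, 1], by
  rw [mem_sphere_zero_iff_norm, EuclideanSpace.norm_eq, Fin.sum_univ_three]
  simp⟩

open Classical in
/-- The point of the projective plane with the homogeneous coordinates `v`. -/
noncomputable def pr (v : E3) : P2 := if hv : v = 0 then mk north else mk (nrm v hv)

/-- The vector with the first coordinates `z` and the last coordinate `h`. -/
def vec (z : ℂ) (h : ℝ) : E3 := !₂[z.re, z.im, h]

/-- The centre. -/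
noncomputable def org : P2 := pr (vec 0 1)

/-- The point with the polar coordinates `r`, `θ`. -/
noncomputable def pt (r θ : ℝ) : P2 := pr (vec ((r : ℂ) * Complex.exp ((θ : ℂ) * Complex.I)) 1)

/-- The point at infinity of the lines with the angle `φ`. -/
noncomputable def idl (φ : ℝ) : P2 :=
  pr (vec (Complex.I * Complex.exp ((φ : ℂ) * Complex.I)) 0)

/-! ### Copies of straight lines -/

/-- The product of the inner products with two normal vectors. -/
noncomputable def sg (l m : S2) : P2 → ℝ :=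
  Quotient.lift (fun p : S2 => inner ℝ (p : E3) (l : E3) * inner ℝ (p : E3) (m : E3)) (by
    rintro p q (h | h)
    · rw [h]
    · rw [h]
      simp only [coe_neg_sphere, inner_neg_left]
      ring)

/-- The four points are in this cyclic order on a line. -/
def Alt (𝓛 : Set (Set P2)) (w x y z : P2) : Prop :=
  ∃ C ∈ 𝓛, ∃ (γ : ℝ → P2) (a b t₀ t₁ t₂ t₃ : ℝ), ContinuousOn γ (Icc a b) ∧ InjOn γ (Ico a b) ∧
    γ a = γ b ∧ (∀ t ∈ Icc a b, γ t ∈ C) ∧ a ≤ t₀ ∧ t₀ < t₁ ∧ t₁ < t₂ ∧ t₂ < t₃ ∧ t₃ < b ∧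
    γ t₀ = w ∧ γ t₁ = x ∧ γ t₂ = y ∧ γ t₃ = z

/-- The homeomorphisms `e n` carry more and more dense sets of straight lines to lines. -/
def Copies (𝓛 : Set (Set P2)) (e : ℕ → P2 ≃ₜ P2) : Prop :=
  ∀ V : Set S2, IsOpen V → V.Nonempty → ∀ᶠ n in atTop, ∃ l ∈ V, (e n) '' straight l ∈ 𝓛

/-- Asymptotic coordinates: `St P v` means that the sequence of points `P` tends to the point with
the homogeneous coordinates `v` of a classical plane. -/
structure Chart (𝓛 : Set (Set P2)) (U : Ultrafilter ℕ)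
    (St : (ℕ → P2) → (Fin 3 → ℝ) → Prop) : Prop where
  ne : ∀ P v, St P v → v ≠ 0
  ex : ∀ v, v ≠ 0 → ∃ P, St P v
  tot : ∀ P, ∃ v, St P v
  congr : ∀ P Q v, St P v → (∀ᶠ n in (U : Filter ℕ), P n = Q n) → St Q v
  uniq : ∀ P v w, St P v → (St P w ↔ ∃ r : ℝ, r ≠ 0 ∧ w = r • v)
  col : ∀ P Q R u v w, (∀ᶠ n in (U : Filter ℕ), ∃ C ∈ 𝓛, P n ∈ C ∧ Q n ∈ C ∧ R n ∈ C) →
    St P u → St Q v → St R w → Matrix.det ![u, v, w] = 0
  alt : ∀ P Q R S u v w x (a b : Fin 3 → ℝ),
    (∀ᶠ n in (U : Filter ℕ), Alt 𝓛 (P n) (Q n) (R n) (S n)) →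
    St P u → St Q v → St R w → St S x → 0 < (a ⬝ᵥ u) * (b ⬝ᵥ u) → (a ⬝ᵥ v) * (b ⬝ᵥ v) < 0 →
    0 < (a ⬝ᵥ w) * (b ⬝ᵥ w) → (a ⬝ᵥ x) * (b ⬝ᵥ x) < 0 → False

/-- Normalised asymptotic coordinates of a radial plane: the centre is `(0, 1, κ)` and the line at
infinity is the line `Z = 0`. -/
structure Normal (Γ : ℂ → ℝ) (U : Ultrafilter ℕ) (St : (ℕ → P2) → (Fin 3 → ℝ) → Prop)
    (κ : ℝ) : Prop where
  chart : Chart (radPlane Γ) U St
  kap : κ = 0 ∨ κ = 1
  org : St (fun _ => org) ![0, 1, κ]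
  idl_zero : ∀ (φ : ℕ → ℝ) v, St (fun n => idl (φ n)) v → v 2 = 0
  idl_ex : ∀ v, v ≠ 0 → v 2 = 0 → ∃ φ : ℕ → ℝ, St (fun n => idl (φ n)) v

/-! ### Grids -/

/-- The mass of the cell `(i, j)` of a grid. -/
def mass (f : ℝ → ℝ) (θ φ : Fin 4 → ℝ) (i j : Fin 3) : ℝ :=
  f (θ i.succ - φ j.succ) + f (θ i.castSucc - φ j.castSucc) - f (θ i.succ - φ j.castSucc) -
    f (θ i.castSucc - φ j.succ)

/-- In every `3 × 3` grid some cell has at least twice the mass of another cell. -/
def Grid (f : ℝ → ℝ) : Prop :=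
  ∀ θ φ : Fin 4 → ℝ, StrictMono θ → StrictMono φ → (∀ i j, |θ i - φ j| < Real.pi / 2) →
    ∃ i j k l, 2 * mass f θ φ k l ≤ mass f θ φ i j

end Pool.Agent.Helper5.WP
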