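import Pool.Agent.Helper5.WP.Defs

/-! # Project WP, module K: dense simple arrangements of straight lines -/

set_option autoImplicit false

namespace Pool.Agent.Helper5.WP

open Pool.Agent.Helper7.TP Metric Set Topology
open Filter (Tendsto atTop atBot)

private theorem span_pair_ne_top (a b : E3) : Submodule.span ℝ {a, b} ≠ ⊤ := by
  classical
  intro h
  have h1 : Module.finrank ℝ (Submodule.span ℝ (({a, b} : Finset E3) : Set E3)) ≤
      ({a, b} : Finset E3).card := finrank_span_finset_le_card _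
  have h2 : ({a, b} : Finset E3).card ≤ 2 := Finset.card_le_two
  rw [Finset.coe_pair, h, finrank_top, finrank_euclideanSpace, Fintype.card_fin] at h1
  omega

private theorem exists_avoid (c : S2) {ε : ℝ} (hε : 0 < ε) (F : Finset (Submodule ℝ E3))
    (hF : ∀ V ∈ F, V ≠ ⊤) : ∃ m : S2, ‖(m : E3) - c‖ < ε ∧ ∀ V ∈ F, (m : E3) ∉ V := by
  have hη : 0 < min (ε / 2) 1 := lt_min (by positivity) one_pos
  have h0 : MeasureTheory.volume (⋃ V ∈ F, (V : Set E3)) = 0 := by
    refine (MeasureTheory.measure_biUnion_null_iff F.countable_toSet).2 fun V hV => ?_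
    exact MeasureTheory.Measure.addHaar_submodule _ V (hF V hV)
  have h1 : ¬ ball (c : E3) (min (ε / 2) 1) ⊆ ⋃ V ∈ F, (V : Set E3) := by
    intro hs
    have h2 := MeasureTheory.measure_mono_null hs h0
    exact (measure_ball_pos MeasureTheory.volume (c : E3) hη).ne' h2
  obtain ⟨v, hv, hvF⟩ := not_subset.1 h1
  rw [mem_ball, dist_eq_norm] at hv
  have hc : ‖(c : E3)‖ = 1 := norm_eq_of_mem_sphere c
  have hv0 : v ≠ 0 := by
    rintro rfl
    rw [zero_sub, norm_neg, hc] at hv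
    exact absurd (hv.trans_le (min_le_right _ _)) (lt_irrefl _)
  have hn : 0 < ‖v‖ := norm_pos_iff.2 hv0
  refine ⟨nrm v hv0, ?_, fun V hV hm => hvF ?_⟩
  · rw [nrm_coe]
    have h2 : ‖‖v‖⁻¹ • v - v‖ = |1 - ‖v‖| := by
      have h3 : ‖v‖⁻¹ • v - v = (‖v‖⁻¹ - 1) • v := by rw [sub_smul, one_smul]
      rw [h3, norm_smul, Real.norm_eq_abs]
      nth_rewrite 2 [← abs_of_pos hn]
      rw [← abs_mul]
      congr 1
      field_simp
    have h4 : |1 - ‖v‖| ≤ ‖v - c‖ := by
      have h7 := abs_norm_sub_norm_le (c : E3) v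
      rw [hc, norm_sub_rev] at h7
      exact h7
    have h5 : ‖‖v‖⁻¹ • v - (c : E3)‖ ≤ ‖‖v‖⁻¹ • v - v‖ + ‖v - c‖ :=
      norm_sub_le_norm_sub_add_norm_sub _ _ _
    have h6 := min_le_left (ε / 2) 1
    rw [h2] at h5
    linarith
  · rw [nrm_coe] at hm
    refine mem_iUnion₂.2 ⟨V, hV, ?_⟩
    exact (V.smul_mem_iff (inv_ne_zero hn.ne')).1 hm

private theorem exists_seq (c : ℕ → S2) {ε : ℝ} (hε : 0 < ε) (n : ℕ) : ∃ l : ℕ → S2,
    ∀ k < n, ‖(l k : E3) - c k‖ < ε ∧
      ∀ i < k, ∀ j < k, (l k : E3) ∉ Submodule.span ℝ {(l i : E3), (l j : E3)} := by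
  classical
  induction n with
  | zero => exact ⟨c, fun k hk => absurd hk (Nat.not_lt_zero k)⟩
  | succ n ih =>
    obtain ⟨l, hl⟩ := ih
    obtain ⟨m, hm1, hm2⟩ := exists_avoid (c n) hε
      ((Finset.range n ×ˢ Finset.range n).image fun z =>
        Submodule.span ℝ {(l z.1 : E3), (l z.2 : E3)}) (by
        intro V hV
        obtain ⟨z, -, rfl⟩ := Finset.mem_image.1 hV
        exact span_pair_ne_top _ _)
    have hne : ∀ i, i < n → Function.update l n m i = l i := fun i hi =>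
      Function.update_of_ne hi.ne _ _
    refine ⟨Function.update l n m, fun k hk => ?_⟩
    rcases Nat.lt_succ_iff_lt_or_eq.1 hk with hk | rfl
    · rw [hne k hk]
      refine ⟨(hl k hk).1, fun i hi j hj => ?_⟩
      rw [hne i (hi.trans hk), hne j (hj.trans hk)]
      exact (hl k hk).2 i hi j hj
    · rw [Function.update_self]
      refine ⟨hm1, fun i hi j hj => ?_⟩
      rw [hne i hi, hne j hj]
      exact hm2 _ (Finset.mem_image.2 ⟨(i, j), by
        rw [Finset.mem_product, Finset.mem_range, Finset.mem_range]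
        exact ⟨hi, hj⟩, rfl⟩)

private theorem mem_span_pair {p a b c : S2} (ha : inner ℝ (p : E3) (a : E3) = (0 : ℝ))
    (hb : inner ℝ (p : E3) (b : E3) = (0 : ℝ)) (hc : inner ℝ (p : E3) (c : E3) = (0 : ℝ))
    (hab : (b : E3) ∉ Submodule.span ℝ {(a : E3), (a : E3)}) :
    (c : E3) ∈ Submodule.span ℝ {(a : E3), (b : E3)} := by
  have hp : (p : E3) ≠ 0 := ne_zero_of_mem_unit_sphere p
  have ha0 : (a : E3) ≠ 0 := ne_zero_of_mem_unit_sphere a
  have : Fact (Module.finrank ℝ E3 = 2 + 1) := ⟨by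
    rw [finrank_euclideanSpace, Fintype.card_fin]⟩
  have h1 : Module.finrank ℝ ((Submodule.span ℝ {(p : E3)})ᗮ : Submodule ℝ E3) = 2 :=
    Submodule.finrank_orthogonal_span_singleton hp
  have h2 : LinearIndependent ℝ ![(a : E3), (b : E3)] := by
    rw [LinearIndependent.pair_iff' ha0]
    intro r hr
    apply hab
    rw [← hr]
    exact Submodule.smul_mem _ _ (Submodule.subset_span (mem_insert _ _))
  have h3 : Module.finrank ℝ (Submodule.span ℝ {(a : E3), (b : E3)}) = 2 := by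
    have h4 := finrank_span_eq_card h2
    rw [Fintype.card_fin] at h4
    have h5 : range ![(a : E3), (b : E3)] = {(a : E3), (b : E3)} := by
      simp [Matrix.range_cons, Set.pair_comm]
    rw [h5] at h4
    exact h4
  have h4 : Submodule.span ℝ {(a : E3), (b : E3)} ≤ (Submodule.span ℝ {(p : E3)})ᗮ := by
    rw [Submodule.span_le]
    rintro x (rfl | rfl)
    · exact Submodule.mem_orthogonal_singleton_iff_inner_right.2 ha
    · exact Submodule.mem_orthogonal_singleton_iff_inner_right.2 hb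
  rw [Submodule.eq_of_le_of_finrank_eq h4 (by rw [h1, h3])]
  exact Submodule.mem_orthogonal_singleton_iff_inner_right.2 hc

private theorem exists_centers {δ : ℝ} (hδ : 0 < δ) : ∃ (n : ℕ) (c : ℕ → S2), 2 ≤ n ∧
    ∀ m : S2, ∃ i < n, ‖(c i : E3) - m‖ < δ := by
  have : Nonempty S2 := ⟨north⟩
  let c : ℕ → S2 := TopologicalSpace.denseSeq S2
  have hc : DenseRange c := TopologicalSpace.denseRange_denseSeq S2
  obtain ⟨t, ht⟩ := isCompact_univ.elim_finite_subcover (fun i => ball (c i) δ)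
    (fun i => isOpen_ball) (by
      intro m _
      obtain ⟨i, hi⟩ := hc.exists_dist_lt m hδ
      exact mem_iUnion.2 ⟨i, hi⟩)
  refine ⟨t.sup id + 2, c, by omega, fun m => ?_⟩
  obtain ⟨i, hi, him⟩ := mem_iUnion₂.1 (ht (mem_univ m))
  refine ⟨i, ?_, ?_⟩
  · have : i ≤ t.sup id := Finset.le_sup (f := id) hi
    omega
  · rw [mem_ball, Subtype.dist_eq, dist_eq_norm] at him
    rw [norm_sub_rev]
    exact him

theorem exists_dense_simple {δ : ℝ} (hδ : 0 < δ) : ∃ (n : ℕ) (l : Fin n → S2),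
    IsArrangement (range fun i => straight (l i)) ∧
    (∀ x, {C ∈ range fun i => straight (l i) | x ∈ C}.ncard ≤ 2) ∧
    ∀ m : S2, ∃ i, ‖(l i : E3) - m‖ < δ := by
  obtain ⟨n, c, hn, hc⟩ := exists_centers (half_pos hδ)
  obtain ⟨l, hl⟩ := exists_seq c (half_pos hδ) n
  have hmk : ∀ i j, i < n → j < n → i ≠ j → mk (l i) ≠ mk (l j) := by
    have h0 : ∀ i j, j < n → i < j → mk (l i) ≠ mk (l j) := by
      intro i j hj hij h
      apply (hl j hj).2 i hij i hij
      rcases mk_eq_mk.1 h with h | h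
      · rw [h]
        exact Submodule.subset_span (mem_insert _ _)
      · rw [h, coe_neg_sphere]
        exact Submodule.neg_mem _ (Submodule.subset_span (mem_insert _ _))
    intro i j hi hj hij
    rcases lt_or_gt_of_ne hij with h | h
    · exact h0 i j hj h
    · exact (h0 j i hi h).symm
  have h3 : ∀ i j k, k < n → i < j → j < k → ∀ p : S2, inner ℝ (p : E3) (l i : E3) = (0 : ℝ) →
      inner ℝ (p : E3) (l j : E3) = (0 : ℝ) → inner ℝ (p : E3) (l k : E3) = (0 : ℝ) → False := by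
    intro i j k hk hij hjk p hi hj hk0
    exact (hl k hk).2 i (hij.trans hjk) j hjk
      (mem_span_pair hi hj hk0 ((hl j (hjk.trans hk)).2 i hij i hij))
  refine ⟨n, fun i => l i, ⟨finite_range _, ?_, ?_, ?_⟩, ?_, ?_⟩
  · have h1 : straight (l 0) ≠ straight (l 1) := by
      intro h
      obtain ⟨x, hx, -⟩ := straight_cross (hmk 0 1 (by omega) (by omega) (by omega))
      rw [← h, inter_self] at hx
      obtain ⟨⟨γ, -, hγ1, hγ2⟩, -⟩ := straight_isPseudoline (l 0)
      rw [hx] at hγ2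
      have h2 : γ 1 = γ (-1) := by
        have h3 : γ 1 ∈ range γ := ⟨_, rfl⟩
        have h4 : γ (-1) ∈ range γ := ⟨_, rfl⟩
        rw [hγ2] at h3 h4
        rw [mem_singleton_iff.1 h3, mem_singleton_iff.1 h4]
      have h3 := hγ1 h2
      have h4 := congrArg (fun z : Circle => (z : ℂ)) h3
      norm_num at h4
    rw [← ncard_pair h1]
    refine ncard_le_ncard ?_ (finite_range _)
    rintro C (rfl | rfl)
    · exact ⟨⟨0, by omega⟩, rfl⟩
    · exact ⟨⟨1, by omega⟩, rfl⟩
  · rintro _ ⟨i, rfl⟩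
    exact straight_isPseudoline _
  · rintro _ ⟨i, rfl⟩ _ ⟨j, rfl⟩ hij
    exact straight_cross (hmk i j i.2 j.2 fun h => hij (by rw [Fin.ext h]))
  · intro x
    by_contra hcon
    push Not at hcon
    obtain ⟨C, D, E, hC, hD, hE, hCD, hCE, hDE⟩ :=
      (two_lt_ncard_iff ((finite_range _).subset (sep_subset _ _))).1 hcon
    obtain ⟨⟨i, rfl⟩, hi⟩ := hC
    obtain ⟨⟨j, rfl⟩, hj⟩ := hD
    obtain ⟨⟨k, rfl⟩, hk⟩ := hE
    obtain ⟨p, rfl⟩ := mk_surjective x
    rw [mk_mem_straight] at hi hj hk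
    have hij : (i : ℕ) ≠ j := fun h => hCD (by rw [Fin.ext h])
    have hik : (i : ℕ) ≠ k := fun h => hCE (by rw [Fin.ext h])
    have hjk : (j : ℕ) ≠ k := fun h => hDE (by rw [Fin.ext h])
    rcases lt_or_gt_of_ne hij with h1 | h1 <;> rcases lt_or_gt_of_ne hik with h2 | h2 <;>
      rcases lt_or_gt_of_ne hjk with h4 | h4
    · exact h3 i j k k.2 h1 h4 p hi hj hk
    · exact h3 i k j j.2 h2 h4 p hi hk hj
    · omega
    · exact h3 k i j j.2 h2 h1 p hk hi hj
    · exact h3 j i k k.2 h1 h2 p hj hi hk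
    · omega
    · exact h3 j k i i.2 h4 h2 p hj hk hi
    · exact h3 k j i i.2 h4 h1 p hk hj hi
  · intro m
    obtain ⟨i, hi, him⟩ := hc m
    refine ⟨⟨i, hi⟩, ?_⟩
    have h1 := (hl i hi).1
    have h2 : ‖(l i : E3) - m‖ ≤ ‖(l i : E3) - c i‖ + ‖(c i : E3) - m‖ :=
      norm_sub_le_norm_sub_add_norm_sub _ _ _
    change ‖(l i : E3) - m‖ < δ
    linarith

end Pool.Agent.Helper5.WP
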