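import Pool.Agent.Helper5.WP.Defs

/-! # Project WP, module B: the gauge of a profile -/

set_option autoImplicit false

namespace Pool.Agent.Helper5.WP

open Pool.Agent.Helper7.TP Metric Set Topology
open Filter (Tendsto atTop atBot)

/-- The exponential of the profile, extended by zero outside of the open interval. -/
private noncomputable def gG (F : ℝ → ℝ) (t : ℝ) : ℝ :=
  open Classical in if |t| < Real.pi / 2 then Real.exp (F t) else 0

private lemma gG_of_lt (F : ℝ → ℝ) {t : ℝ} (ht : |t| < Real.pi / 2) :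
    gG F t = Real.exp (F t) := by
  unfold gG
  rw [if_pos ht]

private lemma gG_of_ge (F : ℝ → ℝ) {t : ℝ} (ht : ¬ |t| < Real.pi / 2) : gG F t = 0 := by
  unfold gG
  rw [if_neg ht]

private lemma gG_continuous {F : ℝ → ℝ} (h : IsProf F) : Continuous (gG F) := by
  have hpi := Real.pi_pos
  rw [continuous_iff_continuousAt]
  intro t
  rcases lt_trichotomy |t| (Real.pi / 2) with ht | ht | ht
  · have hm : t ∈ Ioo (-(Real.pi / 2)) (Real.pi / 2) := abs_lt.mp ht
    have hc : ContinuousAt (fun s => Real.exp (F s)) t :=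
      (h.cont.continuousAt (isOpen_Ioo.mem_nhds hm)).rexp
    refine hc.congr ?_
    filter_upwards [isOpen_Ioo.mem_nhds hm] with s hs
    rw [gG_of_lt F (abs_lt.mpr hs)]
  · have h0 : gG F t = 0 := gG_of_ge F (by rw [ht]; exact lt_irrefl _)
    unfold ContinuousAt
    rw [h0]
    rcases abs_eq (by linarith : (0:ℝ) ≤ Real.pi / 2) |>.mp ht with rfl | rfl
    · rw [← nhdsLT_sup_nhdsGE]
      refine Tendsto.sup ?_ ?_
      · have h1 : Tendsto (fun s => Real.exp (F s)) (𝓝[<] (Real.pi / 2)) (𝓝 0) :=
          Real.tendsto_exp_atBot.comp h.right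
        refine h1.congr' ?_
        have h2 : Ioo (-(Real.pi / 2)) (Real.pi / 2) ∈ 𝓝[<] (Real.pi / 2) :=
          Ioo_mem_nhdsLT (by linarith)
        filter_upwards [h2] with s hs
        rw [gG_of_lt F (abs_lt.mpr hs)]
      · refine tendsto_const_nhds.congr' ?_
        filter_upwards [self_mem_nhdsWithin] with s hs
        rw [gG_of_ge F]
        intro h3
        have := (abs_lt.mp h3).2
        exact absurd (mem_Ici.mp hs) (not_le.mpr this)
    · rw [← nhdsLE_sup_nhdsGT]
      refine Tendsto.sup ?_ ?_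
      · refine tendsto_const_nhds.congr' ?_
        filter_upwards [self_mem_nhdsWithin] with s hs
        rw [gG_of_ge F]
        intro h3
        have := (abs_lt.mp h3).1
        exact absurd (mem_Iic.mp hs) (not_le.mpr this)
      · have h1 : Tendsto (fun s => Real.exp (F s)) (𝓝[>] (-(Real.pi / 2))) (𝓝 0) :=
          Real.tendsto_exp_atBot.comp h.left
        refine h1.congr' ?_
        have h2 : Ioo (-(Real.pi / 2)) (Real.pi / 2) ∈ 𝓝[>] (-(Real.pi / 2)) :=
          Ioo_mem_nhdsGT (by linarith)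
        filter_upwards [h2] with s hs
        rw [gG_of_lt F (abs_lt.mpr hs)]
  · have hc : ContinuousAt (fun _ : ℝ => (0:ℝ)) t := continuousAt_const
    refine hc.congr ?_
    have h2 : {s : ℝ | Real.pi / 2 < |s|} ∈ 𝓝 t :=
      (isOpen_lt continuous_const continuous_abs).mem_nhds ht
    filter_upwards [h2] with s hs
    exact (gG_of_ge F (not_lt.mpr (le_of_lt hs))).symm

private lemma gG_bound {F : ℝ → ℝ} (h : IsProf F) : ∃ B : ℝ, ∀ t, |gG F t| ≤ B := by
  obtain ⟨C, hC⟩ := (isCompact_Icc (a := -(Real.pi / 2)) (b := Real.pi / 2)).exists_bound_of_continuousOn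
    (gG_continuous h).continuousOn
  refine ⟨max C 0, fun t => ?_⟩
  by_cases ht : |t| < Real.pi / 2
  · refine le_trans ?_ (le_max_left _ _)
    have h1 := abs_lt.mp ht
    exact hC t ⟨h1.1.le, h1.2.le⟩
  · rw [gG_of_ge F ht, abs_zero]
    exact le_max_right _ _

private lemma gK_continuous {F : ℝ → ℝ} (h : IsProf F) :
    Continuous fun w : ℂ => ‖w‖ * gG F (Complex.arg w) := by
  rw [continuous_iff_continuousAt]
  intro w
  by_cases hw : w ∈ Complex.slitPlane
  · exact continuous_norm.continuousAt.mul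
      ((gG_continuous h).continuousAt.comp (Complex.continuousAt_arg hw))
  · by_cases h0 : w = 0
    · subst h0
      obtain ⟨B, hB⟩ := gG_bound h
      unfold ContinuousAt
      have h1 : (fun w : ℂ => ‖w‖ * gG F (Complex.arg w)) 0 = 0 := by simp
      rw [h1]
      refine squeeze_zero_norm (a := fun w : ℂ => ‖w‖ * B) (fun z => ?_) ?_
      · rw [norm_mul, norm_norm, Real.norm_eq_abs]
        exact mul_le_mul_of_nonneg_left (hB _) (norm_nonneg _)
      · have h2 : Tendsto (fun w : ℂ => ‖w‖ * B) (𝓝 0) (𝓝 (‖(0:ℂ)‖ * B)) :=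
          (continuous_norm.mul continuous_const).tendsto 0
        simpa using h2
    · have hre : w.re < 0 := by
        rw [Complex.mem_slitPlane_iff] at hw
        push Not at hw
        rcases lt_or_eq_of_le hw.1 with h1 | h1
        · exact h1
        · exact absurd (Complex.ext h1 hw.2) h0
      have hc : ContinuousAt (fun _ : ℂ => (0:ℝ)) w := continuousAt_const
      refine hc.congr ?_
      have h2 : {z : ℂ | z.re < 0} ∈ 𝓝 w :=
        (isOpen_lt Complex.continuous_re continuous_const).mem_nhds hre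
      filter_upwards [h2] with z hz
      have h3 : ¬ |Complex.arg z| < Real.pi / 2 := by
        rw [Complex.abs_arg_lt_pi_div_two_iff]
        rintro (h4 | h4)
        · exact absurd hz (not_lt.mpr h4.le)
        · rw [h4] at hz
          exact absurd hz (lt_irrefl _)
      rw [gG_of_ge F h3, mul_zero]

private lemma arctan_of_re_pos {w : ℂ} (hw : 0 < w.re) :
    |Complex.arg w| < Real.pi / 2 ∧ Real.arctan (w.im / w.re) = Complex.arg w := by
  have h1 : |Complex.arg w| < Real.pi / 2 := Complex.abs_arg_lt_pi_div_two_iff.mpr (Or.inl hw)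
  refine ⟨h1, ?_⟩
  rw [← Complex.tan_arg, Real.arctan_tan (abs_lt.mp h1).1 (abs_lt.mp h1).2]

private lemma gG_of_re_neg (F : ℝ → ℝ) {w : ℂ} (hw : w.re < 0) : gG F (Complex.arg w) = 0 := by
  refine gG_of_ge F ?_
  rw [Complex.abs_arg_lt_pi_div_two_iff]
  rintro (h4 | h4)
  · linarith
  · rw [h4] at hw
    exact absurd hw (lt_irrefl _)

private lemma gam_eq (F : ℝ → ℝ) (w : ℂ) :
    gam F w = ‖w‖ * gG F (Complex.arg w) - ‖-w‖ * gG F (Complex.arg (-w)) := by
  unfold gam
  rcases lt_trichotomy w.re 0 with hw | hw | hw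
  · rw [if_neg hw.ne]
    have hn : 0 < (-w).re := by simpa using hw
    obtain ⟨h1, h2⟩ := arctan_of_re_pos hn
    rw [gG_of_re_neg F hw, gG_of_lt F h1, ← h2, abs_of_neg hw, norm_neg, div_neg, div_self hw.ne]
    simp only [Complex.neg_im, Complex.neg_re, neg_div_neg_eq]
    ring
  · rw [if_pos hw]
    by_cases h0 : w = 0
    · subst h0
      simp
    · have h1 : ¬ |Complex.arg w| < Real.pi / 2 := by
        rw [Complex.abs_arg_lt_pi_div_two_iff]
        rintro (h4 | h4)
        · linarith
        · exact h0 h4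
      have h2 : ¬ |Complex.arg (-w)| < Real.pi / 2 := by
        rw [Complex.abs_arg_lt_pi_div_two_iff]
        rintro (h4 | h4)
        · rw [Complex.neg_re] at h4
          linarith
        · exact h0 (neg_eq_zero.mp h4)
      rw [gG_of_ge F h1, gG_of_ge F h2]
      ring
  · rw [if_neg hw.ne']
    have hn : (-w).re < 0 := by simpa using hw
    obtain ⟨h1, h2⟩ := arctan_of_re_pos hw
    rw [gG_of_re_neg F hn, gG_of_lt F h1, h2, abs_of_pos hw, div_self hw.ne']
    ring

theorem ang_gam (F : ℝ → ℝ) {t : ℝ} (ht : |t| < Real.pi / 2) :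
    ang (gam F) t = Real.exp (F t) := by
  rw [abs_lt] at ht
  have hc : 0 < Real.cos t := Real.cos_pos_of_mem_Ioo ht
  have hre : (Complex.exp ((t : ℂ) * Complex.I)).re = Real.cos t := Complex.exp_ofReal_mul_I_re t
  have him : (Complex.exp ((t : ℂ) * Complex.I)).im = Real.sin t := Complex.exp_ofReal_mul_I_im t
  unfold ang gam
  rw [hre, him, if_neg hc.ne', Complex.norm_exp_ofReal_mul_I, abs_of_pos hc, div_self hc.ne',
    ← Real.tan_eq_sin_div_cos, Real.arctan_tan ht.1 ht.2]
  ring

theorem isGauge_gam {F : ℝ → ℝ} (h : IsProf F) : IsGauge (gam F) := by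
  refine ⟨?_, ?_, ?_, ?_⟩
  · have h1 : gam F = fun w => ‖w‖ * gG F (Complex.arg w) - ‖-w‖ * gG F (Complex.arg (-w)) :=
      funext (gam_eq F)
    rw [h1]
    exact (gK_continuous h).sub ((gK_continuous h).comp continuous_neg)
  · intro r w
    unfold gam
    have hre : ((r : ℂ) * w).re = r * w.re := by simp
    have him : ((r : ℂ) * w).im = r * w.im := by simp
    rw [hre, him]
    by_cases hr : r = 0
    · simp [hr]
    by_cases hw : w.re = 0
    · simp [hw]
    rw [if_neg (mul_ne_zero hr hw), if_neg hw, mul_div_mul_left _ _ hr, norm_mul, abs_mul,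
      Complex.norm_real, Real.norm_eq_abs]
    have h1 : |r| ≠ 0 := abs_ne_zero.mpr hr
    have h2 : |w.re| ≠ 0 := abs_ne_zero.mpr hw
    field_simp
  · intro w
    unfold gam
    by_cases hw : w.re = 0
    · rw [if_pos hw, hw]
    · rw [if_neg hw]
      have h1 : 0 < ‖w‖ := by
        rw [norm_pos_iff]
        intro h2
        exact hw (by rw [h2]; rfl)
      have h2 : 0 < |w.re| := abs_pos.mpr hw
      have h3 := Real.exp_pos (F (Real.arctan (w.im / w.re)))
      rw [mul_pos_iff_of_pos_right h3, mul_pos_iff_of_pos_right h1, div_pos_iff_of_pos_right h2]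
  · intro a b c d hab hcd h1 h2
    have hx : ∀ t, a - d ≤ t → t ≤ b - c → |t| < Real.pi / 2 := fun t h3 h4 =>
      abs_lt.mpr ⟨by linarith, by linarith⟩
    rw [ang_gam F (hx _ le_rfl (by linarith)), ang_gam F (hx _ (by linarith) le_rfl),
      ang_gam F (hx _ (by linarith) (by linarith)), ang_gam F (hx _ (by linarith) (by linarith)),
      ← Real.exp_add, ← Real.exp_add]
    exact Real.exp_lt_exp.mpr (h.mix a b c d hab hcd h1 h2)

end Pool.Agent.Helper5.WP
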