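import Pool.Agent.Helper5.WP.Defs

/-! # Project WP, module A: the plane of an incidence function -/

set_option autoImplicit false

namespace Pool.Agent.Helper5.WP

open Pool.Agent.Helper7.TP Metric Set Topology

private theorem inc_sq_surj : Function.Surjective fun z : Circle => z ^ 2 := by
  intro w
  refine ⟨Circle.exp (Complex.arg (w : ℂ) / 2), ?_⟩
  change Circle.exp (Complex.arg (w : ℂ) / 2) ^ 2 = w
  rw [pow_two, ← Circle.exp_add, add_halves, Circle.exp_arg]

private theorem inc_sq {z w : Circle} (h : z ^ 2 = w ^ 2) : w = z ∨ w = -z := by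
  have h1 : (w : ℂ) ^ 2 = (z : ℂ) ^ 2 := by
    rw [← Circle.coe_pow, ← Circle.coe_pow, h]
  rcases sq_eq_sq_iff_eq_or_eq_neg.1 h1 with h2 | h2
  · left
    exact Circle.ext h2
  · right
    apply Circle.ext
    rw [Circle.coe_neg]
    exact h2

private theorem inc_mem {H : S2 → S2 → ℝ} (hI : IsInc H) {p l : S2} :
    mk p ∈ incLine H l ↔ H p l = 0 := by
  constructor
  · rintro ⟨q, hq, h⟩
    rcases mk_eq_mk.1 hq with h' | h'
    · rw [h']
      exact h
    · rw [h', hI.neg_left, h, neg_zero]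
  · intro h
    exact ⟨p, rfl, h⟩

private theorem inc_neg {H : S2 → S2 → ℝ} (hI : IsInc H) (l : S2) :
    incLine H (-l) = incLine H l := by
  ext x
  obtain ⟨p, rfl⟩ := mk_surjective x
  rw [inc_mem hI, inc_mem hI, hI.neg_right, neg_eq_zero]

private theorem inc_eq_of_mk_eq {H : S2 → S2 → ℝ} (hI : IsInc H) {l m : S2}
    (h : mk l = mk m) : incLine H l = incLine H m := by
  rcases mk_eq_mk.1 h with h | h
  · rw [h]
  · rw [h, inc_neg hI]

private theorem inc_pseudo {H : S2 → S2 → ℝ} (hI : IsInc H) (l : S2) :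
    IsPseudoline (incLine H l) := by
  obtain ⟨c, hc, hinj, hrange, hneg⟩ := hI.curve l
  constructor
  · have hsq : Continuous fun z : Circle => z ^ 2 := continuous_pow 2
    have hq : IsQuotientMap fun z : Circle => z ^ 2 :=
      IsClosedMap.isQuotientMap hsq.isClosedMap hsq inc_sq_surj
    have hf : Continuous fun z : Circle => mk (c z) := continuous_mk.comp hc
    have hff : ∀ z w : Circle, z ^ 2 = w ^ 2 → mk (c w) = mk (c z) := by
      intro z w h
      rcases inc_sq h with h | h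
      · rw [h]
      · rw [h, hneg, mk_neg]
    let g : Circle → P2 := fun w => mk (c (Function.surjInv inc_sq_surj w))
    have hg : ∀ z : Circle, g (z ^ 2) = mk (c z) := by
      intro z
      apply hff
      exact (Function.surjInv_eq inc_sq_surj (z ^ 2)).symm
    have hgc : Continuous g := by
      rw [hq.continuous_iff]
      exact hf.congr fun z => (hg z).symm
    refine ⟨g, hgc, ?_, ?_⟩
    · intro w₁ w₂ h
      obtain ⟨z₁, rfl⟩ := inc_sq_surj w₁
      obtain ⟨z₂, rfl⟩ := inc_sq_surj w₂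
      have h' : g (z₁ ^ 2) = g (z₂ ^ 2) := h
      rw [hg, hg] at h'
      change z₁ ^ 2 = z₂ ^ 2
      rcases mk_eq_mk.1 h' with h1 | h1
      · rw [hinj h1]
      · rw [← hneg] at h1
        rw [hinj h1]
        apply Circle.ext
        rw [Circle.coe_pow, Circle.coe_pow, Circle.coe_neg, neg_sq]
    · ext x
      constructor
      · rintro ⟨w, rfl⟩
        obtain ⟨z, rfl⟩ := inc_sq_surj w
        change g (z ^ 2) ∈ incLine H l
        rw [hg]
        have h1 : c z ∈ {p | H p l = 0} := by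
          rw [← hrange]
          exact mem_range_self z
        exact ⟨c z, rfl, h1⟩
      · rintro ⟨p, rfl, hp⟩
        have h1 : p ∈ range c := by
          rw [hrange]
          exact hp
        obtain ⟨z, rfl⟩ := h1
        exact ⟨z ^ 2, hg z⟩
  · have h1 : (incLine H l)ᶜ = mk '' {p | 0 < H p l} := by
      ext x
      constructor
      · intro hx
        obtain ⟨p, rfl⟩ := mk_surjective x
        rcases lt_trichotomy (H p l) 0 with h | h | h
        · refine ⟨-p, ?_, mk_neg p⟩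
          change 0 < H (-p) l
          rw [hI.neg_left]
          linarith
        · exact absurd ⟨p, rfl, h⟩ hx
        · exact ⟨p, h, rfl⟩
      · rintro ⟨p, hp, rfl⟩ ⟨q, hq, hq0⟩
        change 0 < H p l at hp
        rcases mk_eq_mk.1 hq with h | h
        · rw [h, hq0] at hp
          exact absurd hp (lt_irrefl _)
        · rw [h, hI.neg_left, hq0, neg_zero] at hp
          exact absurd hp (lt_irrefl _)
    rw [h1]
    exact (hI.conn l).image _ continuous_mk.continuousOn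

private theorem inc_join {H : S2 → S2 → ℝ} (hI : IsInc H) (p q : S2) :
    ∃ l, H p l = 0 ∧ H q l = 0 := by
  obtain ⟨c, hc, hz, hneg⟩ := hI.dual p
  have hcont : Continuous fun z : Circle => H q (c z) :=
    hI.cont.comp (continuous_const.prodMk hc)
  have hodd : ∀ z, H q (c (-z)) = -H q (c z) := by
    intro z
    rw [hneg, hI.neg_right]
  have h0 : (0 : ℝ) ∈ range fun z : Circle => H q (c z) := by
    rcases le_total (H q (c 1)) 0 with h | h
    · exact mem_range_of_exists_le_of_exists_ge hcont ⟨1, h⟩ ⟨-1, by rw [hodd]; linarith⟩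
    · exact mem_range_of_exists_le_of_exists_ge hcont ⟨-1, by rw [hodd]; linarith⟩ ⟨1, h⟩
  obtain ⟨z, hz0⟩ := h0
  exact ⟨c z, hz z, hz0⟩

private theorem inc_join_cont {H : S2 → S2 → ℝ} (hI : IsInc H) {p₀ q₀ l₀ : S2}
    (hpq : mk p₀ ≠ mk q₀) (h1 : H p₀ l₀ = 0) (h2 : H q₀ l₀ = 0) {W : Set S2}
    (hW : W ∈ 𝓝 l₀) :
    ∀ᶠ z : S2 × S2 in 𝓝 (p₀, q₀), ∀ l, H z.1 l = 0 → H z.2 l = 0 → l ∈ W ∨ -l ∈ W := by
  obtain ⟨V, hVW, hV, hlV⟩ := _root_.mem_nhds_iff.1 hW
  have hcH := hI.cont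
  have hneg : Continuous fun l : S2 => -l := continuous_neg
  have hc : IsClosed {z : (S2 × S2) × S2 |
      (H z.1.1 z.2 = 0 ∧ H z.1.2 z.2 = 0) ∧ (z.2 ∉ V ∧ -z.2 ∉ V)} := by
    refine IsClosed.inter (IsClosed.inter ?_ ?_) (IsClosed.inter ?_ ?_)
    · exact isClosed_eq (hcH.comp ((continuous_fst.comp continuous_fst).prodMk continuous_snd))
        continuous_const
    · exact isClosed_eq (hcH.comp ((continuous_snd.comp continuous_fst).prodMk continuous_snd))
        continuous_const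
    · exact hV.isClosed_compl.preimage continuous_snd
    · exact hV.isClosed_compl.preimage (hneg.comp continuous_snd)
  have hp := isClosedMap_fst_of_compactSpace _ hc
  have hn : (p₀, q₀) ∈ (Prod.fst '' {z : (S2 × S2) × S2 |
      (H z.1.1 z.2 = 0 ∧ H z.1.2 z.2 = 0) ∧ (z.2 ∉ V ∧ -z.2 ∉ V)})ᶜ := by
    rintro ⟨⟨⟨p, q⟩, l⟩, ⟨⟨a, b⟩, c, d⟩, he⟩
    obtain ⟨rfl, rfl⟩ := Prod.mk.inj he
    rcases hI.uniq _ _ _ _ h1 h2 a b with h | h
    · exact hpq h
    · rcases mk_eq_mk.1 h with h | h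
      · exact c (h ▸ hlV)
      · exact d (by rw [h, neg_neg]; exact hlV)
  filter_upwards [hp.isOpen_compl.mem_nhds hn] with z hz l a b
  by_contra hx
  rw [not_or] at hx
  exact hz ⟨(z, l), ⟨⟨a, b⟩, fun h => hx.1 (hVW h), fun h => hx.2 (hVW h)⟩, rfl⟩

private theorem inc_upper {H : S2 → S2 → ℝ} (hI : IsInc H) (l₀ : S2) {U : Set P2}
    (hU : IsOpen U) (h : incLine H l₀ ⊆ U) : ∀ᶠ l in 𝓝 l₀, incLine H l ⊆ U := by
  have hc : IsClosed {z : S2 × S2 | H z.2 z.1 = 0 ∧ mk z.2 ∉ U} := by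
    apply IsClosed.inter
    · exact isClosed_eq (hI.cont.comp continuous_swap) continuous_const
    · exact (hU.isClosed_compl).preimage (continuous_mk.comp continuous_snd)
  have hp : IsClosed (Prod.fst '' {z : S2 × S2 | H z.2 z.1 = 0 ∧ mk z.2 ∉ U}) :=
    isClosedMap_fst_of_compactSpace _ hc
  have hn : l₀ ∈ (Prod.fst '' {z : S2 × S2 | H z.2 z.1 = 0 ∧ mk z.2 ∉ U})ᶜ := by
    rintro ⟨⟨l, p⟩, ⟨h1, h2⟩, rfl⟩
    exact h2 (h ⟨p, rfl, h1⟩)
  filter_upwards [hp.isOpen_compl.mem_nhds hn] with l hl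
  rintro x ⟨p, rfl, hp⟩
  by_contra hx
  exact hl ⟨(l, p), ⟨hp, hx⟩, rfl⟩

private theorem inc_lower {H : S2 → S2 → ℝ} (hI : IsInc H) (l₀ : S2) {U : Set P2}
    (hU : IsOpen U) (h : (incLine H l₀ ∩ U).Nonempty) :
    ∀ᶠ l in 𝓝 l₀, (incLine H l ∩ U).Nonempty := by
  obtain ⟨x, ⟨p₀, rfl, hp₀⟩, hx⟩ := h
  have hW : mk ⁻¹' U ∈ 𝓝 p₀ := (hU.preimage continuous_mk).mem_nhds hx
  obtain ⟨V, hVU, hVc, ⟨a, haV, ha⟩, b, hbV, hb⟩ := hI.change p₀ l₀ hp₀ _ hW
  have ea : ∀ᶠ l in 𝓝 l₀, 0 < H a l :=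
    (hI.cont.comp (Continuous.prodMk_right a)).continuousAt.eventually_const_lt ha
  have eb : ∀ᶠ l in 𝓝 l₀, H b l < 0 :=
    (hI.cont.comp (Continuous.prodMk_right b)).continuousAt.eventually_lt_const hb
  filter_upwards [ea, eb] with l la lb
  have hcont : ContinuousOn (fun p => H p l) V :=
    (hI.cont.comp (continuous_id.prodMk continuous_const)).continuousOn
  obtain ⟨p, hp, hp0⟩ := hVc.intermediate_value hbV haV hcont
    (show (0 : ℝ) ∈ Icc _ _ from ⟨lb.le, la.le⟩)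
  exact ⟨mk p, ⟨p, rfl, hp0⟩, hVU hp⟩

theorem isTPP_incPlane {H : S2 → S2 → ℝ} (h : IsInc H) : IsTPP (incPlane H) where
  pseudoline := by
    rintro _ ⟨l, rfl⟩
    exact inc_pseudo h l
  join := by
    intro x y hxy
    obtain ⟨p, rfl⟩ := mk_surjective x
    obtain ⟨q, rfl⟩ := mk_surjective y
    obtain ⟨l, h1, h2⟩ := inc_join h p q
    refine ⟨incLine H l, ⟨⟨l, rfl⟩, (inc_mem h).2 h1, (inc_mem h).2 h2⟩, ?_⟩
    rintro _ ⟨⟨m, rfl⟩, h3, h4⟩
    rw [inc_mem h] at h3 h4
    rcases h.uniq _ _ _ _ h1 h2 h3 h4 with h' | h'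
    · exact absurd h' hxy
    · exact (inc_eq_of_mk_eq h h').symm
  continuous := by
    intro x y hxy C hC hx hy U hU
    obtain ⟨p, rfl⟩ := mk_surjective x
    obtain ⟨q, rfl⟩ := mk_surjective y
    obtain ⟨l, rfl⟩ := hC
    rw [inc_mem h] at hx hy
    have key : ∀ Q : Set P2 → Prop, (∀ᶠ m in 𝓝 l, Q (incLine H m)) →
        ∀ᶠ z : P2 × P2 in 𝓝 (mk p, mk q), ∀ D ∈ incPlane H,
          z.1 ∈ D → z.2 ∈ D → z.1 ≠ z.2 → Q D := by
      intro Q hQ
      have h1 := inc_join_cont h hxy hx hy hQ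
      have h2 : 𝓝 (mk p, mk q) = Filter.map (Prod.map mk mk) (𝓝 (p, q)) := by
        rw [nhds_prod_eq, nhds_prod_eq, nhds_mk, nhds_mk, Filter.prod_map_map_eq]
        rfl
      rw [h2, Filter.eventually_map]
      filter_upwards [h1] with z hz
      rintro _ ⟨m, rfl⟩ h3 h4 _
      have h5 : H z.1 m = 0 := (inc_mem h).1 h3
      have h6 : H z.2 m = 0 := (inc_mem h).1 h4
      rcases hz m h5 h6 with h' | h'
      · exact h'
      · have h7 : Q (incLine H (-m)) := h'
        rwa [inc_neg h] at h7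
    exact ⟨fun h' => key _ (inc_upper h l hU h'), fun h' => key _ (inc_lower h l hU h')⟩

end Pool.Agent.Helper5.WP
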