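import Pool.Agent.Helper5.WP.NoNormC

/-! # Project WP, module I: there are no normalised asymptotic coordinates -/

set_option autoImplicit false

namespace Pool.Agent.Helper5.WP

open Pool.Agent.Helper7.TP Metric Set Topology
open Filter (Tendsto atTop atBot)

variable {Γ : ℂ → ℝ} {U : Ultrafilter ℕ} {St : (ℕ → P2) → (Fin 3 → ℝ) → Prop} {κ : ℝ}

/-- The points of the rays with the angles `η n` tend to the classical line with the number `a`
through the centre. -/
def IsRay (St : (ℕ → P2) → (Fin 3 → ℝ) → Prop) (κ a : ℝ) (η : ℕ → ℝ) : Prop :=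
  (∀ (s : ℕ → ℝ) v, St (fun n => pt (s n) (η n)) v → v 0 + a * κ * v 1 - a * v 2 = 0) ∧
    ∀ v, St (fun n => idl (η n - Real.pi / 2)) v → v 0 + a * κ * v 1 - a * v 2 = 0

theorem pt_add_int_pi (θ : ℝ) (k : ℤ) : ∀ r, ∃ s, pt r (θ + k * Real.pi) = pt s θ := by
  induction k using Int.induction_on with
  | zero =>
    intro r
    refine ⟨r, ?_⟩
    simp
  | succ k ih =>
    intro r
    obtain ⟨s, hs⟩ := ih (-r)
    refine ⟨s, ?_⟩
    rw [← hs, ← pt_add_pi]
    congr 1
    push_cast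
    ring
  | pred k ih =>
    intro r
    obtain ⟨s, hs⟩ := ih (-r)
    refine ⟨s, ?_⟩
    rw [← hs]
    have h1 := pt_add_pi (-r) (θ + ((-(k : ℤ) - 1 : ℤ) : ℝ) * Real.pi)
    rw [neg_neg] at h1
    rw [← h1]
    congr 1
    push_cast
    ring

theorem idl_add_int_pi (φ : ℝ) (k : ℤ) : idl (φ + k * Real.pi) = idl φ := by
  induction k using Int.induction_on with
  | zero => simp
  | succ k ih =>
    rw [← ih, ← idl_add_pi (φ + ((k : ℤ) : ℝ) * Real.pi)]
    congr 1
    push_cast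
    ring
  | pred k ih =>
    rw [← ih, ← idl_add_pi (φ + ((-(k : ℤ) - 1 : ℤ) : ℝ) * Real.pi)]
    congr 1
    push_cast
    ring

theorem IsRay.shift {a : ℝ} {η : ℕ → ℝ} (hη : IsRay St κ a η) (k : ℕ → ℤ) :
    IsRay St κ a fun n => η n + k n * Real.pi := by
  constructor
  · intro s v hv
    choose t ht using fun n => pt_add_int_pi (η n) (k n) (s n)
    apply hη.1 t v
    have : (fun n => pt (t n) (η n)) = fun n => pt (s n) (η n + k n * Real.pi) :=
      funext fun n => (ht n).symm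
    rw [this]
    exact hv
  · intro v hv
    apply hη.2 v
    have : (fun n => idl (η n - Real.pi / 2)) =
        fun n => idl (η n + k n * Real.pi - Real.pi / 2) := by
      funext n
      rw [← idl_add_int_pi (η n - Real.pi / 2) (k n)]
      congr 1
      ring
    rw [this]
    exact hv

/-- Polar coordinates of a point of the axis. -/
theorem exists_polar (hn : Normal Γ U St κ) (a : ℝ) : ∃ R Θ : ℕ → ℝ,
    (∀ᶠ n in (U : Filter ℕ), 0 < R n) ∧ St (fun n => pt (R n) (Θ n)) ![a, 0, 1] := by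
  have hne : (![a, 0, 1] : Fin 3 → ℝ) ≠ 0 := by
    intro h0
    have := congrFun h0 2
    simp at this
  obtain ⟨P, hP⟩ := hn.chart.ex _ hne
  have h1 : ∀ᶠ n in (U : Filter ℕ), P n ≠ org := by
    rw [Ultrafilter.eventually_not]
    intro hc
    have h2 := hn.chart.congr P (fun _ => org) _ hP hc
    obtain ⟨q, hq, he⟩ := (hn.chart.uniq _ _ _ h2).1 hn.org
    have := congrFun he 1
    simp only [Matrix.cons_val_one, Matrix.cons_val_zero, Pi.smul_apply, smul_eq_mul,
      mul_zero] at this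
    exact one_ne_zero this
  have h2 : ∀ᶠ n in (U : Filter ℕ), ¬ ∃ φ, P n = idl φ := by
    rw [Ultrafilter.eventually_not]
    intro hc
    have h3 : ∀ n, ∃ φ, (∃ φ', P n = idl φ') → P n = idl φ := by
      intro n
      by_cases h4 : ∃ φ', P n = idl φ'
      · obtain ⟨φ, hφ⟩ := h4
        exact ⟨φ, fun _ => hφ⟩
      · exact ⟨0, fun h5 => absurd h5 h4⟩
    choose φ hφ using h3
    have h5 := hn.idl_zero φ _ (hn.chart.congr P (fun n => idl (φ n)) _ hP
      (hc.mono fun n h6 => hφ n h6))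
    simp at h5
  have h3 : ∀ n, ∃ z : ℝ × ℝ, (P n ≠ org ∧ ¬ ∃ φ, P n = idl φ) → 0 < z.1 ∧ P n = pt z.1 z.2 := by
    intro n
    by_cases h4 : P n ≠ org ∧ ¬ ∃ φ, P n = idl φ
    · rcases cases_pt (P n) with h5 | ⟨r, θ, h5, h6⟩ | h5
      · exact absurd h5 h4.1
      · exact ⟨(r, θ), fun _ => ⟨h5, h6⟩⟩
      · exact absurd h5 h4.2
    · exact ⟨(0, 0), fun h5 => absurd h5 h4⟩
  choose z hz using h3
  refine ⟨fun n => (z n).1, fun n => (z n).2, ?_, ?_⟩
  · filter_upwards [h1, h2] with n g1 g2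
    exact (hz n ⟨g1, g2⟩).1
  · apply hn.chart.congr P _ _ hP
    filter_upwards [h1, h2] with n g1 g2
    exact (hz n ⟨g1, g2⟩).2

theorem isRay_of (h : IsGauge Γ) (hn : Normal Γ U St κ) {a : ℝ} {R Θ : ℕ → ℝ}
    (hA : St (fun n => pt (R n) (Θ n)) ![a, 0, 1]) : IsRay St κ a Θ := by
  have key : ∀ (P : ℕ → P2) v, (∀ n, ∃ C ∈ radPlane Γ, org ∈ C ∧ pt (R n) (Θ n) ∈ C ∧ P n ∈ C) →
      St P v → v 0 + a * κ * v 1 - a * v 2 = 0 := by
    intro P v hP hv
    have hdet := hn.chart.col (fun _ => org) (fun n => pt (R n) (Θ n)) P _ _ _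
      (Filter.Eventually.of_forall hP) hn.org hA hv
    rw [Matrix.det_fin_three] at hdet
    simp only [Matrix.cons_val_zero, Matrix.cons_val_one, Matrix.cons_val] at hdet
    linear_combination hdet
  constructor
  · intro s v hv
    refine key _ v (fun n => ?_) hv
    obtain ⟨C, hC, h1, h2, -⟩ := col_org h (Θ n)
    exact ⟨C, hC, h1, h2 _, h2 _⟩
  · intro v hv
    refine key _ v (fun n => ?_) hv
    obtain ⟨C, hC, h1, h2, h3⟩ := col_org h (Θ n)
    exact ⟨C, hC, h1, h2 _, h3⟩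

theorem ray_cos_ne (hn : Normal Γ U St κ) {a c : ℝ} {η ψ : ℕ → ℝ} (hη : IsRay St κ a η)
    (hψ : St (fun n => idl (ψ n)) ![1, c, 0]) (hac : 1 + a * κ * c ≠ 0) :
    ∀ᶠ n in (U : Filter ℕ), Real.cos (η n - ψ n) ≠ 0 := by
  rw [Ultrafilter.eventually_not]
  intro hcon
  have h1 := hn.chart.congr _ (fun n => idl (η n - Real.pi / 2)) _ hψ
    (hcon.mono fun n hc => idl_of_cos hc)
  have h2 := hη.2 _ h1
  simp only [Matrix.cons_val_zero, Matrix.cons_val_one, Matrix.cons_val, mul_zero,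
    sub_zero] at h2
  exact hac h2

theorem exists_int_pi {x : ℝ} (hx : Real.cos x ≠ 0) : ∃ k : ℤ, |x + k * Real.pi| < Real.pi / 2 := by
  have hpi := Real.pi_pos
  refine ⟨-round (x / Real.pi), ?_⟩
  have h1 := abs_sub_round (x / Real.pi)
  have h2 : x + ((-round (x / Real.pi) : ℤ) : ℝ) * Real.pi =
      (x / Real.pi - round (x / Real.pi)) * Real.pi := by
    push_cast
    field_simp
    ring
  have h3 : |x + ((-round (x / Real.pi) : ℤ) : ℝ) * Real.pi| ≤ Real.pi / 2 := by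
    rw [h2, abs_mul, abs_of_pos hpi]
    nlinarith
  refine lt_of_le_of_ne h3 fun h4 => hx ?_
  have h5 : Real.cos (x + ((-round (x / Real.pi) : ℤ) : ℝ) * Real.pi) = 0 := by
    rw [← Real.cos_abs, h4, Real.cos_pi_div_two]
  rw [Real.cos_add, Real.sin_int_mul_pi, mul_zero, sub_zero] at h5
  rcases mul_eq_zero.1 h5 with h6 | h6
  · exact h6
  · exfalso
    have h7 := Real.sin_sq_add_cos_sq (((-round (x / Real.pi) : ℤ) : ℝ) * Real.pi)
    rw [h6, Real.sin_int_mul_pi] at h7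
    norm_num at h7

theorem exists_lift {η ψ : ℕ → ℝ} (hc : ∀ᶠ n in (U : Filter ℕ), Real.cos (η n - ψ n) ≠ 0) :
    ∃ k : ℕ → ℤ, ∀ᶠ n in (U : Filter ℕ), |η n + k n * Real.pi - ψ n| < Real.pi / 2 := by
  have h1 : ∀ n, ∃ k : ℤ, Real.cos (η n - ψ n) ≠ 0 → |η n + k * Real.pi - ψ n| < Real.pi / 2 := by
    intro n
    by_cases h2 : Real.cos (η n - ψ n) ≠ 0
    · obtain ⟨k, hk⟩ := exists_int_pi h2
      refine ⟨k, fun _ => ?_⟩
      convert hk using 2
      ring
    · exact ⟨0, fun h3 => absurd h3 h2⟩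
  choose k hk using h1
  exact ⟨k, hc.mono fun n hn => hk n hn⟩

theorem ray_cos_pos (h : IsGauge Γ) (hn : Normal Γ U St κ) {a c : ℝ} (ha : 0 ≤ a) (ha' : a ≤ 3)
    (hc : 0 ≤ c) (hc' : c ≤ 3 / 100) {r η₀ η ψ₀ ψ : ℕ → ℝ}
    (hr : ∀ᶠ n in (U : Filter ℕ), 0 < r n) (hs : St (fun n => pt (r n) (η₀ n)) ![0, 0, 1])
    (hψ₀ : St (fun n => idl (ψ₀ n)) ![1, 0, 0]) (hψ : St (fun n => idl (ψ n)) ![1, c, 0])
    (h1 : ∀ᶠ n in (U : Filter ℕ), |η₀ n - ψ₀ n| < Real.pi / 2)
    (h2 : ∀ᶠ n in (U : Filter ℕ), |η₀ n - ψ n| < Real.pi / 2)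
    (h3 : ∀ᶠ n in (U : Filter ℕ), |η n - ψ₀ n| < Real.pi / 2) (hη : IsRay St κ a η) :
    ∀ᶠ n in (U : Filter ℕ), 0 < Real.cos (η n - ψ n) := by
  have hκ0 : 0 ≤ κ := by rcases hn.kap with h | h <;> rw [h] <;> norm_num
  have hκ1 : κ ≤ 1 := by rcases hn.kap with h | h <;> rw [h] <;> norm_num
  have hac : 0 < 1 + a * κ * c := by positivity
  have hne := ray_cos_ne hn hη hψ hac.ne'
  have h4 : (∀ᶠ n in (U : Filter ℕ), 0 < Real.cos (η n - ψ n)) ∨
      ∀ᶠ n in (U : Filter ℕ), Real.cos (η n - ψ n) < 0 := by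
    rw [← Ultrafilter.eventually_or]
    filter_upwards [hne] with n g
    exact (lt_or_gt_of_ne g).symm
  rcases h4 with h4 | h4
  · exact h4
  exfalso
  have hneg : ∀ᶠ n in (U : Filter ℕ), ang Γ (η n - ψ n) < 0 := by
    filter_upwards [h4] with n g
    have h5 := (ang_pos h (η n - ψ n + Real.pi)).2 (by rw [Real.cos_add_pi]; linarith)
    rw [ang_add_pi h] at h5
    linarith
  have t1 := transfer h hn (s' := fun n => r n * ang Γ (η₀ n - ψ₀ n) / ang Γ (η n - ψ₀ n))
    (η' := η) (i := a) hs hψ₀ (fun v hv => hη.1 _ v hv)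
    (h3.mono fun n g => by
      have := ang_pos_of_abs h g
      field_simp) (by simp)
  have t2 := transfer h hn (s' := fun n => r n * ang Γ (η₀ n - ψ n) / ang Γ (η n - ψ n))
    (η' := η) (i := a) hs hψ (fun v hv => hη.1 _ v hv)
    (hneg.mono fun n g => by
      have := g.ne
      field_simp) hac.ne'
  obtain ⟨e, he⟩ := hn.chart.tot fun n => idl (η n - Real.pi / 2)
  have he0 := hn.chart.ne _ _ he
  have he2 : e 2 = 0 := hn.idl_zero (fun n => η n - Real.pi / 2) e he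
  have he3 := hη.2 e he
  have he1 : e 1 ≠ 0 := by
    intro g
    apply he0
    rw [g, he2] at he3
    ext k
    fin_cases k
    · simpa using he3
    · exact g
    · exact he2
  refine hn.chart.alt (fun n => idl (η n - Real.pi / 2)) _ (fun _ => org) _ e _ _ _
    ![0, 1, 1] ![0, 1, -(1 / 2)] ?_ he t1 hn.org t2 ?_ ?_ ?_ ?_
  · filter_upwards [hr, h1, h2, h3, hneg] with n g1 g2 g3 g4 g5
    have p1 := ang_pos_of_abs h g2
    have p2 := ang_pos_of_abs h g3
    have p3 := ang_pos_of_abs h g4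
    exact alt_sign h (div_neg_of_pos_of_neg (by positivity) g5) (by positivity)
  · simp only [Matrix.vec3_dotProduct, Matrix.cons_val_zero, Matrix.cons_val_one,
      Matrix.cons_val, he2]
    have : 0 < e 1 ^ 2 := by positivity
    nlinarith
  · simp only [Matrix.vec3_dotProduct, Matrix.cons_val_zero, Matrix.cons_val_one,
      Matrix.cons_val]
    norm_num
  · simp only [Matrix.vec3_dotProduct, Matrix.cons_val_zero, Matrix.cons_val_one,
      Matrix.cons_val]
    nlinarith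
  · simp only [Matrix.vec3_dotProduct, Matrix.cons_val_zero, Matrix.cons_val_one,
      Matrix.cons_val]
    have hw0 : 0 ≤ c * (a / (1 + a * κ * c)) := by positivity
    have hw1 : c * (a / (1 + a * κ * c)) ≤ 9 / 100 := by
      have : a / (1 + a * κ * c) ≤ 3 := by
        rw [div_le_iff₀ hac]
        have : 0 ≤ a * κ * c := by positivity
        nlinarith
      have h6 : 0 ≤ a / (1 + a * κ * c) := by positivity
      nlinarith
    have h7 : (0 : ℝ) - c * ((0 + a * κ * 0 - a) / (1 + a * κ * c)) =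
        c * (a / (1 + a * κ * c)) := by
      ring
    rw [h7]
    nlinarith

theorem abs_lt_of_cos_pos {x : ℝ} (hx : 0 < Real.cos x) (h : |x| < 3 * (Real.pi / 2)) :
    |x| < Real.pi / 2 := by
  by_contra hc
  rw [← Real.cos_abs] at hx
  have := Real.cos_nonpos_of_pi_div_two_le_of_le (not_lt.1 hc) (by linarith)
  linarith

theorem exists_data (h : IsGauge Γ) (hn : Normal Γ U St κ) :
    ∃ r θ φ, Data Γ U St κ r θ φ := by
  have hκ0 : 0 ≤ κ := by rcases hn.kap with h | h <;> rw [h] <;> norm_num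
  have hden : ∀ i j : Fin 4, 0 < 1 + ((i : ℕ) : ℝ) * κ * (((j : ℕ) : ℝ) / 100) := by
    intro i j
    positivity
  have hne : ∀ j : Fin 4, (![1, ((j : ℕ) : ℝ) / 100, 0] : Fin 3 → ℝ) ≠ 0 := by
    intro j h0
    have := congrFun h0 0
    simp at this
  choose R Θ hR hΘ using fun i : Fin 4 => exists_polar hn ((i : ℕ) : ℝ)
  have hray : ∀ i : Fin 4, IsRay St κ ((i : ℕ) : ℝ) (Θ i) := fun i => isRay_of h hn (hΘ i)
  choose Φ hΦ using fun j : Fin 4 => hn.idl_ex _ (hne j) (by simp)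
  -- the lifts of the ideal points
  choose k hk using fun j : Fin 4 => exists_lift (ray_cos_ne hn (hray 0) (hΦ j) (hden 0 j).ne')
  let φ : Fin 4 → ℕ → ℝ := fun j n => Φ j n + ((-k j n : ℤ) : ℝ) * Real.pi
  have hφ : ∀ j : Fin 4, St (fun n => idl (φ j n)) ![1, ((j : ℕ) : ℝ) / 100, 0] := by
    intro j
    have : (fun n => idl (φ j n)) = fun n => idl (Φ j n) :=
      funext fun n => idl_add_int_pi _ _
    rw [this]
    exact hΦ j
  have hφ0 : ∀ j, ∀ᶠ n in (U : Filter ℕ), |Θ 0 n - φ j n| < Real.pi / 2 := by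
    intro j
    filter_upwards [hk j] with n hn
    have : Θ 0 n - φ j n = Θ 0 n + k j n * Real.pi - Φ j n := by
      simp only [φ]
      push_cast
      ring
    rw [this]
    exact hn
  -- the lifts of the rays
  choose m hm using fun i : Fin 4 => exists_lift (ray_cos_ne hn (hray i) (hφ 0) (hden i 0).ne')
  let m' : Fin 4 → ℕ → ℤ := fun i n => if i = 0 then 0 else m i n
  let θ : Fin 4 → ℕ → ℝ := fun i n => Θ i n + (m' i n : ℝ) * Real.pi
  have hθ0 : ∀ n, θ 0 n = Θ 0 n := by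
    intro n
    simp [θ, m']
  have hθray : ∀ i : Fin 4, IsRay St κ ((i : ℕ) : ℝ) (θ i) := fun i => (hray i).shift (m' i)
  have hθφ : ∀ i, ∀ᶠ n in (U : Filter ℕ), |θ i n - φ 0 n| < Real.pi / 2 := by
    intro i
    by_cases hi : i = 0
    · subst hi
      filter_upwards [hφ0 0] with n hn
      rw [hθ0]
      exact hn
    · filter_upwards [hm i] with n hn
      simp only [θ, m', if_neg hi]
      exact hn
  have hφ0' : St (fun n => idl (φ 0 n)) ![1, 0, 0] := by
    have := hφ 0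
    simpa using this
  have hstart : St (fun n => pt (R 0 n) (θ 0 n)) ![0, 0, 1] := by
    have h1 : (fun n => pt (R 0 n) (θ 0 n)) = fun n => pt (R 0 n) (Θ 0 n) :=
      funext fun n => by rw [hθ0]
    rw [h1]
    have := hΘ 0
    simpa using this
  have hnear : ∀ i j, ∀ᶠ n in (U : Filter ℕ), |θ i n - φ j n| < Real.pi / 2 := by
    intro i j
    have hi : ((i : ℕ) : ℝ) ≤ 3 := by
      have : (i : ℕ) ≤ 3 := by omega
      exact_mod_cast this
    have hj : ((j : ℕ) : ℝ) / 100 ≤ 3 / 100 := by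
      have : (j : ℕ) ≤ 3 := by omega
      have : ((j : ℕ) : ℝ) ≤ 3 := by exact_mod_cast this
      linarith
    have h1 := ray_cos_pos h hn (by positivity) hi (by positivity) hj (hR 0) hstart hφ0' (hφ j)
      (hθφ 0) ((hφ0 j).mono fun n hn => by rw [hθ0]; exact hn) (hθφ i) (hθray i)
    filter_upwards [h1, hθφ i, hφ0 0, hφ0 j] with n g1 g2 g3 g4
    apply abs_lt_of_cos_pos g1
    rw [abs_lt] at g2 g3 g4 ⊢
    constructor
    · linarith [g2.1, g3.2, g4.1]
    · linarith [g2.2, g3.1, g4.2]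
  refine ⟨R 0, fun n i => θ i n, fun n j => φ j n, hn, hR 0, ?_, hstart, hφ, ?_⟩
  · exact Filter.eventually_all.2 fun i => Filter.eventually_all.2 fun j => hnear i j
  · intro i s v hv
    exact (hθray i).1 s v hv

theorem no_normal {Γ : ℂ → ℝ} (h : IsGauge Γ) (hg : Grid fun t => Real.log (ang Γ t))
    {U : Ultrafilter ℕ} {St : (ℕ → P2) → (Fin 3 → ℝ) → Prop} {κ : ℝ}
    (hn : Normal Γ U St κ) : False := by
  obtain ⟨r, θ, φ, hD⟩ := exists_data h hn
  exact hD.false h hg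

end Pool.Agent.Helper5.WP
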