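import Pool.Agent.Helper5.WP.Ang

/-! # Project WP, module E3: the complements of the lines of the radial plane -/

set_option autoImplicit false

namespace Pool.Agent.Helper5.WP

open Pool.Agent.Helper7.TP Metric Set Topology
open Filter (Tendsto atTop atBot)

/-- The first two coordinates of a vector as a complex number. -/
private def cv (v : E3) : ℂ := ⟨v 0, v 1⟩

/-- The incidence function for vectors. -/
private noncomputable def HV (Γ : ℂ → ℝ) (v : E3) (l : S2) : ℝ :=
  Γ (cv v * (starRingEnd ℂ) (cx l)) - v 2 * (l : E3) 2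

open Classical in
/-- The normalisation of a vector. -/
private noncomputable def nf (v : E3) : S2 := if hv : v = 0 then north else nrm v hv

private theorem nf_coe {v : E3} (hv : v ≠ 0) : ((nf v : S2) : E3) = ‖v‖⁻¹ • v := by
  unfold nf
  rw [dif_neg hv, nrm_coe]

private theorem s2_ne (p : S2) : (p : E3) ≠ 0 := by
  have hp : ‖(p : E3)‖ = 1 := norm_eq_of_mem_sphere p
  intro h
  rw [h, norm_zero] at hp
  exact zero_ne_one hp

private theorem nf_self (p : S2) : nf (p : E3) = p := by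
  have hp : ‖(p : E3)‖ = 1 := norm_eq_of_mem_sphere p
  apply Subtype.ext
  rw [nf_coe (s2_ne p), hp, inv_one, one_smul]

private theorem nf_contOn : ContinuousOn nf {0}ᶜ := by
  rw [Topology.IsInducing.subtypeVal.continuousOn_iff]
  refine ContinuousOn.congr (f := fun v : E3 => ‖v‖⁻¹ • v) ?_ ?_
  · refine ContinuousOn.smul (ContinuousOn.inv₀ continuous_norm.continuousOn ?_) continuousOn_id
    intro v hv
    exact norm_ne_zero_iff.2 hv
  · intro v hv
    exact nf_coe hv

private theorem HG_nf {Γ : ℂ → ℝ} (h : IsGauge Γ) {v : E3} (hv : v ≠ 0) (l : S2) :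
    HG Γ (nf v) l = ‖v‖⁻¹ * HV Γ v l := by
  unfold HG HV
  have h1 : cx (nf v) = ((‖v‖⁻¹ : ℝ) : ℂ) * cv v := by
    unfold cx cv
    rw [nf_coe hv]
    apply Complex.ext <;> simp
  rw [h1, mul_assoc, h.smul, nf_coe hv]
  simp only [PiLp.smul_apply, smul_eq_mul]
  ring

private theorem HG_nf_pos {Γ : ℂ → ℝ} (h : IsGauge Γ) {v : E3} (hv : v ≠ 0) {l : S2}
    (hH : 0 < HV Γ v l) : 0 < HG Γ (nf v) l := by
  rw [HG_nf h hv]
  exact mul_pos (inv_pos.2 (norm_pos_iff.2 hv)) hH

private theorem HG_nf_neg {Γ : ℂ → ℝ} (h : IsGauge Γ) {v : E3} (hv : v ≠ 0) {l : S2}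
    (hH : HV Γ v l < 0) : HG Γ (nf v) l < 0 := by
  rw [HG_nf h hv]
  exact mul_neg_of_pos_of_neg (inv_pos.2 (norm_pos_iff.2 hv)) hH

private theorem gauge_zero {Γ : ℂ → ℝ} (h : IsGauge Γ) : Γ 0 = 0 := by
  have := h.smul 0 0
  simpa using this

private theorem gauge_neg {Γ : ℂ → ℝ} (h : IsGauge Γ) (w : ℂ) : Γ (-w) = -Γ w := by
  have := h.smul (-1) w
  simpa using this

private theorem gauge_lt {Γ : ℂ → ℝ} (h : IsGauge Γ) (w : ℂ) : Γ w < 0 ↔ w.re < 0 := by
  have h1 := h.pos (-w)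
  rw [gauge_neg h, Complex.neg_re] at h1
  constructor
  · intro h2
    linarith [h1.1 (by linarith)]
  · intro h2
    linarith [h1.2 (by linarith)]

private theorem gauge_eq {Γ : ℂ → ℝ} (h : IsGauge Γ) (w : ℂ) (h0 : Γ w = 0) : w.re = 0 := by
  rcases lt_trichotomy w.re 0 with h1 | h1 | h1
  · linarith [(gauge_lt h w).2 h1]
  · exact h1
  · linarith [(h.pos w).2 h1]

private theorem HV_zero {Γ : ℂ → ℝ} (h : IsGauge Γ) (l : S2) : HV Γ 0 l = 0 := by
  unfold HV cv
  have h1 : (⟨(0 : E3) 0, (0 : E3) 1⟩ : ℂ) = 0 := by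
    apply Complex.ext <;> simp
  rw [h1, zero_mul, gauge_zero h]
  simp

private theorem HV_self (Γ : ℂ → ℝ) (p l : S2) : HV Γ (p : E3) l = HG Γ p l := rfl

private theorem cx_sq {l : S2} (h0 : (l : E3) 2 = 0) :
    cx l * (starRingEnd ℂ) (cx l) = ((1 : ℝ) : ℂ) := by
  have hl : ‖(l : E3)‖ = 1 := norm_eq_of_mem_sphere l
  rw [EuclideanSpace.norm_eq, Real.sqrt_eq_one, Fin.sum_univ_three, h0] at hl
  rw [Complex.mul_conj, Complex.normSq_apply]
  congr 1
  simp only [Real.norm_eq_abs, sq_abs] at hl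
  unfold cx
  simp only
  nlinarith

/-- A direction in which the incidence function increases. -/
private theorem exists_dir {Γ : ℂ → ℝ} (h : IsGauge Γ) (l : S2) :
    ∃ w : E3, (0 < HV Γ w l) ∧ (∀ p : S2, 0 < HG Γ p l → ∀ s t : ℝ, 0 ≤ s → 0 ≤ t → 0 < s + t →
      0 < HV Γ (s • (p : E3) + t • w) l) ∧
      (∀ p : S2, HG Γ p l = 0 → ∀ t : ℝ, (0 < t → 0 < HV Γ ((p : E3) + t • w) l) ∧
        (t < 0 → HV Γ ((p : E3) + t • w) l < 0)) := by
  by_cases h2 : (l : E3) 2 = 0
  · -- the line passes through the centre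
    have hsq := cx_sq h2
    have hval : ∀ v : E3, HV Γ v l = Γ (cv v * (starRingEnd ℂ) (cx l)) := by
      intro v
      unfold HV
      rw [h2, mul_zero, sub_zero]
    have hcv : ∀ (p : S2) (s t : ℝ), (cv (s • (p : E3) + t • (l : E3)) *
        (starRingEnd ℂ) (cx l)).re = s * (cx p * (starRingEnd ℂ) (cx l)).re + t := by
      intro p s t
      have h3 : cv (s • (p : E3) + t • (l : E3)) = (s : ℂ) * cx p + (t : ℂ) * cx l := by
        unfold cv cx
        apply Complex.ext <;> simp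
      rw [h3, add_mul, mul_assoc, mul_assoc, hsq, Complex.add_re, Complex.re_ofReal_mul,
        Complex.re_ofReal_mul, Complex.ofReal_re, mul_one]
    refine ⟨(l : E3), ?_, ?_, ?_⟩
    · rw [hval, h.pos]
      have h3 : cv (l : E3) = cx l := rfl
      rw [h3, hsq, Complex.ofReal_re]
      exact one_pos
    · intro p hp s t hs ht hst
      rw [← HV_self, hval, h.pos] at hp
      rw [hval, h.pos, hcv]
      have h3 : cv (p : E3) = cx p := rfl
      rw [h3] at hp
      rcases hs.eq_or_lt with h4 | h4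
      · rw [← h4, zero_mul, zero_add]
        linarith
      · have := mul_pos h4 hp
        linarith
    · intro p hp t
      rw [← HV_self, hval] at hp
      have h3 : cv (p : E3) = cx p := rfl
      rw [h3] at hp
      have h4 := gauge_eq h _ hp
      have h5 := hcv p 1 t
      rw [h4, mul_zero, zero_add, one_smul] at h5
      constructor
      · intro ht
        rw [hval, h.pos, h5]
        exact ht
      · intro ht
        rw [hval, gauge_lt h, h5]
        exact ht
  · have hval : ∀ (p : S2) (s t : ℝ), HV Γ (s • (p : E3) + t • vec 0 (-(l : E3) 2)) l =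
        s * HG Γ p l + t * ((l : E3) 2) ^ 2 := by
      intro p s t
      have h3 : cv (s • (p : E3) + t • vec 0 (-(l : E3) 2)) = (s : ℂ) * cx p := by
        unfold cv cx vec
        apply Complex.ext <;> simp
      have h4 : (s • (p : E3) + t • vec 0 (-(l : E3) 2)) 2 = s * (p : E3) 2 - t * (l : E3) 2 := by
        unfold vec
        simp
        ring
      unfold HV HG
      rw [h3, h4, mul_assoc, h.smul]
      ring
    have hpos : 0 < ((l : E3) 2) ^ 2 := by positivity
    refine ⟨vec 0 (-(l : E3) 2), ?_, ?_, ?_⟩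
    · have h3 := hval l 0 1
      rw [zero_smul, one_smul, zero_add, zero_mul, zero_add, one_mul] at h3
      rw [h3]
      exact hpos
    · intro p hp s t hs ht hst
      rw [hval]
      rcases hs.eq_or_lt with h4 | h4
      · rw [← h4, zero_mul, zero_add]
        exact mul_pos (by linarith) hpos
      · have := mul_pos h4 hp
        have := mul_nonneg ht hpos.le
        linarith
    · intro p hp t
      have h3 := hval p 1 t
      rw [hp, mul_zero, zero_add, one_smul] at h3
      rw [h3]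
      exact ⟨fun ht => mul_pos ht hpos, fun ht => mul_neg_of_neg_of_pos ht hpos⟩

theorem HG_conn {Γ : ℂ → ℝ} (h : IsGauge Γ) (l : S2) : IsPreconnected {p | 0 < HG Γ p l} := by
  obtain ⟨w, hw, hseg, -⟩ := exists_dir h l
  have hw0 : w ≠ 0 := by
    intro h0
    rw [h0, HV_zero h] at hw
    exact lt_irrefl _ hw
  apply isPreconnected_of_forall (nf w)
  intro p hp
  change 0 < HG Γ p l at hp
  have hpos : ∀ t ∈ Icc (0 : ℝ) 1, 0 < HV Γ ((1 - t) • (p : E3) + t • w) l := by
    intro t ht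
    exact hseg p hp (1 - t) t (by linarith [ht.2]) ht.1 (by linarith)
  have hne : ∀ t ∈ Icc (0 : ℝ) 1, (1 - t) • (p : E3) + t • w ≠ 0 := by
    intro t ht h0
    have := hpos t ht
    rw [h0, HV_zero h] at this
    exact lt_irrefl _ this
  refine ⟨(fun t : ℝ => nf ((1 - t) • (p : E3) + t • w)) '' Icc 0 1, ?_, ?_, ?_, ?_⟩
  · rintro _ ⟨t, ht, rfl⟩
    exact HG_nf_pos h (hne t ht) (hpos t ht)
  · refine ⟨1, ⟨zero_le_one, le_refl _⟩, ?_⟩
    simp
  · refine ⟨0, ⟨le_refl _, zero_le_one⟩, ?_⟩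
    simp only [sub_zero, one_smul, zero_smul, add_zero]
    exact nf_self p
  · apply isPreconnected_Icc.image
    refine nf_contOn.comp (Continuous.continuousOn (by fun_prop)) ?_
    intro t ht
    exact hne t ht

theorem HG_change {Γ : ℂ → ℝ} (h : IsGauge Γ) (p l : S2) (h0 : HG Γ p l = 0) (U : Set S2)
    (hU : U ∈ 𝓝 p) : ∃ V ⊆ U, IsPreconnected V ∧ (∃ q ∈ V, 0 < HG Γ q l) ∧
      ∃ q ∈ V, HG Γ q l < 0 := by
  obtain ⟨w, -, -, hsgn⟩ := exists_dir h l
  have hs := hsgn p h0
  have hcont : Continuous fun t : ℝ => (p : E3) + t • w := by fun_prop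
  have hopen : IsOpen ({0}ᶜ : Set E3) := isOpen_compl_singleton
  have hev1 : ∀ᶠ t : ℝ in 𝓝 0, (p : E3) + t • w ∈ ({0}ᶜ : Set E3) := by
    apply hcont.continuousAt.eventually_mem
    rw [zero_smul, add_zero]
    exact hopen.mem_nhds (s2_ne p)
  have hev2 : ∀ᶠ t : ℝ in 𝓝 0, nf ((p : E3) + t • w) ∈ U := by
    have h1 : ContinuousAt nf ((p : E3) + (0 : ℝ) • w) := by
      apply nf_contOn.continuousAt
      rw [zero_smul, add_zero]
      exact hopen.mem_nhds (s2_ne p)
    have h2 : ContinuousAt (fun t : ℝ => nf ((p : E3) + t • w)) 0 :=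
      ContinuousAt.comp (g := nf) (f := fun t : ℝ => (p : E3) + t • w) h1 hcont.continuousAt
    apply h2.eventually_mem
    simp only [zero_smul, add_zero]
    rw [nf_self]
    exact hU
  obtain ⟨δ, hδ, hball⟩ := Metric.eventually_nhds_iff_ball.1 (hev1.and hev2)
  have hmem : ∀ t ∈ Icc (-(δ / 2)) (δ / 2), t ∈ ball (0 : ℝ) δ := by
    intro t ht
    rw [mem_ball_zero_iff, Real.norm_eq_abs, abs_lt]
    constructor
    · linarith [ht.1]
    · linarith [ht.2]
  have hpos : 0 < δ / 2 := by positivity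
  refine ⟨(fun t : ℝ => nf ((p : E3) + t • w)) '' Icc (-(δ / 2)) (δ / 2), ?_, ?_, ?_, ?_⟩
  · rintro _ ⟨t, ht, rfl⟩
    exact (hball t (hmem t ht)).2
  · apply isPreconnected_Icc.image
    refine nf_contOn.comp hcont.continuousOn ?_
    intro t ht
    exact (hball t (hmem t ht)).1
  · have hI : δ / 2 ∈ Icc (-(δ / 2)) (δ / 2) := ⟨by linarith, le_refl _⟩
    exact ⟨_, ⟨δ / 2, hI, rfl⟩, HG_nf_pos h (hball _ (hmem _ hI)).1 ((hs _).1 hpos)⟩
  · have hI : -(δ / 2) ∈ Icc (-(δ / 2)) (δ / 2) := ⟨le_refl _, by linarith⟩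
    exact ⟨_, ⟨-(δ / 2), hI, rfl⟩, HG_nf_neg h (hball _ (hmem _ hI)).1
      ((hs _).2 (by linarith))⟩

end Pool.Agent.Helper5.WP
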