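import Pool.Agent.Helper5.WP.Ang

/-! # Project WP, module E2: two points of the radial plane are on one line only -/

set_option autoImplicit false

namespace Pool.Agent.Helper5.WP

open Pool.Agent.Helper7.TP Metric Set Topology
open Filter (Tendsto atTop atBot)

private theorem uq_mk_of_coord {p q : S2} {t : ℝ} (h : cx p = (t : ℂ) * cx q)
    (h2 : (p : E3) 2 = t * (q : E3) 2) : mk p = mk q := by
  apply eq_smul_mk (r := t)
  have h0 : (p : E3) 0 = t * (q : E3) 0 := by
    have := congrArg Complex.re h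
    simpa [cx] using this
  have h1 : (p : E3) 1 = t * (q : E3) 1 := by
    have := congrArg Complex.im h
    simpa [cx] using this
  ext i
  fin_cases i
  · simpa using h0
  · simpa using h1
  · simpa using h2

private theorem uq_norm (p : S2) : Complex.normSq (cx p) + (p : E3) 2 ^ 2 = 1 := by
  have h : ‖(p : E3)‖ = 1 := norm_eq_of_mem_sphere p
  rw [EuclideanSpace.norm_eq, Fin.sum_univ_three, Real.sqrt_eq_one] at h
  simp only [Real.norm_eq_abs, sq_abs] at h
  rw [Complex.normSq_apply]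
  simp only [cx]
  linarith

/-- The case that the last coordinate of `p` is zero. -/
private theorem uq_zero {Γ : ℂ → ℝ} (hs : ∀ (r : ℝ) (w : ℂ), Γ ((r : ℂ) * w) = r * Γ w)
    (hz : ∀ w, Γ w = 0 → w.re = 0) (p q l m : S2) (h1 : HG Γ p l = 0)
    (h2 : HG Γ q l = 0) (h3 : HG Γ p m = 0) (h4 : HG Γ q m = 0) (hp : (p : E3) 2 = 0) :
    mk p = mk q ∨ mk l = mk m := by
  have hn := uq_norm p
  rw [hp] at hn
  have hn' : Complex.normSq (cx p) = 1 := by linarith
  have hc : (starRingEnd ℂ) (cx p) * cx p = 1 := by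
    rw [mul_comm, Complex.mul_conj, hn', Complex.ofReal_one]
  -- the form of the lines
  have key : ∀ l : S2, HG Γ p l = 0 → ∃ r : ℝ, cx l = (r : ℂ) * (Complex.I * cx p) := by
    intro l hl
    unfold HG at hl
    rw [hp, zero_mul, sub_zero] at hl
    have hre := hz _ hl
    refine ⟨((starRingEnd ℂ) (cx p) * cx l).im, ?_⟩
    have hre' : ((starRingEnd ℂ) (cx p) * cx l).re = 0 := by
      simp only [Complex.mul_re, Complex.conj_re, Complex.conj_im] at hre ⊢
      linarith
    have e : (starRingEnd ℂ) (cx p) * cx l =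
        ((((starRingEnd ℂ) (cx p) * cx l).im : ℝ) : ℂ) * Complex.I := by
      apply Complex.ext
      · rw [hre']
        simp
      · simp
    calc cx l = ((starRingEnd ℂ) (cx p) * cx p) * cx l := by rw [hc, one_mul]
      _ = cx p * ((starRingEnd ℂ) (cx p) * cx l) := by ring
      _ = cx p * (((((starRingEnd ℂ) (cx p) * cx l).im : ℝ) : ℂ) * Complex.I) := by
        rw [← e]
      _ = _ := by ring
  obtain ⟨r, hr⟩ := key l h1
  obtain ⟨s, hsm⟩ := key m h3
  set K : ℝ := Γ (cx q * (starRingEnd ℂ) (Complex.I * cx p)) with hK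
  have hrK : r * K = (q : E3) 2 * (l : E3) 2 := by
    unfold HG at h2
    rw [hr, map_mul, Complex.conj_ofReal,
      show cx q * ((r : ℂ) * (starRingEnd ℂ) (Complex.I * cx p)) =
        (r : ℂ) * (cx q * (starRingEnd ℂ) (Complex.I * cx p)) by ring, hs] at h2
    linarith
  have hsK : s * K = (q : E3) 2 * (m : E3) 2 := by
    unfold HG at h4
    rw [hsm, map_mul, Complex.conj_ofReal,
      show cx q * ((s : ℂ) * (starRingEnd ℂ) (Complex.I * cx p)) =
        (s : ℂ) * (cx q * (starRingEnd ℂ) (Complex.I * cx p)) by ring, hs] at h4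
    linarith
  by_cases hpq : K = 0 ∧ (q : E3) 2 = 0
  · left
    obtain ⟨hK0, hq⟩ := hpq
    rw [hK] at hK0
    have hre := hz _ hK0
    have him : ((starRingEnd ℂ) (cx p) * cx q).im = 0 := by
      simp only [map_mul, Complex.conj_I, Complex.mul_re, Complex.mul_im, Complex.neg_re,
        Complex.neg_im, Complex.I_re, Complex.I_im, Complex.conj_re, Complex.conj_im] at hre ⊢
      linarith
    symm
    apply uq_mk_of_coord (t := ((starRingEnd ℂ) (cx p) * cx q).re)
    · have e : (starRingEnd ℂ) (cx p) * cx q =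
          ((((starRingEnd ℂ) (cx p) * cx q).re : ℝ) : ℂ) := by
        apply Complex.ext
        · simp
        · rw [him]
          simp
      calc cx q = ((starRingEnd ℂ) (cx p) * cx p) * cx q := by rw [hc, one_mul]
        _ = ((starRingEnd ℂ) (cx p) * cx q) * cx p := by ring
        _ = _ := by rw [← e]
    · rw [hq, hp, mul_zero]
  · right
    have hpar : (l : E3) 2 * s = (m : E3) 2 * r := by
      by_cases hq : (q : E3) 2 = 0
      · have hK0 : K ≠ 0 := fun h => hpq ⟨h, hq⟩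
        rw [hq, zero_mul] at hrK hsK
        have hr0 : r = 0 := by
          rcases mul_eq_zero.1 hrK with h | h
          · exact h
          · exact absurd h hK0
        have hs0 : s = 0 := by
          rcases mul_eq_zero.1 hsK with h | h
          · exact h
          · exact absurd h hK0
        rw [hr0, hs0, mul_zero, mul_zero]
      · apply mul_left_cancel₀ hq
        calc (q : E3) 2 * ((l : E3) 2 * s) = (r * K) * s := by rw [hrK]; ring
          _ = (s * K) * r := by ring
          _ = _ := by rw [hsK]; ring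
    have hnm := uq_norm m
    have hms : Complex.normSq (cx m) = s ^ 2 := by
      rw [hsm, map_mul, map_mul, Complex.normSq_ofReal, Complex.normSq_I, hn']
      ring
    rw [hms] at hnm
    have e1 : r = (r * s + (l : E3) 2 * (m : E3) 2) * s := by
      have : (r * s + (l : E3) 2 * (m : E3) 2) * s = r * s ^ 2 + (m : E3) 2 * ((l : E3) 2 * s) := by
        ring
      rw [this, hpar]
      linear_combination (-r) * hnm
    have e2 : (l : E3) 2 = (r * s + (l : E3) 2 * (m : E3) 2) * (m : E3) 2 := by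
      have : (r * s + (l : E3) 2 * (m : E3) 2) * (m : E3) 2 =
          s * ((m : E3) 2 * r) + (l : E3) 2 * (m : E3) 2 ^ 2 := by
        ring
      rw [this, ← hpar]
      linear_combination (-(l : E3) 2) * hnm
    apply uq_mk_of_coord (t := r * s + (l : E3) 2 * (m : E3) 2)
    · rw [hr, hsm]
      nth_rewrite 1 [e1]
      push_cast
      ring
    · exact e2

private theorem uq_gauge_polar {Γ : ℂ → ℝ} (h : IsGauge Γ) (w : ℂ) :
    Γ w = ‖w‖ * ang Γ w.arg := by
  unfold ang
  rw [← h.smul, Complex.norm_mul_exp_arg_mul_I]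

/-- The case that the last coordinates are positive. -/
private theorem uq_pos {Γ : ℂ → ℝ} (h : IsGauge Γ) (p q l m : S2) (h1 : HG Γ p l = 0)
    (h2 : HG Γ q l = 0) (h3 : HG Γ p m = 0) (h4 : HG Γ q m = 0) (hp : 0 < (p : E3) 2)
    (hq : 0 < (q : E3) 2) (hl : 0 < (l : E3) 2) (hm : 0 < (m : E3) 2) :
    mk p = mk q ∨ mk l = mk m := by
  unfold HG at h1 h2 h3 h4
  set a : ℂ := cx p * (starRingEnd ℂ) (cx l) with ha
  set b : ℂ := cx q * (starRingEnd ℂ) (cx l) with hb
  set c : ℂ := cx p * (starRingEnd ℂ) (cx m) with hc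
  set d : ℂ := cx q * (starRingEnd ℂ) (cx m) with hd
  have g1 : Γ a = (p : E3) 2 * (l : E3) 2 := by linarith
  have g2 : Γ b = (q : E3) 2 * (l : E3) 2 := by linarith
  have g3 : Γ c = (p : E3) 2 * (m : E3) 2 := by linarith
  have g4 : Γ d = (q : E3) 2 * (m : E3) 2 := by linarith
  have r1 : 0 < a.re := (h.pos a).1 (by rw [g1]; positivity)
  have r2 : 0 < b.re := (h.pos b).1 (by rw [g2]; positivity)
  have r3 : 0 < c.re := (h.pos c).1 (by rw [g3]; positivity)
  have r4 : 0 < d.re := (h.pos d).1 (by rw [g4]; positivity)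
  have n0 : ∀ w : ℂ, 0 < w.re → w ≠ 0 := by
    intro w hw h0
    rw [h0] at hw
    simp at hw
  have t : ∀ w : ℂ, 0 < w.re → -(Real.pi / 2) < w.arg ∧ w.arg < Real.pi / 2 := by
    intro w hw
    exact abs_lt.1 (Complex.abs_arg_lt_pi_div_two_iff.2 (Or.inl hw))
  obtain ⟨t1, t1'⟩ := t a r1
  obtain ⟨t2, t2'⟩ := t b r2
  obtain ⟨t3, t3'⟩ := t c r3
  obtain ⟨t4, t4'⟩ := t d r4
  have hprod : a * d = b * c := by
    rw [ha, hb, hc, hd]
    ring
  have hsum : a.arg + d.arg = b.arg + c.arg := by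
    have e1 := Complex.arg_mul (n0 a r1) (n0 d r4) ⟨by linarith [Real.pi_pos], by
      linarith [Real.pi_pos]⟩
    have e2 := Complex.arg_mul (n0 b r2) (n0 c r3) ⟨by linarith [Real.pi_pos], by
      linarith [Real.pi_pos]⟩
    rw [← e1, ← e2, hprod]
  have hnorm : ‖a‖ * ‖d‖ = ‖b‖ * ‖c‖ := by rw [← norm_mul, ← norm_mul, hprod]
  have hnpos : 0 < ‖a‖ * ‖d‖ := mul_pos (norm_pos_iff.2 (n0 a r1)) (norm_pos_iff.2 (n0 d r4))
  have hang : ang Γ a.arg * ang Γ d.arg = ang Γ b.arg * ang Γ c.arg := by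
    apply mul_left_cancel₀ hnpos.ne'
    calc ‖a‖ * ‖d‖ * (ang Γ a.arg * ang Γ d.arg) =
        (‖a‖ * ang Γ a.arg) * (‖d‖ * ang Γ d.arg) := by ring
      _ = Γ a * Γ d := by rw [← uq_gauge_polar h, ← uq_gauge_polar h]
      _ = Γ b * Γ c := by rw [g1, g2, g3, g4]; ring
      _ = (‖b‖ * ang Γ b.arg) * (‖c‖ * ang Γ c.arg) := by
        rw [← uq_gauge_polar h, ← uq_gauge_polar h]
      _ = ‖a‖ * ‖d‖ * (ang Γ b.arg * ang Γ c.arg) := by rw [hnorm]; ring
  -- equal arguments
  have heq : ∀ v w : ℂ, v.arg = w.arg → w ≠ 0 → v = ((‖v‖ / ‖w‖ : ℝ) : ℂ) * w := by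
    intro v w hvw hw
    have hw' : ‖w‖ ≠ 0 := norm_ne_zero_iff.2 hw
    calc v = (‖v‖ : ℂ) * Complex.exp ((v.arg : ℂ) * Complex.I) :=
          (Complex.norm_mul_exp_arg_mul_I v).symm
      _ = ((‖v‖ / ‖w‖ * ‖w‖ : ℝ) : ℂ) * Complex.exp ((w.arg : ℂ) * Complex.I) := by
        rw [hvw, div_mul_cancel₀ _ hw']
      _ = ((‖v‖ / ‖w‖ : ℝ) : ℂ) * ((‖w‖ : ℂ) * Complex.exp ((w.arg : ℂ) * Complex.I)) := by
        rw [Complex.ofReal_mul, mul_assoc]
      _ = _ := by rw [Complex.norm_mul_exp_arg_mul_I w]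
  have hcl : (starRingEnd ℂ) (cx l) ≠ 0 := by
    intro h0
    rw [h0, mul_zero] at ha
    exact n0 a r1 ha
  have hcp : cx p ≠ 0 := by
    intro h0
    rw [h0, zero_mul] at ha
    exact n0 a r1 ha
  by_cases hab : a.arg = b.arg
  · left
    have e := heq a b hab (n0 b r2)
    apply uq_mk_of_coord (t := ‖a‖ / ‖b‖)
    · apply mul_right_cancel₀ hcl
      rw [← ha, mul_assoc, ← hb]
      exact e
    · have := congrArg Γ e
      rw [h.smul, g1, g2] at this
      apply mul_right_cancel₀ hl.ne'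
      rw [this]
      ring
  by_cases hac : a.arg = c.arg
  · right
    have e := heq a c hac (n0 c r3)
    apply uq_mk_of_coord (t := ‖a‖ / ‖c‖)
    · have e' : (starRingEnd ℂ) (cx l) = ((‖a‖ / ‖c‖ : ℝ) : ℂ) * (starRingEnd ℂ) (cx m) := by
        apply mul_left_cancel₀ hcp
        rw [← ha, mul_left_comm, ← hc]
        exact e
      have e'' := congrArg (starRingEnd ℂ) e'
      rw [map_mul, Complex.conj_conj, Complex.conj_conj, Complex.conj_ofReal] at e''
      exact e''
    · have := congrArg Γ e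
      rw [h.smul, g1, g3] at this
      apply mul_left_cancel₀ hp.ne'
      rw [this]
      ring
  exfalso
  -- `A = arg a`, `B = arg b`, `C = 0`, `D = arg a - arg c`
  have x1 : a.arg - 0 = a.arg := sub_zero _
  have x2 : b.arg - 0 = b.arg := sub_zero _
  have x3 : a.arg - (a.arg - c.arg) = c.arg := by ring
  have x4 : b.arg - (a.arg - c.arg) = d.arg := by linarith
  rcases lt_or_gt_of_ne hab with hab | hab <;>
  rcases lt_or_gt_of_ne (show (0 : ℝ) ≠ a.arg - c.arg from fun h0 => hac (by linarith)) with hac | hac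
  · have := h.mix a.arg b.arg 0 (a.arg - c.arg) hab hac (by rw [x3]; exact t3) (by rw [x2]; exact t2')
    rw [x1, x2, x3, x4, hang, mul_comm] at this
    exact lt_irrefl _ this
  · have := h.mix a.arg b.arg (a.arg - c.arg) 0 hab hac (by rw [x1]; exact t1) (by rw [x4]; exact t4')
    rw [x1, x2, x3, x4, hang, mul_comm] at this
    exact lt_irrefl _ this
  · have := h.mix b.arg a.arg 0 (a.arg - c.arg) hab hac (by rw [x4]; exact t4) (by rw [x1]; exact t1')
    rw [x1, x2, x3, x4, mul_comm, hang] at this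
    exact lt_irrefl _ this
  · have := h.mix b.arg a.arg (a.arg - c.arg) 0 hab hac (by rw [x2]; exact t2) (by rw [x3]; exact t3')
    rw [x1, x2, x3, x4] at this
    have h5 : ang Γ b.arg * ang Γ c.arg < ang Γ a.arg * ang Γ d.arg := by linarith
    rw [hang] at h5
    exact lt_irrefl _ h5

private theorem uq_mk_neg (p : S2) : mk (-p) = mk p := by
  apply eq_smul_mk (r := -1)
  simp

private theorem uq_cx_neg (p : S2) : cx (-p) = -cx p := by
  apply Complex.ext <;> simp [cx]

private theorem uq_neg_left {Γ : ℂ → ℝ} (h : IsGauge Γ) (p l : S2) :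
    HG Γ (-p) l = -HG Γ p l := by
  unfold HG
  rw [uq_cx_neg, show -cx p * (starRingEnd ℂ) (cx l) =
    ((-1 : ℝ) : ℂ) * (cx p * (starRingEnd ℂ) (cx l)) by push_cast; ring, h.smul]
  simp only [coe_neg_sphere, PiLp.neg_apply]
  ring

private theorem uq_neg_right {Γ : ℂ → ℝ} (h : IsGauge Γ) (p l : S2) :
    HG Γ p (-l) = -HG Γ p l := by
  unfold HG
  rw [uq_cx_neg, map_neg, show cx p * -(starRingEnd ℂ) (cx l) =
    ((-1 : ℝ) : ℂ) * (cx p * (starRingEnd ℂ) (cx l)) by push_cast; ring, h.smul]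
  simp only [coe_neg_sphere, PiLp.neg_apply]
  ring

private theorem uq_sign (p : S2) (hp : (p : E3) 2 ≠ 0) :
    ∃ p' : S2, (p' = p ∨ p' = -p) ∧ 0 < (p' : E3) 2 := by
  rcases lt_or_gt_of_ne hp with h | h
  · exact ⟨-p, Or.inr rfl, by simpa using h⟩
  · exact ⟨p, Or.inl rfl, h⟩

theorem HG_uniq {Γ : ℂ → ℝ} (h : IsGauge Γ) (p q l m : S2) (h1 : HG Γ p l = 0)
    (h2 : HG Γ q l = 0) (h3 : HG Γ p m = 0) (h4 : HG Γ q m = 0) :
    mk p = mk q ∨ mk l = mk m := by
  have hz : ∀ w, Γ w = 0 → w.re = 0 := by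
    intro w hw
    rcases lt_trichotomy w.re 0 with h5 | h5 | h5
    · have : 0 < Γ (((-1 : ℝ) : ℂ) * w) := (h.pos _).2 (by simpa using h5)
      rw [h.smul, hw] at this
      simp at this
    · exact h5
    · have := (h.pos w).2 h5
      rw [hw] at this
      exact absurd this (lt_irrefl _)
  have hswap : ∀ p l : S2, HG Γ p l = 0 → HG (fun w => Γ ((starRingEnd ℂ) w)) l p = 0 := by
    intro p l hpl
    unfold HG at hpl ⊢
    simp only [map_mul, Complex.conj_conj]
    rw [mul_comm ((starRingEnd ℂ) (cx l)) (cx p), mul_comm ((l : E3) 2)]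
    exact hpl
  have hs' : ∀ (r : ℝ) (w : ℂ), (fun w => Γ ((starRingEnd ℂ) w)) ((r : ℂ) * w) =
      r * (fun w => Γ ((starRingEnd ℂ) w)) w := by
    intro r w
    simp only [map_mul, Complex.conj_ofReal]
    exact h.smul r _
  have hz' : ∀ w, (fun w => Γ ((starRingEnd ℂ) w)) w = 0 → w.re = 0 := by
    intro w hw
    have := hz _ hw
    simpa using this
  by_cases hp : (p : E3) 2 = 0
  · exact uq_zero h.smul hz p q l m h1 h2 h3 h4 hp
  by_cases hq : (q : E3) 2 = 0
  · rcases uq_zero h.smul hz q p l m h2 h1 h4 h3 hq with h5 | h5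
    · exact Or.inl h5.symm
    · exact Or.inr h5
  by_cases hl : (l : E3) 2 = 0
  · exact (uq_zero hs' hz' l m p q (hswap p l h1) (hswap p m h3) (hswap q l h2) (hswap q m h4)
      hl).symm
  by_cases hm : (m : E3) 2 = 0
  · rcases uq_zero hs' hz' m l p q (hswap p m h3) (hswap p l h1) (hswap q m h4) (hswap q l h2)
      hm with h5 | h5
    · exact Or.inr h5.symm
    · exact Or.inl h5
  obtain ⟨p', hp', hp''⟩ := uq_sign p hp
  obtain ⟨q', hq', hq''⟩ := uq_sign q hq
  obtain ⟨l', hl', hl''⟩ := uq_sign l hl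
  obtain ⟨m', hm', hm''⟩ := uq_sign m hm
  have hmk : ∀ x x' : S2, x' = x ∨ x' = -x → mk x' = mk x := by
    rintro x x' (h5 | h5)
    · rw [h5]
    · rw [h5, uq_mk_neg]
  have hHG : ∀ x x' y y' : S2, x' = x ∨ x' = -x → y' = y ∨ y' = -y → HG Γ x y = 0 →
      HG Γ x' y' = 0 := by
    rintro x x' y y' (h5 | h5) (h6 | h6) h7 <;> rw [h5, h6] <;>
      simp [uq_neg_left h, uq_neg_right h, h7]
  have := uq_pos h p' q' l' m' (hHG _ _ _ _ hp' hl' h1) (hHG _ _ _ _ hq' hl' h2)
    (hHG _ _ _ _ hp' hm' h3) (hHG _ _ _ _ hq' hm' h4) hp'' hq'' hl'' hm''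
  rwa [hmk _ _ hp', hmk _ _ hq', hmk _ _ hl', hmk _ _ hm'] at this

end Pool.Agent.Helper5.WP
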