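import Pool.Agent.Helper5.WP.RadCurve
import Pool.Agent.Helper5.WP.RadUniq
import Pool.Agent.Helper5.WP.RadConn

/-! # Project WP, module E: the incidence function of the radial plane -/

set_option autoImplicit false

namespace Pool.Agent.Helper5.WP

open Pool.Agent.Helper7.TP Metric Set Topology

theorem isInc_HG {Γ : ℂ → ℝ} (h : IsGauge Γ) : IsInc (HG Γ) :=
  ⟨HG_cont h, HG_neg_left h, HG_neg_right h, HG_curve h, HG_dual h, HG_uniq h, HG_conn h,
    HG_change h⟩

end Pool.Agent.Helper5.WP
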