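import Pool.Agent.Helper5.WP.Pts
import Pool.Agent.Helper5.WP.Inc
import Pool.Agent.Helper5.WP.Rad

/-! # Project WP, module H: normalised asymptotic coordinates -/

set_option autoImplicit false

namespace Pool.Agent.Helper5.WP

open Pool.Agent.Helper7.TP Metric Set Topology
open Filter (Tendsto atTop atBot)

/-- Asymptotic coordinates can be composed with linear automorphisms. -/
theorem Chart.norm_comp {𝓛 : Set (Set P2)} {U : Ultrafilter ℕ}
    {St : (ℕ → P2) → (Fin 3 → ℝ) → Prop} (hc : Chart 𝓛 U St)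
    (M : Matrix (Fin 3) (Fin 3) ℝ) (hM : M.det ≠ 0) :
    Chart 𝓛 U (fun P v => St P (M.mulVec v)) := by
  have hu : IsUnit M.det := isUnit_iff_ne_zero.2 hM
  have h1 : ∀ v, M⁻¹.mulVec (M.mulVec v) = v := fun v => by
    rw [Matrix.mulVec_mulVec, Matrix.nonsing_inv_mul _ hu, Matrix.one_mulVec]
  have h2 : ∀ v, M.mulVec (M⁻¹.mulVec v) = v := fun v => by
    rw [Matrix.mulVec_mulVec, Matrix.mul_nonsing_inv _ hu, Matrix.one_mulVec]
  have h3 : ∀ a v : Fin 3 → ℝ, (Matrix.vecMul a M⁻¹) ⬝ᵥ (M.mulVec v) = a ⬝ᵥ v := fun a v => by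
    rw [Matrix.dotProduct_mulVec, Matrix.vecMul_vecMul, Matrix.nonsing_inv_mul _ hu,
      Matrix.vecMul_one]
  refine ⟨?_, ?_, ?_, ?_, ?_, ?_, ?_⟩
  · intro P v hP hv
    exact hc.ne P _ hP (by rw [hv, Matrix.mulVec_zero])
  · intro v hv
    refine hc.ex _ fun h => hv ?_
    rw [← h1 v, h, Matrix.mulVec_zero]
  · intro P
    obtain ⟨v, hv⟩ := hc.tot P
    refine ⟨M⁻¹.mulVec v, ?_⟩
    rw [h2]
    exact hv
  · intro P Q v hP hPQ
    exact hc.congr P Q _ hP hPQ
  · intro P v w hP
    rw [hc.uniq P _ (M.mulVec w) hP]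
    constructor
    · rintro ⟨r, hr, h⟩
      refine ⟨r, hr, ?_⟩
      rw [← h1 w, h, Matrix.mulVec_smul, h1]
    · rintro ⟨r, hr, h⟩
      refine ⟨r, hr, ?_⟩
      rw [h, Matrix.mulVec_smul]
  · intro P Q R u v w hPQR hP hQ hR
    have h4 := hc.col P Q R _ _ _ hPQR hP hQ hR
    have h5 : Matrix.det ![M.mulVec u, M.mulVec v, M.mulVec w] =
        M.det * Matrix.det ![u, v, w] := by
      simp only [Matrix.det_fin_three, Matrix.mulVec, dotProduct, Fin.sum_univ_three,
        Matrix.cons_val]
      ring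
    rw [h5] at h4
    exact (mul_eq_zero.1 h4).resolve_left hM
  · intro P Q R S u v w x a b hA hP hQ hR hS i1 i2 i3 i4
    exact hc.alt P Q R S _ _ _ _ (Matrix.vecMul a M⁻¹) (Matrix.vecMul b M⁻¹) hA hP hQ hR hS
      (by rw [h3, h3]; exact i1) (by rw [h3, h3]; exact i2) (by rw [h3, h3]; exact i3)
      (by rw [h3, h3]; exact i4)

/-- The points of sequences with different limits are different. -/
theorem Chart.norm_ne {𝓛 : Set (Set P2)} {U : Ultrafilter ℕ}
    {St : (ℕ → P2) → (Fin 3 → ℝ) → Prop} (hc : Chart 𝓛 U St) {P Q : ℕ → P2}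
    {u v : Fin 3 → ℝ} (hP : St P u) (hQ : St Q v) (h : ¬ ∃ r : ℝ, v = r • u) :
    ∀ᶠ n in (U : Filter ℕ), P n ≠ Q n := by
  by_contra h1
  rw [← Ultrafilter.frequently_iff_eventually, Filter.not_frequently] at h1
  have h2 : ∀ᶠ n in (U : Filter ℕ), P n = Q n := by
    filter_upwards [h1] with n hn
    exact not_not.1 hn
  have h3 := hc.congr P Q u hP h2
  obtain ⟨r, -, hr⟩ := (hc.uniq Q u v h3).1 hQ
  exact h ⟨r, hr⟩

/-- The join of two sequences meets infinity. -/
theorem Chart.norm_join {Γ : ℂ → ℝ} (h : IsGauge Γ) {U : Ultrafilter ℕ}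
    {St : (ℕ → P2) → (Fin 3 → ℝ) → Prop} (hc : Chart (radPlane Γ) U St) {P Q : ℕ → P2}
    {u v : Fin 3 → ℝ} (hP : St P u) (hQ : St Q v) (huv : ¬ ∃ r : ℝ, v = r • u) :
    ∃ (φ : ℕ → ℝ) (w : Fin 3 → ℝ), St (fun n => idl (φ n)) w ∧
      Matrix.det ![u, v, w] = 0 := by
  have h1 := hc.norm_ne hP hQ huv
  have h2 : ∀ n, ∃ φ : ℝ, P n ≠ Q n → ∃ C ∈ radPlane Γ, P n ∈ C ∧ Q n ∈ C ∧ idl φ ∈ C := by
    intro n
    by_cases hn : P n = Q n
    · exact ⟨0, fun h' => absurd hn h'⟩
    · obtain ⟨C, ⟨hC, hPC, hQC⟩, -⟩ := (isTPP_incPlane (isInc_HG h)).join _ _ hn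
      obtain ⟨φ, hφ⟩ := meet_inf h hC
      exact ⟨φ, fun _ => ⟨C, hC, hPC, hQC, hφ⟩⟩
  choose φ hφ using h2
  obtain ⟨w, hw⟩ := hc.tot (fun n => idl (φ n))
  refine ⟨φ, w, hw, hc.col P Q _ u v w ?_ hP hQ hw⟩
  filter_upwards [h1] with n hn
  exact hφ n hn

/-- The cross product criterion. -/
theorem norm_det_ne {w : Fin 3 → ℝ} (hw : w ≠ 0) :
    ∃ u v : Fin 3 → ℝ, Matrix.det ![w, u, v] ≠ 0 := by
  by_contra h
  push Not at h
  apply hw
  have h0 := h ![0, 1, 0] ![0, 0, 1]
  have h1 := h ![0, 0, 1] ![1, 0, 0]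
  have h2 := h ![1, 0, 0] ![0, 1, 0]
  simp only [Matrix.det_fin_three, Matrix.cons_val] at h0 h1 h2
  ext i
  fin_cases i
  · simpa using h0
  · simpa using h1
  · simpa using h2

/-- A vector outside of a plane. -/
theorem norm_det_ne₂ {u v : Fin 3 → ℝ} (hu : u ≠ 0) (huv : ¬ ∃ r : ℝ, v = r • u) :
    ∃ w : Fin 3 → ℝ, Matrix.det ![u, v, w] ≠ 0 := by
  by_contra h
  push Not at h
  apply huv
  have h0 := h ![1, 0, 0]
  have h1 := h ![0, 1, 0]
  have h2 := h ![0, 0, 1]
  simp only [Matrix.det_fin_three, Matrix.cons_val] at h0 h1 h2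
  have e0 : u 1 * v 2 = u 2 * v 1 := by linarith
  have e1 : u 2 * v 0 = u 0 * v 2 := by linarith
  have e2 : u 0 * v 1 = u 1 * v 0 := by linarith
  by_cases h3 : u 0 = 0
  · by_cases h4 : u 1 = 0
    · have h5 : u 2 ≠ 0 := by
        intro h5
        apply hu
        ext i
        fin_cases i
        · exact h3
        · exact h4
        · exact h5
      refine ⟨v 2 / u 2, ?_⟩
      ext i
      fin_cases i
      · change v 0 = v 2 / u 2 * u 0
        field_simp
        linarith
      · change v 1 = v 2 / u 2 * u 1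
        field_simp
        linarith
      · change v 2 = v 2 / u 2 * u 2
        field_simp
    · refine ⟨v 1 / u 1, ?_⟩
      ext i
      fin_cases i
      · change v 0 = v 1 / u 1 * u 0
        field_simp
        linarith
      · change v 1 = v 1 / u 1 * u 1
        field_simp
      · change v 2 = v 1 / u 1 * u 2
        field_simp
        linarith
  · refine ⟨v 0 / u 0, ?_⟩
    ext i
    fin_cases i
    · change v 0 = v 0 / u 0 * u 0
      field_simp
    · change v 1 = v 0 / u 0 * u 1
      field_simp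
      linarith
    · change v 2 = v 0 / u 0 * u 2
      field_simp
      linarith

/-- Cramer: every vector is a combination of three independent ones. -/
theorem norm_cramer {u v w : Fin 3 → ℝ} (h : Matrix.det ![u, v, w] ≠ 0) (x : Fin 3 → ℝ) :
    x = (Matrix.det ![x, v, w] / Matrix.det ![u, v, w]) • u +
      (Matrix.det ![u, x, w] / Matrix.det ![u, v, w]) • v +
      (Matrix.det ![u, v, x] / Matrix.det ![u, v, w]) • w := by
  ext i
  simp only [Pi.add_apply, Pi.smul_apply, smul_eq_mul]
  field_simp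
  simp only [Matrix.det_fin_three, Matrix.cons_val]
  fin_cases i
  · simp only [Fin.zero_eta]
    ring
  · simp only [Fin.mk_one]
    ring
  · simp only [Fin.reduceFinMk]
    ring

theorem norm_not_smul {u v w : Fin 3 → ℝ} (h : Matrix.det ![u, v, w] ≠ 0) :
    ¬ ∃ r : ℝ, v = r • u := by
  rintro ⟨r, rfl⟩
  apply h
  simp only [Matrix.det_fin_three, Matrix.cons_val, Pi.smul_apply, smul_eq_mul]
  ring

theorem exists_normal {Γ : ℂ → ℝ} (h : IsGauge Γ) {U : Ultrafilter ℕ}
    {St : (ℕ → P2) → (Fin 3 → ℝ) → Prop} (hc : Chart (radPlane Γ) U St) :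
    ∃ St' κ, Normal Γ U St' κ := by
  obtain ⟨o, ho⟩ := hc.tot (fun _ => org)
  obtain ⟨w0, hw0⟩ := hc.tot (fun _ => idl 0)
  have hw0n : w0 ≠ 0 := hc.ne _ _ hw0
  have hon : o ≠ 0 := hc.ne _ _ ho
  -- a second ideal point
  obtain ⟨w1, φ1, hw1, hw01⟩ : ∃ (w1 : Fin 3 → ℝ) (φ : ℕ → ℝ), St (fun n => idl (φ n)) w1 ∧
      ¬ ∃ r : ℝ, w1 = r • w0 := by
    obtain ⟨u, v, huv⟩ := norm_det_ne hw0n
    have huv' : Matrix.det ![u, v, w0] ≠ 0 := by
      have : Matrix.det ![u, v, w0] = Matrix.det ![w0, u, v] := by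
        simp only [Matrix.det_fin_three, Matrix.cons_val]
        ring
      rw [this]
      exact huv
    have hnp := norm_not_smul huv'
    have hu : u ≠ 0 := by
      rintro rfl
      apply huv'
      simp [Matrix.det_fin_three]
    have hv : v ≠ 0 := by
      rintro rfl
      exact hnp ⟨0, by simp⟩
    obtain ⟨P, hP⟩ := hc.ex u hu
    obtain ⟨Q, hQ⟩ := hc.ex v hv
    obtain ⟨φ, w, hw, hd⟩ := Chart.norm_join h hc hP hQ hnp
    refine ⟨w, φ, hw, ?_⟩
    rintro ⟨r, rfl⟩
    have hr : r ≠ 0 := by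
      rintro rfl
      exact hc.ne _ _ hw (by simp)
    have h1 : Matrix.det ![u, v, r • w0] = r * Matrix.det ![u, v, w0] := by
      simp only [Matrix.det_fin_three, Matrix.cons_val, Pi.smul_apply, smul_eq_mul]
      ring
    rw [h1] at hd
    exact (mul_ne_zero hr huv') hd
  -- the ideal sequences are in the plane
  have hin : ∀ (φ : ℕ → ℝ) v, St (fun n => idl (φ n)) v → Matrix.det ![w0, w1, v] = 0 := by
    intro φ v hv
    obtain ⟨C, hC, hφ⟩ := col_inf h
    refine hc.col _ _ _ w0 w1 v (Filter.Eventually.of_forall fun n => ?_) hw0 hw1 hv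
    exact ⟨C, hC, hφ _, hφ _, hφ _⟩
  obtain ⟨z, hz⟩ := norm_det_ne₂ hw0n hw01
  have hcomb : ∀ v : Fin 3 → ℝ, Matrix.det ![w0, w1, v] = 0 →
      ∃ a b : ℝ, v = a • w0 + b • w1 := by
    intro v hv
    have h1 := norm_cramer hz v
    rw [hv, zero_div, zero_smul, add_zero] at h1
    exact ⟨_, _, h1⟩
  have hex : ∀ v : Fin 3 → ℝ, v ≠ 0 → Matrix.det ![w0, w1, v] = 0 →
      ∃ φ : ℕ → ℝ, St (fun n => idl (φ n)) v := by
    intro v hv hvd
    obtain ⟨a, b, hab⟩ := hcomb v hvd
    have hz0 : z ≠ 0 := by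
      rintro rfl
      apply hz
      simp [Matrix.det_fin_three]
    have hnp : ¬ ∃ r : ℝ, v + z = r • z := by
      rintro ⟨r, hr⟩
      have h1 : v = (r - 1) • z := by
        rw [sub_smul, one_smul, ← hr, add_sub_cancel_right]
      have h2 : Matrix.det ![w0, w1, (r - 1) • z] = (r - 1) * Matrix.det ![w0, w1, z] := by
        simp only [Matrix.det_fin_three, Matrix.cons_val, Pi.smul_apply, smul_eq_mul]
        ring
      rw [h1, h2] at hvd
      have h3 : r - 1 = 0 := (mul_eq_zero.1 hvd).resolve_right hz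
      rw [h3, zero_smul] at h1
      exact hv h1
    have hvz : v + z ≠ 0 := by
      intro h0
      exact hnp ⟨0, by rw [h0, zero_smul]⟩
    obtain ⟨P, hP⟩ := hc.ex z hz0
    obtain ⟨Q, hQ⟩ := hc.ex (v + z) hvz
    obtain ⟨φ, y, hy, hd⟩ := Chart.norm_join h hc hP hQ hnp
    obtain ⟨c, d, hcd⟩ := hcomb y (hin φ y hy)
    -- `y` is parallel to `v`
    have h1 : (a * d - b * c) * Matrix.det ![w0, w1, z] = 0 := by
      rw [← hd, hcd, hab]
      simp only [Matrix.det_fin_three, Matrix.cons_val, Pi.add_apply, Pi.smul_apply, smul_eq_mul]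
      ring
    have h2 : a * d = b * c := by
      have := (mul_eq_zero.1 h1).resolve_right hz
      linarith
    have hy0 : y ≠ 0 := hc.ne _ _ hy
    have h3 : ∃ r : ℝ, r ≠ 0 ∧ v = r • y := by
      by_cases hcz : c = 0
      · have hdz : d ≠ 0 := by
          rintro rfl
          exact hy0 (by rw [hcd, hcz, zero_smul, zero_smul, add_zero])
        have haz : a = 0 := by
          rw [hcz, mul_zero] at h2
          exact (mul_eq_zero.1 h2).resolve_right hdz
        refine ⟨b / d, ?_, ?_⟩
        · intro h0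
          have hb : b = 0 := by
            rcases div_eq_zero_iff.1 h0 with h' | h'
            · exact h'
            · exact absurd h' hdz
          exact hv (by rw [hab, haz, hb, zero_smul, zero_smul, add_zero])
        · rw [hcd, hcz, hab, haz, zero_smul, zero_add, zero_add, smul_smul,
            div_mul_cancel₀ _ hdz]
      · have hb : b = a / c * d := by
          field_simp
          linarith
        refine ⟨a / c, ?_, ?_⟩
        · intro h0
          have ha : a = 0 := by
            rcases div_eq_zero_iff.1 h0 with h' | h'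
            · exact h'
            · exact absurd h' hcz
          exact hv (by rw [hab, hb, h0, ha, zero_smul, zero_mul, zero_smul, add_zero])
        · rw [hcd, hab, smul_add, smul_smul, smul_smul, div_mul_cancel₀ _ hcz, ← hb]
    exact ⟨φ, (hc.uniq _ y v hy).2 h3⟩
  -- the two cases
  by_cases hod : Matrix.det ![w0, w1, o] = 0
  · obtain ⟨a, b, hab⟩ := hcomb o hod
    -- a vector of the plane which is independent of `o`
    obtain ⟨x, hx, hxo⟩ : ∃ x : Fin 3 → ℝ, Matrix.det ![w0, w1, x] = 0 ∧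
        Matrix.det ![x, o, z] ≠ 0 := by
      by_cases ha : a = 0
      · have hb : b ≠ 0 := by
          rintro rfl
          exact hon (by rw [hab, ha, zero_smul, zero_smul, add_zero])
        refine ⟨w0, ?_, ?_⟩
        · simp only [Matrix.det_fin_three, Matrix.cons_val]
          ring
        · have : Matrix.det ![w0, o, z] = b * Matrix.det ![w0, w1, z] := by
            rw [hab, ha]
            simp only [Matrix.det_fin_three, Matrix.cons_val, Pi.add_apply, Pi.smul_apply,
              smul_eq_mul]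
            ring
          rw [this]
          exact mul_ne_zero hb hz
      · refine ⟨w1, ?_, ?_⟩
        · simp only [Matrix.det_fin_three, Matrix.cons_val]
          ring
        · have : Matrix.det ![w1, o, z] = -a * Matrix.det ![w0, w1, z] := by
            rw [hab]
            simp only [Matrix.det_fin_three, Matrix.cons_val, Pi.add_apply, Pi.smul_apply,
              smul_eq_mul]
            ring
          rw [this]
          exact mul_ne_zero (neg_ne_zero.2 ha) hz
    set M : Matrix (Fin 3) (Fin 3) ℝ := Matrix.transpose ![x, o, z] with hM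
    have hMd : M.det ≠ 0 := by
      rw [hM, Matrix.det_transpose]
      exact hxo
    have hMv : ∀ v : Fin 3 → ℝ, M.mulVec v = v 0 • x + v 1 • o + v 2 • z := by
      intro v
      ext i
      simp only [hM, Matrix.mulVec, dotProduct, Fin.sum_univ_three, Matrix.transpose_apply,
        Matrix.cons_val, Pi.add_apply, Pi.smul_apply, smul_eq_mul]
      ring
    have hdet : ∀ v : Fin 3 → ℝ, Matrix.det ![w0, w1, M.mulVec v] =
        v 2 * Matrix.det ![w0, w1, z] := by
      intro v
      have e : Matrix.det ![w0, w1, M.mulVec v] = v 0 * Matrix.det ![w0, w1, x] +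
          v 1 * Matrix.det ![w0, w1, o] + v 2 * Matrix.det ![w0, w1, z] := by
        rw [hMv]
        simp only [Matrix.det_fin_three, Matrix.cons_val, Pi.add_apply, Pi.smul_apply,
          smul_eq_mul]
        ring
      rw [e, hx, hod]
      ring
    have hcc := hc.norm_comp M hMd
    refine ⟨_, 0, hcc, Or.inl rfl, ?_, ?_, ?_⟩
    · rw [hMv]
      simpa using ho
    · intro φ v hv
      have h1 := hin φ _ hv
      rw [hdet] at h1
      exact (mul_eq_zero.1 h1).resolve_right hz
    · intro v hv hv2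
      refine hex _ ?_ ?_
      · intro h0
        have : M⁻¹.mulVec (M.mulVec v) = v := by
          rw [Matrix.mulVec_mulVec, Matrix.nonsing_inv_mul _ (isUnit_iff_ne_zero.2 hMd),
            Matrix.one_mulVec]
        rw [h0, Matrix.mulVec_zero] at this
        exact hv this.symm
      · rw [hdet, hv2, zero_mul]
  · set M : Matrix (Fin 3) (Fin 3) ℝ :=
      Matrix.transpose ![w0, w1, o - w1] with hM
    have hMd' : M.det = Matrix.det ![w0, w1, o] := by
      rw [hM, Matrix.det_transpose]
      simp only [Matrix.det_fin_three, Matrix.cons_val, Pi.sub_apply]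
      ring
    have hMd : M.det ≠ 0 := by
      rw [hMd']
      exact hod
    have hMv : ∀ v : Fin 3 → ℝ, M.mulVec v = v 0 • w0 + v 1 • w1 + v 2 • (o - w1) := by
      intro v
      ext i
      simp only [hM, Matrix.mulVec, dotProduct, Fin.sum_univ_three, Matrix.transpose_apply,
        Matrix.cons_val, Pi.add_apply, Pi.smul_apply, Pi.sub_apply, smul_eq_mul]
      ring
    have hdet : ∀ v : Fin 3 → ℝ, Matrix.det ![w0, w1, M.mulVec v] =
        v 2 * Matrix.det ![w0, w1, o] := by
      intro v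
      rw [hMv]
      simp only [Matrix.det_fin_three, Matrix.cons_val, Pi.add_apply, Pi.smul_apply,
        Pi.sub_apply, smul_eq_mul]
      ring
    have hcc := hc.norm_comp M hMd
    refine ⟨_, 1, hcc, Or.inr rfl, ?_, ?_, ?_⟩
    · rw [hMv]
      simpa using ho
    · intro φ v hv
      have h1 := hin φ _ hv
      rw [hdet] at h1
      exact (mul_eq_zero.1 h1).resolve_right hod
    · intro v hv hv2
      refine hex _ ?_ ?_
      · intro h0
        have : M⁻¹.mulVec (M.mulVec v) = v := by
          rw [Matrix.mulVec_mulVec, Matrix.nonsing_inv_mul _ (isUnit_iff_ne_zero.2 hMd),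
            Matrix.one_mulVec]
        rw [h0, Matrix.mulVec_zero] at this
        exact hv this.symm
      · rw [hdet, hv2, zero_mul]

end Pool.Agent.Helper5.WP
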