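import Pool.Agent.Helper5.WP.ProfDef

/-! # Project WP, module J3: a line and a `3 × 3` grid -/

set_option autoImplicit false

namespace Pool.Agent.Helper5.WP

/-- A cell of the grid. -/
noncomputable def cell (x m : Fin 4 → ℝ) (q : ℝ) (i j : Fin 3) : ℝ :=
  kap (x i.castSucc) (x i.succ) (m j.castSucc) (m j.succ) q

/-- The two corners of the grid which a line may cut without crossing a strip. -/
def corner (i j : Fin 3) : Prop := (i = 0 ∧ j = 2) ∨ (i = 2 ∧ j = 0)

private theorem clamp_sub {a b c d : ℝ} (hab : a ≤ b) (hcd : c ≤ d) :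
    max 0 (min b d - max a c) = max a (min b d) - max a (min b c) := by
  rcases le_total b d with h1 | h1 <;> rcases le_total a c with h2 | h2 <;>
    rcases le_total b c with h3 | h3 <;> rcases le_total a d with h4 | h4 <;>
    simp only [min_eq_left, min_eq_right, max_eq_left, max_eq_right, h1, h2, h3, h4, hab] <;>
    first
      | rw [max_eq_left (by linarith)]; linarith
      | rw [max_eq_right (by linarith)]; linarith
      | rw [max_eq_right (by linarith)]

private theorem sum_clamp {a b c₀ c₁ c₂ c₃ : ℝ} (hab : a ≤ b) (h0 : c₀ ≤ c₁) (h1 : c₁ ≤ c₂)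
    (h2 : c₂ ≤ c₃) (ha : c₀ ≤ a) (hb : b ≤ c₃) :
    max 0 (min b c₁ - max a c₀) + max 0 (min b c₂ - max a c₁) + max 0 (min b c₃ - max a c₂) =
      b - a := by
  rw [clamp_sub hab h0, clamp_sub hab h1, clamp_sub hab h2, min_eq_left hb, max_eq_right hab,
    max_eq_left ((min_le_right _ _).trans ha)]
  ring

/-- If the line crosses the strip `i` completely, then the lengths in the cells of the strip sum up
to the width of the strip. -/
theorem sum_row {x m : Fin 4 → ℝ} (hx : StrictMono x) (hm : StrictMono m) {q : ℝ} {i : Fin 3}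
    (h1 : m 0 + q ≤ x i.castSucc) (h2 : x i.succ ≤ m 3 + q) :
    cell x m q i 0 + cell x m q i 1 + cell x m q i 2 = x i.succ - x i.castSucc := by
  have hi : x i.castSucc ≤ x i.succ := (hx i.castSucc_lt_succ).le
  have h01 : m 0 + q ≤ m 1 + q := by linarith [hm (show (0 : Fin 4) < 1 by decide)]
  have h12 : m 1 + q ≤ m 2 + q := by linarith [hm (show (1 : Fin 4) < 2 by decide)]
  have h23 : m 2 + q ≤ m 3 + q := by linarith [hm (show (2 : Fin 4) < 3 by decide)]
  exact sum_clamp hi h01 h12 h23 h1 h2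

theorem sum_col {x m : Fin 4 → ℝ} (hx : StrictMono x) (hm : StrictMono m) {q : ℝ} {j : Fin 3}
    (h1 : x 0 ≤ m j.castSucc + q) (h2 : m j.succ + q ≤ x 3) :
    cell x m q 0 j + cell x m q 1 j + cell x m q 2 j = m j.succ - m j.castSucc := by
  have hj : m j.castSucc + q ≤ m j.succ + q := by linarith [hm j.castSucc_lt_succ]
  have h01 : x 0 ≤ x 1 := (hx (show (0 : Fin 4) < 1 by decide)).le
  have h12 : x 1 ≤ x 2 := (hx (show (1 : Fin 4) < 2 by decide)).le
  have h23 : x 2 ≤ x 3 := (hx (show (2 : Fin 4) < 3 by decide)).le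
  have h := sum_clamp hj h01 h12 h23 h1 h2
  have e : ∀ a b c d : ℝ, kap a b c d q = max 0 (min (d + q) b - max (c + q) a) := by
    intro a b c d
    rw [kap, min_comm, max_comm a]
  have e0 : cell x m q 0 j = max 0 (min (m j.succ + q) (x 1) - max (m j.castSucc + q) (x 0)) :=
    e _ _ _ _
  have e1 : cell x m q 1 j = max 0 (min (m j.succ + q) (x 2) - max (m j.castSucc + q) (x 1)) :=
    e _ _ _ _
  have e2 : cell x m q 2 j = max 0 (min (m j.succ + q) (x 3) - max (m j.castSucc + q) (x 2)) :=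
    e _ _ _ _
  rw [e0, e1, e2, h]
  ring

private theorem cell_eq_zero {x m : Fin 4 → ℝ} {q : ℝ} {i j : Fin 3}
    (h : x i.succ ≤ m j.castSucc + q ∨ m j.succ + q ≤ x i.castSucc) : cell x m q i j = 0 := by
  apply max_eq_left
  rcases h with h | h
  · have h1 := min_le_left (x i.succ) (m j.succ + q)
    have h2 := le_max_right (x i.castSucc) (m j.castSucc + q)
    linarith
  · have h1 := min_le_right (x i.succ) (m j.succ + q)
    have h2 := le_max_left (x i.castSucc) (m j.castSucc + q)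
    linarith

/-- A line which is not only in the two corners crosses some strip completely, and misses some cell
of this strip which is not a corner. -/
theorem exists_strip {x m : Fin 4 → ℝ} (hx : StrictMono x) (hm : StrictMono m) {q : ℝ}
    (h1 : x 0 - m 2 < q ∨ x 1 - m 3 < q) (h2 : q < x 3 - m 1 ∨ q < x 2 - m 0) :
    (∃ i : Fin 3, m 0 + q ≤ x i.castSucc ∧ x i.succ ≤ m 3 + q ∧
      ∃ j, ¬ corner i j ∧ cell x m q i j = 0) ∨
    (∃ j : Fin 3, x 0 ≤ m j.castSucc + q ∧ m j.succ + q ≤ x 3 ∧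
      ∃ i, ¬ corner i j ∧ cell x m q i j = 0) := by
  have hx01 := hx (show (0 : Fin 4) < 1 by decide)
  have hx12 := hx (show (1 : Fin 4) < 2 by decide)
  have hx23 := hx (show (2 : Fin 4) < 3 by decide)
  have hm01 := hm (show (0 : Fin 4) < 1 by decide)
  have hm12 := hm (show (1 : Fin 4) < 2 by decide)
  have hm23 := hm (show (2 : Fin 4) < 3 by decide)
  have row : ∀ i j : Fin 3, m 0 + q ≤ x i.castSucc → x i.succ ≤ m 3 + q → ¬ corner i j →
      (x i.succ ≤ m j.castSucc + q ∨ m j.succ + q ≤ x i.castSucc) →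
      (∃ i : Fin 3, m 0 + q ≤ x i.castSucc ∧ x i.succ ≤ m 3 + q ∧
        ∃ j, ¬ corner i j ∧ cell x m q i j = 0) ∨
      (∃ j : Fin 3, x 0 ≤ m j.castSucc + q ∧ m j.succ + q ≤ x 3 ∧
        ∃ i, ¬ corner i j ∧ cell x m q i j = 0) :=
    fun i j a b c d => Or.inl ⟨i, a, b, j, c, cell_eq_zero d⟩
  have col : ∀ i j : Fin 3, x 0 ≤ m j.castSucc + q → m j.succ + q ≤ x 3 → ¬ corner i j →
      (x i.succ ≤ m j.castSucc + q ∨ m j.succ + q ≤ x i.castSucc) →
      (∃ i : Fin 3, m 0 + q ≤ x i.castSucc ∧ x i.succ ≤ m 3 + q ∧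
        ∃ j, ¬ corner i j ∧ cell x m q i j = 0) ∨
      (∃ j : Fin 3, x 0 ≤ m j.castSucc + q ∧ m j.succ + q ≤ x 3 ∧
        ∃ i, ¬ corner i j ∧ cell x m q i j = 0) :=
    fun i j a b c d => Or.inr ⟨j, a, b, i, c, cell_eq_zero d⟩
  by_cases ha : m 0 + q ≤ x 1 ∧ x 2 ≤ m 3 + q
  · obtain ⟨ha, hb⟩ := ha
    by_cases hc : m 1 + q ≤ x 1
    · exact row 1 0 ha hb (by simp [corner]) (Or.inr hc)
    by_cases hd : x 2 ≤ m 2 + q
    · exact row 1 2 ha hb (by simp [corner]) (Or.inl hd)
    push Not at hc hd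
    exact col 0 1 (show x 0 ≤ m 1 + q by linarith) (show m 2 + q ≤ x 3 by linarith)
      (by simp [corner]) (Or.inl (show x 1 ≤ m 1 + q by linarith))
  by_cases hb : x 0 ≤ m 1 + q ∧ m 2 + q ≤ x 3
  · obtain ⟨hb, hc⟩ := hb
    by_cases hd : x 1 ≤ m 1 + q
    · exact col 0 1 hb hc (by simp [corner]) (Or.inl hd)
    by_cases he : m 2 + q ≤ x 2
    · exact col 2 1 hb hc (by simp [corner]) (Or.inr he)
    push Not at hd he
    exact row 1 0 (show m 0 + q ≤ x 1 by linarith) (show x 2 ≤ m 3 + q by linarith)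
      (by simp [corner]) (Or.inr (show m 1 + q ≤ x 1 by linarith))
  have ha' : x 1 < m 0 + q ∨ m 3 + q < x 2 := by
    by_contra h
    push Not at h
    exact ha h
  have hb' : m 1 + q < x 0 ∨ x 3 < m 2 + q := by
    by_contra h
    push Not at h
    exact hb h
  rcases ha' with ha' | ha' <;> rcases hb' with hb' | hb'
  · linarith
  · by_cases hc : m 0 + q ≤ x 2
    · exact row 2 2 hc (show x 3 ≤ m 3 + q by linarith)
        (by simp [corner]) (Or.inl (show x 3 ≤ m 2 + q by linarith))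
    · push Not at hc
      refine col 0 0 (show x 0 ≤ m 0 + q by linarith) (show m 1 + q ≤ x 3 from ?_)
        (by simp [corner]) (Or.inl (show x 1 ≤ m 0 + q by linarith))
      rcases h2 with h2 | h2 <;> linarith
  · by_cases hc : x 1 ≤ m 3 + q
    · exact row 0 0 (show m 0 + q ≤ x 0 by linarith) hc
        (by simp [corner]) (Or.inr (show m 1 + q ≤ x 0 by linarith))
    · push Not at hc
      refine col 2 2 (show x 0 ≤ m 2 + q from ?_) (show m 3 + q ≤ x 3 by linarith)
        (by simp [corner]) (Or.inr (show m 3 + q ≤ x 2 by linarith))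
      rcases h1 with h1 | h1 <;> linarith
  · linarith

end Pool.Agent.Helper5.WP
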