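import Pool.Agent.Helper5.WP.ProfMix
import Pool.Agent.Helper5.WP.ProfComb

/-! # Project WP, module J4: a profile without regular grids -/

set_option autoImplicit false

namespace Pool.Agent.Helper5.WP

open Metric Set Topology

private theorem hasSum_tail (N : ℤ) (g : ℝ) :
    HasSum (fun k : ℤ => if N < k then (10 : ℝ) ^ (-k) * g else 0) ((10 : ℝ) ^ (-N) * g / 9) := by
  have hinj : Function.Injective (fun n : ℕ => N + 1 + (n : ℤ)) := by
    intro a b hab
    simp only at hab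
    omega
  rw [← hinj.hasSum_iff]
  · have h1 : HasSum (fun n : ℕ => (10 : ℝ) ^ (-(N + 1)) * g * ((1 / 10 : ℝ)) ^ n)
        ((10 : ℝ) ^ (-(N + 1)) * g * (1 - 1 / 10)⁻¹) :=
      (hasSum_geometric_of_lt_one (by norm_num) (by norm_num)).mul_left _
    have e1 : (10 : ℝ) ^ (-(N + 1)) * g * (1 - 1 / 10)⁻¹ = (10 : ℝ) ^ (-N) * g / 9 := by
      rw [neg_add, zpow_add₀ (by norm_num : (10 : ℝ) ≠ 0)]
      norm_num
      ring
    rw [e1] at h1
    refine h1.congr_fun ?_
    intro n
    have hlt : N < N + 1 + (n : ℤ) := by omega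
    simp only [Function.comp_apply, if_pos hlt]
    rw [neg_add, zpow_add₀ (by norm_num : (10 : ℝ) ≠ 0) (-(N + 1)) (-(n : ℤ)), zpow_neg _ (n : ℤ),
      zpow_natCast, one_div, inv_pow]
    ring
  · intro k hk
    have : ¬ N < k := by
      intro hlt
      apply hk
      refine ⟨(k - (N + 1)).toNat, ?_⟩
      simp only
      omega
    rw [if_neg this]

private theorem tail_bound {f : ℤ → ℝ} {M g : ℝ} {N : ℤ} (hf : HasSum f M)
    (h : ∀ k, f k ≤ if N < k then (10 : ℝ) ^ (-k) * g else 0) : M ≤ (10 : ℝ) ^ (-N) * g / 9 :=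
  hasSum_le h hf (hasSum_tail N g)

private theorem one_le {f : ℤ → ℝ} {M : ℝ} (hf : HasSum f M) (h0 : ∀ k, 0 ≤ f k) (N : ℤ) :
    f N ≤ M :=
  le_hasSum hf N fun k _ => h0 k

theorem grid_prof : Grid prof := by
  intro θ φ hθ hφ hθφ
  by_contra hcon
  push Not at hcon
  have hlt : ∀ i j k l, mass prof θ φ i j < 2 * mass prof θ φ k l := fun i j k l => hcon i j k l
  have t01 := hθ (show (0 : Fin 4) < 1 by decide)
  have t12 := hθ (show (1 : Fin 4) < 2 by decide)
  have t23 := hθ (show (2 : Fin 4) < 3 by decide)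
  have p01 := hφ (show (0 : Fin 4) < 1 by decide)
  have p12 := hφ (show (1 : Fin 4) < 2 by decide)
  have p23 := hφ (show (2 : Fin 4) < 3 by decide)
  -- the masses as sums
  have hsum : ∀ i j : Fin 3, HasSum (fun k : ℤ => (10 : ℝ) ^ (-k) * cell θ φ (pos k) i j)
      (mass prof θ φ i j) := fun i j =>
    hasSum_mix (hθ i.castSucc_lt_succ).le (hφ j.castSucc_lt_succ).le
      (abs_lt.1 (hθφ i.castSucc j.succ)).1 (abs_lt.1 (hθφ i.succ j.castSucc)).2
  have hnn : ∀ (i j : Fin 3) (k : ℤ), 0 ≤ (10 : ℝ) ^ (-k) * cell θ φ (pos k) i j :=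
    fun i j k => mul_nonneg (by positivity) (kap_nonneg _ _ _ _ _)
  -- the window
  have hS : ∃ k : ℤ, (θ 0 - φ 2 < pos k ∨ θ 1 - φ 3 < pos k) ∧
      (pos k < θ 3 - φ 1 ∨ pos k < θ 2 - φ 0) := by
    obtain ⟨k, hk1, hk2⟩ := exists_pos (u := θ 0 - φ 2) (v := θ 3 - φ 1) (by linarith)
      (abs_lt.1 (hθφ 0 2)).1.le (abs_lt.1 (hθφ 3 1)).2.le
    exact ⟨k, Or.inl hk1, Or.inl hk2⟩
  have hB : ∃ b : ℤ, ∀ k : ℤ, ((θ 0 - φ 2 < pos k ∨ θ 1 - φ 3 < pos k) ∧
      (pos k < θ 3 - φ 1 ∨ pos k < θ 2 - φ 0)) → b ≤ k := by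
    obtain ⟨N, hN⟩ := bdd_pos (u := min (θ 0 - φ 2) (θ 1 - φ 3))
      (v := max (θ 3 - φ 1) (θ 2 - φ 0))
      (lt_min (abs_lt.1 (hθφ 0 2)).1 (abs_lt.1 (hθφ 1 3)).1)
      (max_lt (abs_lt.1 (hθφ 3 1)).2 (abs_lt.1 (hθφ 2 0)).2)
    exact ⟨N, fun k hk => hN k (min_lt_iff.2 hk.1) (lt_max_iff.2 hk.2)⟩
  obtain ⟨N, hN, hmin⟩ := Int.exists_least_of_bdd hB hS
  -- a cell which is not a corner has its range in the window
  have hwin : ∀ (i j : Fin 3) (k : ℤ), ¬ corner i j → cell θ φ (pos k) i j ≠ 0 → N ≤ k := by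
    intro i j k hc hne
    obtain ⟨h1, h2⟩ := kap_ne_zero hne
    apply hmin
    have c1 : θ 0 - φ 2 ≤ θ i.castSucc - φ j.succ ∨ θ 1 - φ 3 ≤ θ i.castSucc - φ j.succ := by
      fin_cases i <;> fin_cases j <;> simp [corner] at hc ⊢ <;>
        first
          | (left; linarith)
          | (right; linarith)
    have c2 : θ i.succ - φ j.castSucc ≤ θ 3 - φ 1 ∨ θ i.succ - φ j.castSucc ≤ θ 2 - φ 0 := by
      fin_cases i <;> fin_cases j <;> simp [corner] at hc ⊢ <;>
        first
          | (left; linarith)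
          | (right; linarith)
    refine ⟨?_, ?_⟩
    · rcases c1 with c1 | c1
      · exact Or.inl (lt_of_le_of_lt c1 h1)
      · exact Or.inr (lt_of_le_of_lt c1 h1)
    · rcases c2 with c2 | c2
      · exact Or.inl (lt_of_lt_of_le h2 c2)
      · exact Or.inr (lt_of_lt_of_le h2 c2)
  have hp : (0 : ℝ) < (10 : ℝ) ^ (-N) := by positivity
  rcases exists_strip hθ hφ hN.1 hN.2 with ⟨i, h1, h2, j, hc, h0⟩ | ⟨j, h1, h2, i, hc, h0⟩
  · have hgap : 0 < θ i.succ - θ i.castSucc := sub_pos.2 (hθ i.castSucc_lt_succ)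
    have hrow := sum_row hθ hφ h1 h2
    have hm : mass prof θ φ i j ≤ (10 : ℝ) ^ (-N) * (θ i.succ - θ i.castSucc) / 9 := by
      refine tail_bound (hsum i j) fun k => ?_
      by_cases hk : N < k
      · rw [if_pos hk]
        exact mul_le_mul_of_nonneg_left (kap_le_left (hθ i.castSucc_lt_succ).le _ _ _)
          (by positivity)
      · rw [if_neg hk]
        by_cases hz : cell θ φ (pos k) i j = 0
        · rw [hz, mul_zero]
        · exfalso
          have hle := hwin i j k hc hz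
          have : k = N := by omega
          rw [this] at hz
          exact hz h0
    have g0 := one_le (hsum i 0) (hnn i 0) N
    have g1 := one_le (hsum i 1) (hnn i 1) N
    have g2 := one_le (hsum i 2) (hnn i 2) N
    have e := congrArg (fun x => (10 : ℝ) ^ (-N) * x) hrow
    simp only [mul_add] at e
    have l0 := hlt i 0 i j
    have l1 := hlt i 1 i j
    have l2 := hlt i 2 i j
    have hpos := mul_pos hp hgap
    linarith
  · have hgap : 0 < φ j.succ - φ j.castSucc := sub_pos.2 (hφ j.castSucc_lt_succ)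
    have hcol := sum_col hθ hφ h1 h2
    have hm : mass prof θ φ i j ≤ (10 : ℝ) ^ (-N) * (φ j.succ - φ j.castSucc) / 9 := by
      refine tail_bound (hsum i j) fun k => ?_
      by_cases hk : N < k
      · rw [if_pos hk]
        exact mul_le_mul_of_nonneg_left (kap_le_right (hφ j.castSucc_lt_succ).le _ _ _)
          (by positivity)
      · rw [if_neg hk]
        by_cases hz : cell θ φ (pos k) i j = 0
        · rw [hz, mul_zero]
        · exfalso
          have hle := hwin i j k hc hz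
          have : k = N := by omega
          rw [this] at hz
          exact hz h0
    have g0 := one_le (hsum 0 j) (hnn 0 j) N
    have g1 := one_le (hsum 1 j) (hnn 1 j) N
    have g2 := one_le (hsum 2 j) (hnn 2 j) N
    have e := congrArg (fun x => (10 : ℝ) ^ (-N) * x) hcol
    simp only [mul_add] at e
    have l0 := hlt 0 j i j
    have l1 := hlt 1 j i j
    have l2 := hlt 2 j i j
    have hpos := mul_pos hp hgap
    linarith

theorem exists_prof : ∃ F : ℝ → ℝ, IsProf F ∧ Grid F :=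
  ⟨prof, isProf_prof, grid_prof⟩

end Pool.Agent.Helper5.WP
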