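import Pool.Agent.Helper5.WP.Defs

/-! # Project WP, module L: random straight lines are dense -/

set_option autoImplicit false

namespace Pool.Agent.Helper5.WP

open Pool.Agent.Helper7.TP Metric Set Topology MeasureTheory
open Filter (Tendsto atTop atBot)

/-- A ball is almost surely hit by a random sequence. -/
theorem ae_hit {μ : Measure S2} [IsProbabilityMeasure μ] {B : Set S2} (hB : IsOpen B)
    (h0 : 0 < μ B) : ∀ᵐ ω ∂(Measure.infinitePi fun _ : ℕ => μ), ∃ i : ℕ, ω i ∈ B := by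
  rw [ae_iff]
  have h1 : ∀ n : ℕ, (Measure.infinitePi fun _ : ℕ => μ) {ω | ¬ ∃ i : ℕ, ω i ∈ B} ≤
      (μ Bᶜ) ^ n := by
    intro n
    calc (Measure.infinitePi fun _ : ℕ => μ) {ω | ¬ ∃ i : ℕ, ω i ∈ B}
        ≤ (Measure.infinitePi fun _ : ℕ => μ) (Set.pi (Finset.range n) fun _ => Bᶜ) := by
          apply measure_mono
          intro ω hω i _
          exact fun h => hω ⟨i, h⟩
      _ = (μ Bᶜ) ^ n := by
          rw [Measure.infinitePi_pi _ (fun _ _ => hB.measurableSet.compl), Finset.prod_const,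
            Finset.card_range]
  have h2 : μ Bᶜ < 1 := by
    rw [prob_compl_eq_one_sub hB.measurableSet]
    exact ENNReal.sub_lt_self ENNReal.one_ne_top one_ne_zero h0.ne'
  have h3 := ENNReal.tendsto_pow_atTop_nhds_zero_of_lt_one h2
  exact le_antisymm (ge_of_tendsto' h3 h1) (zero_le)

theorem ae_dense {μ : Measure S2} [IsProbabilityMeasure μ]
    (hμ : ∀ V : Set S2, IsOpen V → V.Nonempty → 0 < μ V) {δ : ℝ} (hδ : 0 < δ) :
    ∀ᵐ ω ∂(Measure.infinitePi fun _ : ℕ => μ), ∀ᶠ n in atTop, ∀ m : S2, ∃ i : Fin n,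
      ‖((ω i : S2) : E3) - m‖ < δ := by
  obtain ⟨t, ht⟩ := (isCompact_univ (X := S2)).elim_finite_subcover
    (fun c : S2 => ball c (δ / 2)) (fun c => isOpen_ball) (fun c _ => mem_iUnion.2
      ⟨c, mem_ball_self (by positivity)⟩)
  have h1 : ∀ᵐ ω ∂(Measure.infinitePi fun _ : ℕ => μ), ∀ c ∈ t, ∃ i : ℕ, ω i ∈ ball c (δ / 2) := by
    rw [Filter.eventually_all_finset]
    intro c _
    exact ae_hit isOpen_ball (hμ _ isOpen_ball ⟨c, mem_ball_self (by positivity)⟩)
  filter_upwards [h1] with ω hω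
  choose! f hf using hω
  filter_upwards [Filter.eventually_gt_atTop (t.sup f)] with n hn m
  obtain ⟨c, hc, hm⟩ : ∃ c ∈ t, m ∈ ball c (δ / 2) := by
    have := ht (mem_univ m)
    simpa using this
  have hfn : f c < n := lt_of_le_of_lt (Finset.le_sup hc) hn
  refine ⟨⟨f c, hfn⟩, ?_⟩
  have h2 := hf c hc
  rw [mem_ball, Subtype.dist_eq, dist_eq_norm] at hm h2
  calc ‖((ω (f c) : S2) : E3) - m‖ = ‖(((ω (f c) : S2) : E3) - c) - ((m : E3) - c)‖ := by
        rw [sub_sub_sub_cancel_right]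
    _ ≤ ‖((ω (f c) : S2) : E3) - c‖ + ‖(m : E3) - c‖ := norm_sub_le _ _
    _ < δ := by linarith

end Pool.Agent.Helper5.WP
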