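import Pool.Agent.Helper5.WP.Chart
import Pool.Agent.Helper5.WP.Norm
import Pool.Agent.Helper5.WP.NoNorm
import Pool.Agent.Helper5.WP.Prof
import Pool.Agent.Helper5.WP.Gam
import Pool.Agent.Helper5.WP.Dense
import Pool.Agent.Helper5.WP.Random

/-! # Project WP: the main theorem -/

set_option autoImplicit false

namespace Pool.Agent.Helper5.WP

open Pool.Agent.Helper7.TP Metric Set Topology MeasureTheory
open Filter (Tendsto atTop atBot)

theorem grid_congr {F f : ℝ → ℝ} (h : ∀ t, |t| < Real.pi / 2 → f t = F t) (hF : Grid F) :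
    Grid f := by
  intro θ φ hθ hφ hd
  obtain ⟨i, j, k, l, hm⟩ := hF θ φ hθ hφ hd
  refine ⟨i, j, k, l, ?_⟩
  unfold mass at hm ⊢
  rw [h _ (hd _ _), h _ (hd _ _), h _ (hd _ _), h _ (hd _ _), h _ (hd _ _), h _ (hd _ _),
    h _ (hd _ _), h _ (hd _ _)]
  exact hm

/-- Arrangements of straight lines which are sufficiently dense are not present in the radial
plane. -/
theorem main_dense {Γ : ℂ → ℝ} (h : IsGauge Γ) (hg : Grid fun t => Real.log (ang Γ t)) :
    ∃ δ > 0, ∀ 𝒜 : Set (Set P2), (∀ m : S2, ∃ l : S2, straight l ∈ 𝒜 ∧ ‖(l : E3) - m‖ < δ) →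
      ¬ Present 𝒜 (radPlane Γ) := by
  by_contra hcon
  push Not at hcon
  have h1 : ∀ n : ℕ, ∃ 𝒜 : Set (Set P2),
      (∀ m : S2, ∃ l : S2, straight l ∈ 𝒜 ∧ ‖(l : E3) - m‖ < 1 / ((n : ℝ) + 1)) ∧
        Present 𝒜 (radPlane Γ) := fun n => hcon _ (by positivity)
  choose 𝒜 h2 h3 using h1
  choose ℬ h4 h5 e h6 using h3
  have he : Copies (radPlane Γ) e := by
    rintro V hV ⟨m, hm⟩
    obtain ⟨ε, hε, hball⟩ := Metric.isOpen_iff.1 hV m hm
    obtain ⟨N, hN⟩ := exists_nat_one_div_lt hε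
    filter_upwards [Filter.eventually_ge_atTop N] with n hn
    obtain ⟨l, hl, hlm⟩ := h2 n m
    refine ⟨l, hball ?_, h4 n ?_⟩
    · rw [Metric.mem_ball, Subtype.dist_eq, dist_eq_norm]
      refine hlm.trans (lt_of_le_of_lt ?_ hN)
      have : (N : ℝ) ≤ n := by exact_mod_cast hn
      gcongr
    · rw [← h6 n]
      exact mem_image_of_mem _ hl
  have hT : IsTPP (radPlane Γ) := isTPP_incPlane (isInc_HG h)
  obtain ⟨St, hSt⟩ := exists_chart hT he (U := Filter.hyperfilter ℕ) Nat.hyperfilter_le_atTop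
  obtain ⟨St', κ, hn⟩ := exists_normal h hSt
  exact no_normal h hg hn

/-- There is a topological projective plane in which sufficiently dense arrangements of straight
lines are not present; in particular random arrangements of straight lines are not present, and a
simple arrangement of straight lines is not present. -/
theorem main : ∃ 𝓛 : Set (Set P2), IsTPP 𝓛 ∧
    (∃ δ > 0, ∀ 𝒜 : Set (Set P2), (∀ m : S2, ∃ l : S2, straight l ∈ 𝒜 ∧ ‖(l : E3) - m‖ < δ) →
      ¬ Present 𝒜 𝓛) ∧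
    (∀ μ : Measure S2, IsProbabilityMeasure μ →
      (∀ V : Set S2, IsOpen V → V.Nonempty → 0 < μ V) →
      ∀ᵐ ω ∂(Measure.infinitePi fun _ : ℕ => μ), ∀ᶠ n in atTop,
        ¬ Present (range fun i : Fin n => straight (ω i)) 𝓛) ∧
    ∃ (n : ℕ) (l : Fin n → S2), IsArrangement (range fun i => straight (l i)) ∧
      (∀ x, {C ∈ range fun i => straight (l i) | x ∈ C}.ncard ≤ 2) ∧
      ¬ Present (range fun i => straight (l i)) 𝓛 := by
  obtain ⟨F, hF, hgrid⟩ := exists_prof
  have hΓ := isGauge_gam hF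
  have hg : Grid fun t => Real.log (ang (gam F) t) :=
    grid_congr (fun t ht => by rw [ang_gam F ht, Real.log_exp]) hgrid
  obtain ⟨δ, hδ, hd⟩ := main_dense hΓ hg
  refine ⟨radPlane (gam F), isTPP_incPlane (isInc_HG hΓ), ⟨δ, hδ, hd⟩, ?_, ?_⟩
  · intro μ hμ hpos
    filter_upwards [ae_dense hpos hδ] with ω hω
    filter_upwards [hω] with n hn
    refine hd _ fun m => ?_
    obtain ⟨i, hi⟩ := hn m
    exact ⟨ω i, mem_range_self i, hi⟩
  · obtain ⟨n, l, h1, h2, h3⟩ := exists_dense_simple hδ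
    refine ⟨n, l, h1, h2, hd _ fun m => ?_⟩
    obtain ⟨i, hi⟩ := h3 m
    exact ⟨l i, mem_range_self i, hi⟩

end Pool.Agent.Helper5.WP
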