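import Pool.Agent.Helper5.WP.Ang

/-! # Project WP, module I1: grids and signs -/

set_option autoImplicit false

namespace Pool.Agent.Helper5.WP

open Pool.Agent.Helper7.TP Metric Set Topology

/-- The ratio of a cell. -/
noncomputable def rat (Γ : ℂ → ℝ) (a b c d : ℝ) : ℝ :=
  ang Γ (b - d) * ang Γ (a - c) / (ang Γ (b - c) * ang Γ (a - d))

theorem ang_pos_of_abs {Γ : ℂ → ℝ} (h : IsGauge Γ) {t : ℝ} (ht : |t| < Real.pi / 2) :
    0 < ang Γ t := by
  rw [ang_pos h]
  rw [abs_lt] at ht
  exact Real.cos_pos_of_mem_Ioo ht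

theorem rat_pos {Γ : ℂ → ℝ} (h : IsGauge Γ) {a b c d : ℝ} (h1 : |a - c| < Real.pi / 2)
    (h2 : |a - d| < Real.pi / 2) (h3 : |b - c| < Real.pi / 2) (h4 : |b - d| < Real.pi / 2) :
    0 < rat Γ a b c d := by
  have := ang_pos_of_abs h h1
  have := ang_pos_of_abs h h2
  have := ang_pos_of_abs h h3
  have := ang_pos_of_abs h h4
  unfold rat
  positivity

theorem rat_gt {Γ : ℂ → ℝ} (h : IsGauge Γ) {a b c d : ℝ} (h1 : |a - c| < Real.pi / 2)
    (h2 : |a - d| < Real.pi / 2) (h3 : |b - c| < Real.pi / 2) (h4 : |b - d| < Real.pi / 2)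
    (hab : a < b) (hcd : c < d) : 1 < rat Γ a b c d := by
  have p1 := ang_pos_of_abs h h1
  have p2 := ang_pos_of_abs h h2
  have p3 := ang_pos_of_abs h h3
  have p4 := ang_pos_of_abs h h4
  unfold rat
  rw [one_lt_div (by positivity)]
  have := h.mix a b c d hab hcd (abs_lt.1 h2).1 (abs_lt.1 h3).2
  nlinarith

theorem rat_swap_left (Γ : ℂ → ℝ) (a b c d : ℝ) : rat Γ b a c d = (rat Γ a b c d)⁻¹ := by
  unfold rat
  rw [inv_div]
  ring

theorem rat_swap_right (Γ : ℂ → ℝ) (a b c d : ℝ) : rat Γ a b d c = (rat Γ a b c d)⁻¹ := by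
  unfold rat
  rw [inv_div]

/-- The sign of the logarithm of the ratio. -/
theorem rat_sign {Γ : ℂ → ℝ} (h : IsGauge Γ) {a b c d : ℝ} (h1 : |a - c| < Real.pi / 2)
    (h2 : |a - d| < Real.pi / 2) (h3 : |b - c| < Real.pi / 2) (h4 : |b - d| < Real.pi / 2) :
    (1 < rat Γ a b c d → 0 < (b - a) * (d - c)) ∧ (rat Γ a b c d < 1 → (b - a) * (d - c) < 0) := by
  have p1 := ang_pos_of_abs h h1
  have p2 := ang_pos_of_abs h h2
  have p3 := ang_pos_of_abs h h3
  have p4 := ang_pos_of_abs h h4
  have key : ∀ {a b c d : ℝ}, |a - c| < Real.pi / 2 → |a - d| < Real.pi / 2 →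
      |b - c| < Real.pi / 2 → |b - d| < Real.pi / 2 → a < b → c < d → 1 < rat Γ a b c d :=
    fun h1 h2 h3 h4 => rat_gt h h1 h2 h3 h4
  rcases lt_trichotomy a b with hab | hab | hab
  · rcases lt_trichotomy c d with hcd | hcd | hcd
    · have := key h1 h2 h3 h4 hab hcd
      refine ⟨fun _ => by nlinarith [mul_pos (sub_pos.2 hab) (sub_pos.2 hcd)],
        fun h' => absurd h' (by linarith)⟩
    · subst hcd
      have : rat Γ a b c c = 1 := by
        unfold rat
        rw [div_self (mul_pos p3 p1).ne']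
      refine ⟨fun h' => absurd h' (by linarith), fun h' => absurd h' (by linarith)⟩
    · have := key h2 h1 h4 h3 hab hcd
      rw [rat_swap_right] at this
      have hp := rat_pos h h1 h2 h3 h4
      have h5 : rat Γ a b c d < 1 := by
        rw [← inv_inv (rat Γ a b c d)]
        exact inv_lt_one_of_one_lt₀ this
      refine ⟨fun h' => absurd h' (by linarith),
        fun _ => by nlinarith [mul_pos (sub_pos.2 hab) (sub_pos.2 hcd)]⟩
  · subst hab
    have : rat Γ a a c d = 1 := by
      unfold rat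
      rw [mul_comm, div_self (mul_pos p1 p2).ne']
    refine ⟨fun h' => absurd h' (by linarith), fun h' => absurd h' (by linarith)⟩
  · rcases lt_trichotomy c d with hcd | hcd | hcd
    · have := key h3 h4 h1 h2 hab hcd
      rw [rat_swap_left] at this
      have hp := rat_pos h h1 h2 h3 h4
      have h5 : rat Γ a b c d < 1 := by
        rw [← inv_inv (rat Γ a b c d)]
        exact inv_lt_one_of_one_lt₀ this
      refine ⟨fun h' => absurd h' (by linarith),
        fun _ => by nlinarith [mul_pos (sub_pos.2 hab) (sub_pos.2 hcd)]⟩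
    · subst hcd
      have : rat Γ a b c c = 1 := by
        unfold rat
        rw [div_self (mul_pos p3 p1).ne']
      refine ⟨fun h' => absurd h' (by linarith), fun h' => absurd h' (by linarith)⟩
    · have := key h4 h3 h2 h1 hab hcd
      rw [rat_swap_left, rat_swap_right, inv_inv] at this
      refine ⟨fun _ => by nlinarith [mul_pos (sub_pos.2 hab) (sub_pos.2 hcd)],
        fun h' => absurd h' (by linarith)⟩

theorem mass_log {Γ : ℂ → ℝ} (h : IsGauge Γ) {θ φ : Fin 4 → ℝ}
    (hd : ∀ i j, |θ i - φ j| < Real.pi / 2) (i j : Fin 3) :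
    mass (fun t => Real.log (ang Γ t)) θ φ i j =
      Real.log (rat Γ (θ i.castSucc) (θ i.succ) (φ j.castSucc) (φ j.succ)) := by
  have p := fun i j => ang_pos_of_abs h (hd i j)
  unfold mass rat
  rw [Real.log_div (mul_pos (p _ _) (p _ _)).ne' (mul_pos (p _ _) (p _ _)).ne',
    Real.log_mul (p _ _).ne' (p _ _).ne', Real.log_mul (p _ _).ne' (p _ _).ne']
  ring

theorem mass_rev_left (f : ℝ → ℝ) (θ φ : Fin 4 → ℝ) (i j : Fin 3) :
    mass f (θ ∘ Fin.rev) φ i j = -mass f θ φ i.rev j := by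
  unfold mass
  simp only [Function.comp_apply, Fin.rev_succ, Fin.rev_castSucc]
  ring

theorem mass_rev_right (f : ℝ → ℝ) (θ φ : Fin 4 → ℝ) (i j : Fin 3) :
    mass f θ (φ ∘ Fin.rev) i j = -mass f θ φ i j.rev := by
  unfold mass
  simp only [Function.comp_apply, Fin.rev_succ, Fin.rev_castSucc]
  ring

theorem grid_abs {Γ : ℂ → ℝ} (h : IsGauge Γ) (hg : Grid fun t => Real.log (ang Γ t))
    {θ φ : Fin 4 → ℝ} (hθ : StrictMono θ ∨ StrictAnti θ) (hφ : StrictMono φ ∨ StrictAnti φ)
    (hd : ∀ i j, |θ i - φ j| < Real.pi / 2) : ∃ i j k l : Fin 3,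
      2 * |mass (fun t => Real.log (ang Γ t)) θ φ k l| ≤
        |mass (fun t => Real.log (ang Γ t)) θ φ i j| := by
  have hmm : ∀ {θ φ : Fin 4 → ℝ}, StrictMono θ → StrictMono φ →
      (∀ i j, |θ i - φ j| < Real.pi / 2) → ∃ i j k l : Fin 3,
      2 * |mass (fun t => Real.log (ang Γ t)) θ φ k l| ≤
        |mass (fun t => Real.log (ang Γ t)) θ φ i j| := by
    intro θ φ hθ hφ hd
    have hpos : ∀ i j, 0 < mass (fun t => Real.log (ang Γ t)) θ φ i j := by
      intro i j
      rw [mass_log h hd]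
      exact Real.log_pos (rat_gt h (hd _ _) (hd _ _) (hd _ _) (hd _ _)
        (hθ (Fin.castSucc_lt_succ (i := i))) (hφ (Fin.castSucc_lt_succ (i := j))))
    obtain ⟨i, j, k, l, hm⟩ := hg θ φ hθ hφ hd
    refine ⟨i, j, k, l, ?_⟩
    rw [abs_of_pos (hpos _ _), abs_of_pos (hpos _ _)]
    exact hm
  have hrev : StrictAnti (Fin.rev : Fin 4 → Fin 4) := Fin.rev_strictAnti
  rcases hθ with hθ | hθ
  · rcases hφ with hφ | hφ
    · exact hmm hθ hφ hd
    · obtain ⟨i, j, k, l, hm⟩ := hmm hθ (hφ.comp hrev) fun i j => hd i j.rev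
      refine ⟨i, j.rev, k, l.rev, ?_⟩
      rw [mass_rev_right, mass_rev_right, abs_neg, abs_neg] at hm
      exact hm
  · rcases hφ with hφ | hφ
    · obtain ⟨i, j, k, l, hm⟩ := hmm (hθ.comp hrev) hφ fun i j => hd i.rev j
      refine ⟨i.rev, j, k.rev, l, ?_⟩
      rw [mass_rev_left, mass_rev_left, abs_neg, abs_neg] at hm
      exact hm
    · obtain ⟨i, j, k, l, hm⟩ := hmm (hθ.comp hrev) (hφ.comp hrev) fun i j => hd i.rev j.rev
      refine ⟨i.rev, j.rev, k.rev, l.rev, ?_⟩
      rw [mass_rev_left, mass_rev_left, mass_rev_right, mass_rev_right, neg_neg, neg_neg] at hm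
      exact hm

theorem mono_of_sign {θ φ : Fin 4 → ℝ}
    (h : (∀ i j : Fin 3, 0 < (θ i.succ - θ i.castSucc) * (φ j.succ - φ j.castSucc)) ∨
      ∀ i j : Fin 3, (θ i.succ - θ i.castSucc) * (φ j.succ - φ j.castSucc) < 0) :
    (StrictMono θ ∨ StrictAnti θ) ∧ (StrictMono φ ∨ StrictAnti φ) := by
  simp only [Fin.strictMono_iff_lt_succ, Fin.strictAnti_iff_succ_lt]
  rcases h with h | h
  · rcases lt_trichotomy (θ (0 : Fin 3).castSucc) (θ (0 : Fin 3).succ) with h0 | h0 | h0
    · have h1 : ∀ j : Fin 3, φ j.castSucc < φ j.succ := fun j => by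
        have := h 0 j
        have := (pos_iff_pos_of_mul_pos this).1 (sub_pos.2 h0)
        linarith
      have h2 : ∀ i : Fin 3, θ i.castSucc < θ i.succ := fun i => by
        have := h i 0
        have := (pos_iff_pos_of_mul_pos this).2 (sub_pos.2 (h1 0))
        linarith
      exact ⟨Or.inl h2, Or.inl h1⟩
    · have := h 0 0
      rw [h0, sub_self, zero_mul] at this
      exact absurd this (lt_irrefl _)
    · have h1 : ∀ j : Fin 3, φ j.succ < φ j.castSucc := fun j => by
        have := h 0 j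
        have := (neg_iff_neg_of_mul_pos this).1 (sub_neg.2 h0)
        linarith
      have h2 : ∀ i : Fin 3, θ i.succ < θ i.castSucc := fun i => by
        have := h i 0
        have := (neg_iff_neg_of_mul_pos this).2 (sub_neg.2 (h1 0))
        linarith
      exact ⟨Or.inr h2, Or.inr h1⟩
  · rcases lt_trichotomy (θ (0 : Fin 3).castSucc) (θ (0 : Fin 3).succ) with h0 | h0 | h0
    · have h1 : ∀ j : Fin 3, φ j.succ < φ j.castSucc := fun j => by
        have := h 0 j
        by_contra hc
        have := mul_nonneg (sub_pos.2 h0).le (sub_nonneg.2 (not_lt.1 hc))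
        linarith
      have h2 : ∀ i : Fin 3, θ i.castSucc < θ i.succ := fun i => by
        have := h i 0
        by_contra hc
        have := mul_nonneg_of_nonpos_of_nonpos (sub_nonpos.2 (not_lt.1 hc)) (sub_neg.2 (h1 0)).le
        linarith
      exact ⟨Or.inl h2, Or.inr h1⟩
    · have := h 0 0
      rw [h0, sub_self, zero_mul] at this
      exact absurd this (lt_irrefl _)
    · have h1 : ∀ j : Fin 3, φ j.castSucc < φ j.succ := fun j => by
        have := h 0 j
        by_contra hc
        have := mul_nonneg_of_nonpos_of_nonpos (sub_neg.2 h0).le (sub_nonpos.2 (not_lt.1 hc))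
        linarith
      have h2 : ∀ i : Fin 3, θ i.succ < θ i.castSucc := fun i => by
        have := h i 0
        by_contra hc
        have := mul_nonneg (sub_nonneg.2 (not_lt.1 hc)) (sub_pos.2 (h1 0)).le
        linarith
      exact ⟨Or.inr h2, Or.inl h1⟩

end Pool.Agent.Helper5.WP
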