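import Pool.Agent.Helper5.WP.Ang

/-! # Project WP, module D1: collinear points of the radial plane -/

set_option autoImplicit false

namespace Pool.Agent.Helper5.WP

open Pool.Agent.Helper7.TP Metric Set Topology
open Filter (Tendsto atTop atBot)

private theorem vec_zero (z : ℂ) (s : ℝ) : (vec z s) 0 = z.re := by
  simp [vec]

private theorem vec_one (z : ℂ) (s : ℝ) : (vec z s) 1 = z.im := by
  simp [vec]

private theorem vec_two (z : ℂ) (s : ℝ) : (vec z s) 2 = s := by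
  simp [vec]

private theorem vec_ne_of_snd {z : ℂ} {s : ℝ} (hs : s ≠ 0) : vec z s ≠ 0 := by
  intro hv
  apply hs
  have := congrArg (fun v : E3 => v 2) hv
  simpa [vec_two] using this

private theorem vec_ne_of_fst {z : ℂ} {s : ℝ} (hz : z ≠ 0) : vec z s ≠ 0 := by
  intro hv
  apply hz
  have h0 := congrArg (fun v : E3 => v 0) hv
  have h1 := congrArg (fun v : E3 => v 1) hv
  apply Complex.ext
  · simpa [vec_zero] using h0
  · simpa [vec_one] using h1

private theorem smul_vec (c : ℝ) (z : ℂ) (s : ℝ) : c • vec z s = vec ((c : ℂ) * z) (c * s) := by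
  ext i
  fin_cases i <;> simp [vec]

private theorem gauge_zero {Γ : ℂ → ℝ} (h : IsGauge Γ) {w : ℂ} (hw : w.re = 0) : Γ w = 0 := by
  have h1 := h.pos w
  have h2 := h.pos ((-1 : ℝ) * w)
  rw [h.smul] at h2
  have h3 : (((-1 : ℝ) : ℂ) * w).re = 0 := by
    simp [hw]
  rw [h3] at h2
  rw [hw] at h1
  have h4 : ¬ 0 < Γ w := fun h5 => lt_irrefl _ (h1.1 h5)
  have h6 : ¬ 0 < -1 * Γ w := fun h5 => lt_irrefl _ (h2.1 h5)
  apply le_antisymm (not_lt.1 h4)
  by_contra h7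
  apply h6
  linarith [not_le.1 h7]

private theorem exp_mul_conj (θ φ : ℝ) : Complex.exp ((θ : ℂ) * Complex.I) *
    (starRingEnd ℂ) (Complex.exp ((φ : ℂ) * Complex.I)) =
      Complex.exp (((θ - φ : ℝ) : ℂ) * Complex.I) := by
  rw [← Complex.exp_conj, ← Complex.exp_add]
  congr 1
  simp
  ring

private theorem pr_mem {Γ : ℂ → ℝ} (h : IsGauge Γ) {z : ℂ} {s : ℝ} (hv : vec z s ≠ 0) {l : S2}
    (e : Γ (z * (starRingEnd ℂ) (cx l)) - s * (l : E3) 2 = 0) :
    pr (vec z s) ∈ incLine (HG Γ) l := by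
  refine ⟨nrm (vec z s) hv, ?_, ?_⟩
  · rw [pr, dif_neg hv]
  · have hc : cx (nrm (vec z s) hv) = ((‖vec z s‖⁻¹ : ℝ) : ℂ) * z := by
      apply Complex.ext
      · simp only [cx, nrm_coe]
        rw [Complex.re_ofReal_mul]
        simp [vec_zero]
      · simp only [cx, nrm_coe]
        rw [Complex.im_ofReal_mul]
        simp [vec_one]
    have h2 : ((nrm (vec z s) hv : S2) : E3) 2 = ‖vec z s‖⁻¹ * s := by
      rw [nrm_coe]
      simp [vec_two]
    rw [HG, hc, h2, mul_assoc ((‖vec z s‖⁻¹ : ℝ) : ℂ), h.smul, mul_assoc, ← mul_sub, e, mul_zero]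

private theorem pr_mem_nrm {Γ : ℂ → ℝ} (h : IsGauge Γ) {z w : ℂ} {s k : ℝ} (hv : vec z s ≠ 0)
    (hw : vec w k ≠ 0) (e : Γ (z * (starRingEnd ℂ) w) - s * k = 0) :
    pr (vec z s) ∈ incLine (HG Γ) (nrm (vec w k) hw) := by
  apply pr_mem h hv
  have hc : cx (nrm (vec w k) hw) = ((‖vec w k‖⁻¹ : ℝ) : ℂ) * w := by
    apply Complex.ext
    · simp only [cx, nrm_coe]
      rw [Complex.re_ofReal_mul]
      simp [vec_zero]
    · simp only [cx, nrm_coe]
      rw [Complex.im_ofReal_mul]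
      simp [vec_one]
  have h2 : ((nrm (vec w k) hw : S2) : E3) 2 = ‖vec w k‖⁻¹ * k := by
    rw [nrm_coe]
    simp [vec_two]
  have h3 : z * (starRingEnd ℂ) (((‖vec w k‖⁻¹ : ℝ) : ℂ) * w) =
      ((‖vec w k‖⁻¹ : ℝ) : ℂ) * (z * (starRingEnd ℂ) w) := by
    rw [map_mul, Complex.conj_ofReal]
    ring
  rw [hc, h2, h3, h.smul]
  calc ‖vec w k‖⁻¹ * Γ (z * (starRingEnd ℂ) w) - s * (‖vec w k‖⁻¹ * k)
      = ‖vec w k‖⁻¹ * (Γ (z * (starRingEnd ℂ) w) - s * k) := by ring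
    _ = 0 := by rw [e, mul_zero]

private theorem I_exp_ne (φ : ℝ) : Complex.I * Complex.exp ((φ : ℂ) * Complex.I) ≠ 0 :=
  mul_ne_zero Complex.I_ne_zero (Complex.exp_ne_zero _)

private theorem exp_sub_half (θ : ℝ) : Complex.I *
    Complex.exp (((θ - Real.pi / 2 : ℝ) : ℂ) * Complex.I) = Complex.exp ((θ : ℂ) * Complex.I) := by
  have h1 : ((θ - Real.pi / 2 : ℝ) : ℂ) * Complex.I =
      (θ : ℂ) * Complex.I + (-(Real.pi / 2 : ℂ) * Complex.I) := by
    push_cast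
    ring
  have h2 : Complex.exp (-(Real.pi / 2 : ℂ) * Complex.I) = -Complex.I := by
    rw [Complex.exp_mul_I]
    simp [Complex.cos_neg, Complex.sin_neg]
  rw [h1, Complex.exp_add, h2]
  calc Complex.I * (Complex.exp ((θ : ℂ) * Complex.I) * -Complex.I)
      = -(Complex.I * Complex.I) * Complex.exp ((θ : ℂ) * Complex.I) := by ring
    _ = Complex.exp ((θ : ℂ) * Complex.I) := by
      rw [Complex.I_mul_I]
      ring

private theorem exp_add_pi (θ : ℝ) : Complex.exp (((θ + Real.pi : ℝ) : ℂ) * Complex.I) =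
    -Complex.exp ((θ : ℂ) * Complex.I) := by
  have h1 : ((θ + Real.pi : ℝ) : ℂ) * Complex.I =
      (θ : ℂ) * Complex.I + (Real.pi : ℂ) * Complex.I := by
    push_cast
    ring
  rw [h1, Complex.exp_add, Complex.exp_pi_mul_I]
  ring

theorem pt_add_pi (r θ : ℝ) : pt r (θ + Real.pi) = pt (-r) θ := by
  have h : (r : ℂ) * Complex.exp (((θ + Real.pi : ℝ) : ℂ) * Complex.I) =
      ((-r : ℝ) : ℂ) * Complex.exp ((θ : ℂ) * Complex.I) := by
    rw [exp_add_pi]
    push_cast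
    ring
  rw [pt, pt, h]

private theorem idl_of_neg {φ ψ : ℝ} (h : Complex.exp ((φ : ℂ) * Complex.I) =
    -Complex.exp ((ψ : ℂ) * Complex.I)) : idl φ = idl ψ := by
  have h1 : vec (Complex.I * Complex.exp ((φ : ℂ) * Complex.I)) 0 =
      (-1 : ℝ) • vec (Complex.I * Complex.exp ((ψ : ℂ) * Complex.I)) 0 := by
    rw [smul_vec, h]
    congr 1
    · push_cast
      ring
    · ring
  rw [idl, idl, h1, pr_smul (by norm_num : (-1 : ℝ) ≠ 0)]

theorem idl_add_pi (φ : ℝ) : idl (φ + Real.pi) = idl φ :=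
  idl_of_neg (exp_add_pi φ)

theorem idl_of_cos {θ φ : ℝ} (hc : Real.cos (θ - φ) = 0) : idl φ = idl (θ - Real.pi / 2) := by
  have h1 : Complex.exp ((φ : ℂ) * Complex.I) = Complex.exp ((θ : ℂ) * Complex.I) *
      (starRingEnd ℂ) (Complex.exp (((θ - φ : ℝ) : ℂ) * Complex.I)) := by
    rw [exp_mul_conj]
    congr 2
    push_cast
    ring
  have h2 : (starRingEnd ℂ) (Complex.exp (((θ - φ : ℝ) : ℂ) * Complex.I)) =
      -((Real.sin (θ - φ) : ℝ) : ℂ) * Complex.I := by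
    rw [Complex.exp_mul_I, ← Complex.ofReal_cos, ← Complex.ofReal_sin, hc, map_add, map_mul,
      Complex.conj_I, Complex.conj_ofReal, Complex.conj_ofReal]
    rw [Complex.ofReal_zero, zero_add, mul_neg, neg_mul]
  have h3 : Real.sin (θ - φ) = 1 ∨ Real.sin (θ - φ) = -1 := by
    have h4 := Real.sin_sq_add_cos_sq (θ - φ)
    rw [hc] at h4
    have h5 : (Real.sin (θ - φ) - 1) * (Real.sin (θ - φ) + 1) = 0 := by nlinarith
    rcases mul_eq_zero.1 h5 with h6 | h6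
    · left; linarith
    · right; linarith
  have h7 : Complex.exp (((θ - Real.pi / 2 : ℝ) : ℂ) * Complex.I) =
      -Complex.I * Complex.exp ((θ : ℂ) * Complex.I) := by
    rw [← exp_sub_half θ, ← mul_assoc]
    rw [neg_mul, Complex.I_mul_I]
    ring
  rcases h3 with h3 | h3
  · have h8 : Complex.exp ((φ : ℂ) * Complex.I) =
        Complex.exp (((θ - Real.pi / 2 : ℝ) : ℂ) * Complex.I) := by
      rw [h1, h2, h3, h7]
      push_cast
      ring
    rw [idl, idl, h8]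
  · apply idl_of_neg
    rw [h1, h2, h3, h7]
    push_cast
    ring

theorem cases_pt (x : P2) : x = org ∨ (∃ r θ, 0 < r ∧ x = pt r θ) ∨ ∃ φ, x = idl φ := by
  obtain ⟨p, rfl⟩ := mk_surjective x
  have hp : (p : E3) = vec (cx p) ((p : E3) 2) := by
    ext i
    fin_cases i <;> simp [vec, cx]
  by_cases h2 : (p : E3) 2 = 0
  · right; right
    have hz : cx p ≠ 0 := by
      intro hz
      have h0 : (p : E3) = 0 := by
        rw [hp, hz, h2]
        ext i
        fin_cases i <;> simp [vec]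
      have h1 : ‖(p : E3)‖ = 1 := mem_sphere_zero_iff_norm.1 p.2
      rw [h0, norm_zero] at h1
      exact zero_ne_one h1
    refine ⟨(cx p).arg - Real.pi / 2, ?_⟩
    have h3 : (p : E3) = ‖cx p‖ • vec (Complex.I *
        Complex.exp ((((cx p).arg - Real.pi / 2 : ℝ) : ℂ) * Complex.I)) 0 := by
      rw [smul_vec, exp_sub_half, Complex.norm_mul_exp_arg_mul_I, mul_zero]
      rw [hp, h2]
    rw [idl, ← pr_coe, h3, pr_smul (norm_ne_zero_iff.2 hz)]
  · have h3 : (p : E3) = (p : E3) 2 • vec (cx p / ((p : E3) 2 : ℝ)) 1 := by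
      rw [smul_vec, mul_one, mul_div_cancel₀ _ (Complex.ofReal_ne_zero.2 h2)]
      exact hp
    by_cases hz : cx p / (((p : E3) 2 : ℝ) : ℂ) = 0
    · left
      rw [← pr_coe, h3, pr_smul h2, hz, org]
    · right; left
      refine ⟨‖cx p / (((p : E3) 2 : ℝ) : ℂ)‖, (cx p / (((p : E3) 2 : ℝ) : ℂ)).arg,
        norm_pos_iff.2 hz, ?_⟩
      rw [pt, Complex.norm_mul_exp_arg_mul_I, ← pr_coe, h3, pr_smul h2, ← h3]

theorem col_idl {Γ : ℂ → ℝ} (h : IsGauge Γ) {r s θ η φ : ℝ}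
    (hr : r * ang Γ (θ - φ) = s * ang Γ (η - φ)) :
    ∃ C ∈ radPlane Γ, pt r θ ∈ C ∧ pt s η ∈ C ∧ idl φ ∈ C := by
  have hw : vec (Complex.exp ((φ : ℂ) * Complex.I)) (r * ang Γ (θ - φ)) ≠ 0 :=
    vec_ne_of_fst (Complex.exp_ne_zero _)
  refine ⟨incLine (HG Γ) (nrm _ hw), ⟨_, rfl⟩, ?_, ?_, ?_⟩
  · apply pr_mem_nrm h (vec_ne_of_snd one_ne_zero)
    rw [mul_assoc, exp_mul_conj, h.smul, one_mul]
    simp [ang]
  · apply pr_mem_nrm h (vec_ne_of_snd one_ne_zero)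
    rw [mul_assoc, exp_mul_conj, h.smul, one_mul, hr]
    simp [ang]
  · apply pr_mem_nrm h (vec_ne_of_fst (I_exp_ne φ))
    rw [mul_assoc, exp_mul_conj, zero_mul, sub_zero]
    apply gauge_zero h
    simp

theorem col_org {Γ : ℂ → ℝ} (h : IsGauge Γ) (θ : ℝ) :
    ∃ C ∈ radPlane Γ, org ∈ C ∧ (∀ r, pt r θ ∈ C) ∧ idl (θ - Real.pi / 2) ∈ C := by
  have hw : vec (Complex.I * Complex.exp ((θ : ℂ) * Complex.I)) 0 ≠ 0 :=
    vec_ne_of_fst (I_exp_ne θ)
  have hk : Complex.exp ((θ : ℂ) * Complex.I) *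
      (starRingEnd ℂ) (Complex.I * Complex.exp ((θ : ℂ) * Complex.I)) = -Complex.I := by
    rw [map_mul, Complex.conj_I, mul_left_comm, exp_mul_conj]
    simp
  refine ⟨incLine (HG Γ) (nrm _ hw), ⟨_, rfl⟩, ?_, ?_, ?_⟩
  · apply pr_mem_nrm h (vec_ne_of_snd one_ne_zero)
    rw [zero_mul, mul_zero, sub_zero]
    apply gauge_zero h
    simp
  · intro r
    apply pr_mem_nrm h (vec_ne_of_snd one_ne_zero)
    rw [mul_assoc, hk, mul_zero, sub_zero]
    apply gauge_zero h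
    simp
  · apply pr_mem_nrm h (vec_ne_of_fst (I_exp_ne _))
    rw [exp_sub_half, hk, zero_mul, sub_zero]
    apply gauge_zero h
    simp

theorem col_inf {Γ : ℂ → ℝ} (h : IsGauge Γ) : ∃ C ∈ radPlane Γ, ∀ φ, idl φ ∈ C := by
  have hw : vec (0 : ℂ) 1 ≠ 0 := vec_ne_of_snd one_ne_zero
  refine ⟨incLine (HG Γ) (nrm _ hw), ⟨_, rfl⟩, fun φ => ?_⟩
  apply pr_mem_nrm h (vec_ne_of_fst (I_exp_ne φ))
  rw [map_zero, mul_zero, zero_mul, sub_zero]
  apply gauge_zero h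
  simp

theorem meet_inf {Γ : ℂ → ℝ} (h : IsGauge Γ) {C : Set P2} (hC : C ∈ radPlane Γ) :
    ∃ φ, idl φ ∈ C := by
  obtain ⟨l, rfl⟩ := hC
  refine ⟨(cx l).arg, ?_⟩
  apply pr_mem h (vec_ne_of_fst (I_exp_ne _))
  rw [zero_mul, sub_zero]
  apply gauge_zero h
  have h1 : Complex.I * Complex.exp (((cx l).arg : ℂ) * Complex.I) * (starRingEnd ℂ) (cx l) =
      (‖cx l‖ : ℂ) * Complex.I := by
    have h2 : (starRingEnd ℂ) (cx l) = (‖cx l‖ : ℂ) *
        (starRingEnd ℂ) (Complex.exp (((cx l).arg : ℂ) * Complex.I)) := by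
      conv_lhs => rw [← Complex.norm_mul_exp_arg_mul_I (cx l)]
      rw [map_mul, Complex.conj_ofReal]
    rw [h2, mul_left_comm, mul_assoc Complex.I, exp_mul_conj]
    simp
  rw [h1]
  simp

end Pool.Agent.Helper5.WP
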