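import Pool.Agent.Helper5.WP.NoNormA
import Pool.Agent.Helper5.WP.Pts
import Pool.Agent.Helper5.WP.Alt

/-! # Project WP, module I2: perspectivities in asymptotic coordinates -/

set_option autoImplicit false

namespace Pool.Agent.Helper5.WP

open Pool.Agent.Helper7.TP Metric Set Topology

variable {Γ : ℂ → ℝ} {U : Ultrafilter ℕ} {St : (ℕ → P2) → (Fin 3 → ℝ) → Prop} {κ : ℝ}

/-- Project a point of a line through the centre from an ideal point to another line. -/
theorem transfer (h : IsGauge Γ) (hn : Normal Γ U St κ) {s s' η η' ψ : ℕ → ℝ} {a b c i : ℝ}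
    (h1 : St (fun n => pt (s n) (η n)) ![a, b, 1]) (h2 : St (fun n => idl (ψ n)) ![1, c, 0])
    (hray : ∀ v, St (fun n => pt (s' n) (η' n)) v → v 0 + i * κ * v 1 - i * v 2 = 0)
    (heq : ∀ᶠ n in (U : Filter ℕ), s n * ang Γ (η n - ψ n) = s' n * ang Γ (η' n - ψ n))
    (hne : 1 + i * κ * c ≠ 0) :
    St (fun n => pt (s' n) (η' n)) ![a - (a + i * κ * b - i) / (1 + i * κ * c),
      b - c * ((a + i * κ * b - i) / (1 + i * κ * c)), 1] := by
  obtain ⟨v, hv⟩ := hn.chart.tot fun n => pt (s' n) (η' n)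
  have hv0 := hn.chart.ne _ _ hv
  have hr := hray v hv
  have hdet := hn.chart.col (fun n => pt (s n) (η n)) (fun n => pt (s' n) (η' n))
    (fun n => idl (ψ n)) _ _ _ (heq.mono fun n hn' => by
      obtain ⟨C, hC, g1, g2, g3⟩ := col_idl h hn'
      exact ⟨C, hC, g1, g2, g3⟩) h1 hv h2
  rw [Matrix.det_fin_three] at hdet
  simp only [Matrix.cons_val_zero, Matrix.cons_val_one, Matrix.cons_val] at hdet
  have e1 : v 1 = c * v 0 + (b - a * c) * v 2 := by linarith
  have e2 : v 0 * (1 + i * κ * c) = v 2 * (i - i * κ * (b - a * c)) := by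
    rw [e1] at hr
    linear_combination hr
  have hv2 : v 2 ≠ 0 := by
    intro h0
    rw [h0, zero_mul] at e2
    have h3 : v 0 = 0 := (mul_eq_zero.1 e2).resolve_right hne
    have h4 : v 1 = 0 := by rw [e1, h3, h0]; ring
    apply hv0
    ext k
    fin_cases k
    · exact h3
    · exact h4
    · exact h0
  rw [hn.chart.uniq _ v _ hv]
  refine ⟨(v 2)⁻¹, inv_ne_zero hv2, ?_⟩
  have e3 : (v 2)⁻¹ * v 0 = a - (a + i * κ * b - i) / (1 + i * κ * c) := by
    field_simp
    linear_combination e2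
  ext k
  fin_cases k
  · simp only [Fin.zero_eta, Matrix.cons_val_zero, Pi.smul_apply, smul_eq_mul]
    exact e3.symm
  · simp only [Fin.mk_one, Matrix.cons_val_one, Pi.smul_apply, smul_eq_mul, Matrix.cons_val_zero]
    rw [e1]
    have : (v 2)⁻¹ * (c * v 0 + (b - a * c) * v 2) = c * ((v 2)⁻¹ * v 0) + (b - a * c) := by
      field_simp
    rw [this, e3]
    ring
  · simp only [Fin.reduceFinMk, Matrix.cons_val, Pi.smul_apply, smul_eq_mul]
    exact (inv_mul_cancel₀ hv2).symm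

/-- The data of a grid in asymptotic coordinates. -/
structure Data (Γ : ℂ → ℝ) (U : Ultrafilter ℕ) (St : (ℕ → P2) → (Fin 3 → ℝ) → Prop) (κ : ℝ)
    (r : ℕ → ℝ) (θ φ : ℕ → Fin 4 → ℝ) : Prop where
  normal : Normal Γ U St κ
  rpos : ∀ᶠ n in (U : Filter ℕ), 0 < r n
  near : ∀ᶠ n in (U : Filter ℕ), ∀ i j, |θ n i - φ n j| < Real.pi / 2
  start : St (fun n => pt (r n) (θ n 0)) ![0, 0, 1]
  ideal : ∀ j : Fin 4, St (fun n => idl (φ n j)) ![1, ((j : ℕ) : ℝ) / 100, 0]
  ray : ∀ (i : Fin 4) (s : ℕ → ℝ) v, St (fun n => pt (s n) (θ n i)) v →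
    v 0 + ((i : ℕ) : ℝ) * κ * v 1 - ((i : ℕ) : ℝ) * v 2 = 0

variable {r : ℕ → ℝ} {θ φ : ℕ → Fin 4 → ℝ}

theorem Data.kap_nonneg (hD : Data Γ U St κ r θ φ) : 0 ≤ κ := by
  rcases hD.normal.kap with h | h
  · rw [h]
  · rw [h]
    exact zero_le_one

theorem Data.den (hD : Data Γ U St κ r θ φ) (i j : ℕ) :
    0 < 1 + (i : ℝ) * κ * ((j : ℝ) / 100) := by
  have := hD.kap_nonneg
  positivity

/-- Project to the line `i` from the ideal point `j` and back from the ideal point `k`. -/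
theorem Data.two_step (hD : Data Γ U St κ r θ φ) (h : IsGauge Γ) (i j k : Fin 4) {s : ℕ → ℝ}
    {y : ℝ} (hs : St (fun n => pt (s n) (θ n 0)) ![0, y, 1]) :
    St (fun n => pt (s n * (ang Γ (θ n 0 - φ n j) / ang Γ (θ n i - φ n j)) *
      (ang Γ (θ n i - φ n k) / ang Γ (θ n 0 - φ n k))) (θ n 0))
      ![0, y + (((j : ℕ) : ℝ) / 100 - ((k : ℕ) : ℝ) / 100) * ((i : ℕ) : ℝ) * (1 - κ * y) /
        (1 + ((i : ℕ) : ℝ) * κ * (((j : ℕ) : ℝ) / 100)), 1] := by
  have hden := hD.den i j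
  have h1 := transfer h hD.normal (s' := fun n => s n * (ang Γ (θ n 0 - φ n j) /
    ang Γ (θ n i - φ n j))) (η' := fun n => θ n i) hs (hD.ideal j) (fun v hv => hD.ray i _ v hv)
    (hD.near.mono fun n hn => by
      have := ang_pos_of_abs h (hn i j)
      field_simp) hden.ne'
  have h2 := transfer h hD.normal (s' := fun n => s n * (ang Γ (θ n 0 - φ n j) /
    ang Γ (θ n i - φ n j)) * (ang Γ (θ n i - φ n k) / ang Γ (θ n 0 - φ n k)))
    (η' := fun n => θ n 0) (i := 0) h1 (hD.ideal k) (fun v hv => by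
      have := hD.ray 0 _ v hv
      simpa using this)
    (hD.near.mono fun n hn => by
      have := ang_pos_of_abs h (hn i j)
      have := ang_pos_of_abs h (hn 0 k)
      field_simp) (by norm_num)
  convert h2 using 1
  ext m
  fin_cases m
  · simp
  · simp only [Fin.mk_one, Matrix.cons_val_one, Matrix.cons_val_zero]
    field_simp
    ring
  · simp

/-- The coefficient of a cell. -/
noncomputable def cc (κ : ℝ) (i j : Fin 3) : ℝ :=
  1 / ((1 + ((i : ℕ) + 1 : ℝ) * κ * (((j : ℕ) : ℝ) / 100)) *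
    (1 + ((i : ℕ) : ℝ) * κ * (((j : ℕ) + 1 : ℝ) / 100)))

/-- The translation of a cell. -/
theorem Data.four_step (hD : Data Γ U St κ r θ φ) (h : IsGauge Γ) (i j : Fin 3) {s : ℕ → ℝ}
    {y : ℝ} (hs : St (fun n => pt (s n) (θ n 0)) ![0, y, 1]) :
    St (fun n => pt (s n * rat Γ (θ n i.castSucc) (θ n i.succ) (φ n j.castSucc) (φ n j.succ))
      (θ n 0)) ![0, y - (1 - κ * y) * cc κ i j / 100, 1] := by
  have h1 := hD.two_step h i.succ j.castSucc j.succ hs
  have h2 := hD.two_step h i.castSucc j.succ j.castSucc h1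
  have h3 := hD.normal.chart.congr _ (fun n => pt (s n * rat Γ (θ n i.castSucc) (θ n i.succ)
    (φ n j.castSucc) (φ n j.succ)) (θ n 0)) _ h2 (hD.near.mono fun n hn => by
      have p1 := ang_pos_of_abs h (hn 0 j.castSucc)
      have p2 := ang_pos_of_abs h (hn 0 j.succ)
      have p3 := ang_pos_of_abs h (hn i.succ j.castSucc)
      have p4 := ang_pos_of_abs h (hn i.castSucc j.succ)
      have p5 := ang_pos_of_abs h (hn i.castSucc j.castSucc)
      have p6 := ang_pos_of_abs h (hn i.succ j.succ)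
      congr 1
      unfold rat
      field_simp)
  convert h3 using 1
  have hκ := hD.kap_nonneg
  ext m
  fin_cases m
  · simp
  · simp only [Fin.mk_one, Matrix.cons_val_one, Matrix.cons_val_zero, cc, Fin.val_succ,
      Fin.val_castSucc, Nat.cast_add, Nat.cast_one]
    field_simp
    ring
  · simp

end Pool.Agent.Helper5.WP
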