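import Pool.Agent.Helper5.WP.NoNormB

/-! # Project WP, module I3: the contradiction from a grid in asymptotic coordinates -/

set_option autoImplicit false

namespace Pool.Agent.Helper5.WP

open Pool.Agent.Helper7.TP Metric Set Topology

variable {Γ : ℂ → ℝ} {U : Ultrafilter ℕ} {St : (ℕ → P2) → (Fin 3 → ℝ) → Prop} {κ : ℝ}
  {r : ℕ → ℝ} {θ φ : ℕ → Fin 4 → ℝ}

theorem cc_bounds (hκ : κ = 0 ∨ κ = 1) (i j : Fin 3) :
    (88 : ℝ) / 100 ≤ cc κ i j ∧ cc κ i j ≤ 1 := by
  rcases hκ with rfl | rfl <;> fin_cases i <;> fin_cases j <;> norm_num [cc]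

/-- The ratio of the cell `(i, j)` of the grid number `n`. -/
noncomputable def rr (Γ : ℂ → ℝ) (θ φ : ℕ → Fin 4 → ℝ) (n : ℕ) (i j : Fin 3) : ℝ :=
  rat Γ (θ n i.castSucc) (θ n i.succ) (φ n j.castSucc) (φ n j.succ)

theorem Data.rr_pos (hD : Data Γ U St κ r θ φ) (h : IsGauge Γ) :
    ∀ᶠ n in (U : Filter ℕ), ∀ i j, 0 < rr Γ θ φ n i j :=
  hD.near.mono fun _ hn _ _ => rat_pos h (hn _ _) (hn _ _) (hn _ _) (hn _ _)

theorem Data.one (hD : Data Γ U St κ r θ φ) (h : IsGauge Γ) (i j : Fin 3) :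
    St (fun n => pt (r n * rr Γ θ φ n i j) (θ n 0)) ![0, -(cc κ i j / 100), 1] := by
  have h1 : St (fun n => pt (r n * rr Γ θ φ n i j) (θ n 0)) _ := hD.four_step h i j hD.start
  convert h1 using 1
  ext m
  fin_cases m
  · simp
  · simp only [Fin.mk_one, Matrix.cons_val_one, Matrix.cons_val_zero]
    ring
  · simp

theorem Data.two (hD : Data Γ U St κ r θ φ) (h : IsGauge Γ) (i j : Fin 3) :
    St (fun n => pt (r n * rr Γ θ φ n i j ^ 2) (θ n 0))
      ![0, -(cc κ i j / 100) * (2 + κ * (cc κ i j / 100)), 1] := by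
  have h1 := hD.four_step h i j (hD.one h i j)
  convert h1 using 1
  · ext n
    congr 1
    unfold rr
    ring
  · ext m
    fin_cases m
    · simp
    · simp only [Fin.mk_one, Matrix.cons_val_one, Matrix.cons_val_zero]
      ring
    · simp

/-- Different points of the axis. -/
theorem Data.ne (hD : Data Γ U St κ r θ φ) {s t : ℕ → ℝ} {y z : ℝ} (hyz : y ≠ z)
    (hs : St (fun n => pt (s n) (θ n 0)) ![0, y, 1])
    (ht : St (fun n => pt (t n) (θ n 0)) ![0, z, 1]) : ∀ᶠ n in (U : Filter ℕ), s n ≠ t n := by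
  rw [Ultrafilter.eventually_not]
  intro hcon
  have h1 := hD.normal.chart.congr _ _ _ hs (hcon.mono fun n hn => by rw [hn])
  obtain ⟨q, -, hq⟩ := (hD.normal.chart.uniq _ _ _ h1).1 ht
  have e2 := congrFun hq 2
  have e1 := congrFun hq 1
  simp only [Matrix.cons_val, Pi.smul_apply, smul_eq_mul, mul_one] at e2
  simp only [Matrix.cons_val_one, Matrix.cons_val_zero, Pi.smul_apply, smul_eq_mul] at e1
  rw [← e2, one_mul] at e1
  exact hyz e1.symm

/-- The order of three points on the axis. -/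
theorem Data.order (hD : Data Γ U St κ r θ φ) (h : IsGauge Γ) {s t u : ℕ → ℝ} {x y z : ℝ}
    (hs : St (fun n => pt (s n) (θ n 0)) ![0, x, 1])
    (ht : St (fun n => pt (t n) (θ n 0)) ![0, y, 1])
    (hu : St (fun n => pt (u n) (θ n 0)) ![0, z, 1])
    (hord : ∀ᶠ n in (U : Filter ℕ), 0 < s n ∧ s n < t n ∧ t n < u n) (p q : ℝ)
    (ho : (p * κ - 1) * (1 + q * κ) < 0) (hx : 0 < (p - x) * (x + q))
    (hy : (p - y) * (y + q) < 0) (hz : 0 < (p - z) * (z + q)) : False := by
  refine hD.normal.chart.alt _ _ _ _ _ _ _ _ ![0, -1, p] ![0, 1, q]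
    (hord.mono fun n hn => alt_pos h hn.1 hn.2.1 hn.2.2) hu ht hs hD.normal.org ?_ ?_ ?_ ?_
  · simp only [Matrix.vec3_dotProduct, Matrix.cons_val_zero, Matrix.cons_val_one,
      Matrix.cons_val]
    convert hz using 1
    ring
  · simp only [Matrix.vec3_dotProduct, Matrix.cons_val_zero, Matrix.cons_val_one,
      Matrix.cons_val]
    convert hy using 1
    ring
  · simp only [Matrix.vec3_dotProduct, Matrix.cons_val_zero, Matrix.cons_val_one,
      Matrix.cons_val]
    convert hx using 1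
    ring
  · simp only [Matrix.vec3_dotProduct, Matrix.cons_val_zero, Matrix.cons_val_one,
      Matrix.cons_val]
    convert ho using 1
    ring

theorem Data.false (hD : Data Γ U St κ r θ φ) (h : IsGauge Γ)
    (hg : Grid fun t => Real.log (ang Γ t)) : False := by
  have hb := cc_bounds hD.normal.kap
  have hκ := hD.normal.kap
  have hκ0 := hD.kap_nonneg
  have hκ1 : κ ≤ 1 := by rcases hκ with h | h <;> rw [h] <;> norm_num
  have hpos := hD.rr_pos h
  -- all ratios are on the same side of one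
  have hne : ∀ i j, ∀ᶠ n in (U : Filter ℕ), rr Γ θ φ n i j ≠ 1 := by
    intro i j
    have h0 : (0 : ℝ) ≠ -(cc κ i j / 100) := by
      have := (hb i j).1
      linarith
    filter_upwards [hD.ne h0 hD.start (hD.one h i j)] with n hn h1
    rw [h1, mul_one] at hn
    exact hn rfl
  have hsame : ∀ i j k l, ¬ ((∀ᶠ n in (U : Filter ℕ), 1 < rr Γ θ φ n i j) ∧
      ∀ᶠ n in (U : Filter ℕ), rr Γ θ φ n k l < 1) := by
    rintro i j k l ⟨h1, h2⟩
    have b1 := hb i j
    have b2 := hb k l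
    refine hD.order h (hD.one h k l) hD.start (hD.one h i j) (p := -(1 / 200)) (q := 1) ?_ ?_ ?_
      ?_ ?_
    · filter_upwards [h1, h2, hpos, hD.rpos] with n g1 g2 g3 g4
      have := g3 k l
      refine ⟨by positivity, ?_, ?_⟩
      · calc r n * rr Γ θ φ n k l < r n * 1 := by gcongr
          _ = r n := mul_one _
      · calc r n = r n * 1 := (mul_one _).symm
          _ < r n * rr Γ θ φ n i j := by gcongr
    · nlinarith
    · apply mul_pos <;> linarith
    · norm_num
    · apply mul_pos <;> linarith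
  have hside : (∀ i j, ∀ᶠ n in (U : Filter ℕ), 1 < rr Γ θ φ n i j) ∨
      ∀ i j, ∀ᶠ n in (U : Filter ℕ), rr Γ θ φ n i j < 1 := by
    have h1 : ∀ i j, (∀ᶠ n in (U : Filter ℕ), 1 < rr Γ θ φ n i j) ∨
        ∀ᶠ n in (U : Filter ℕ), rr Γ θ φ n i j < 1 := by
      intro i j
      rw [← Ultrafilter.eventually_or]
      filter_upwards [hne i j] with n hn
      exact (lt_or_gt_of_ne hn).symm
    rcases h1 0 0 with h0 | h0
    · left
      intro i j
      rcases h1 i j with h2 | h2
      · exact h2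
      · exact absurd ⟨h0, h2⟩ (hsame _ _ _ _)
    · right
      intro i j
      rcases h1 i j with h2 | h2
      · exact absurd ⟨h2, h0⟩ (hsame _ _ _ _)
      · exact h2
  -- the grids are monotone, so two cells are of different size
  have hgrid : ∀ᶠ n in (U : Filter ℕ), ∃ z : (Fin 3 × Fin 3) × (Fin 3 × Fin 3),
      2 * |Real.log (rr Γ θ φ n z.2.1 z.2.2)| ≤ |Real.log (rr Γ θ φ n z.1.1 z.1.2)| := by
    have hall : ∀ᶠ n in (U : Filter ℕ), (∀ i j, 1 < rr Γ θ φ n i j) ∨
        ∀ i j, rr Γ θ φ n i j < 1 := by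
      rcases hside with h1 | h1
      · have h2 : ∀ᶠ n in (U : Filter ℕ), ∀ i j, 1 < rr Γ θ φ n i j :=
          Filter.eventually_all.2 fun i => Filter.eventually_all.2 fun j => h1 i j
        exact h2.mono fun n hn => Or.inl hn
      · have h2 : ∀ᶠ n in (U : Filter ℕ), ∀ i j, rr Γ θ φ n i j < 1 :=
          Filter.eventually_all.2 fun i => Filter.eventually_all.2 fun j => h1 i j
        exact h2.mono fun n hn => Or.inr hn
    filter_upwards [hall, hD.near] with n h1 h2
    have hsgn := fun i j => rat_sign h (h2 (Fin.castSucc i) (Fin.castSucc j)) (h2 i.castSucc j.succ)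
      (h2 i.succ j.castSucc) (h2 i.succ j.succ)
    have hmono := mono_of_sign (θ := θ n) (φ := φ n) (by
      rcases h1 with h1 | h1
      · exact Or.inl fun i j => (hsgn i j).1 (h1 i j)
      · exact Or.inr fun i j => (hsgn i j).2 (h1 i j))
    obtain ⟨i, j, k, l, hm⟩ := grid_abs h hg hmono.1 hmono.2 h2
    rw [mass_log h h2, mass_log h h2] at hm
    exact ⟨((i, j), (k, l)), hm⟩
  rw [Ultrafilter.eventually_exists_iff] at hgrid
  obtain ⟨⟨⟨i, j⟩, ⟨k, l⟩⟩, hz⟩ := hgrid
  have b1 := hb i j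
  have b2 := hb k l
  set c₁ : ℝ := cc κ i j / 100 with hc₁
  set c₂ : ℝ := cc κ k l / 100 with hc₂
  have l1 : 88 / 10000 ≤ c₁ := by linarith [b1.1]
  have u1 : c₁ ≤ 1 / 100 := by linarith [b1.2]
  have l2 : 88 / 10000 ≤ c₂ := by linarith [b2.1]
  have u2 : c₂ ≤ 1 / 100 := by linarith [b2.2]
  have hd2 : 176 / 10000 ≤ c₂ * (2 + κ * c₂) := by
    have : 0 ≤ κ * c₂ := by positivity
    nlinarith
  have hQ1 := hD.one h i j
  have hQ2 := hD.two h k l
  rw [← hc₁] at hQ1
  rw [← hc₂] at hQ2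
  have hne' : ∀ᶠ n in (U : Filter ℕ), r n * rr Γ θ φ n k l ^ 2 ≠ r n * rr Γ θ φ n i j :=
    hD.ne (by nlinarith) hQ2 hQ1
  rcases hside with h1 | h1
  · -- ratios larger than one
    refine hD.order h hD.start hQ2 hQ1 (p := 1 / 400) (q := 3 / 200) ?_ ?_ ?_ ?_ ?_
    · filter_upwards [hz, h1 i j, h1 k l, hD.rpos, hne'] with n g1 g2 g3 g4 g5
      rw [abs_of_pos (Real.log_pos g2), abs_of_pos (Real.log_pos g3)] at g1
      have g6 : rr Γ θ φ n k l ^ 2 ≤ rr Γ θ φ n i j := by
        rw [← Real.log_le_log_iff (by positivity) (by linarith), Real.log_pow]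
        exact_mod_cast g1
      refine ⟨g4, ?_, lt_of_le_of_ne (by gcongr) g5⟩
      have g7 : 1 < rr Γ θ φ n k l ^ 2 := by nlinarith
      calc r n = r n * 1 := (mul_one _).symm
        _ < r n * rr Γ θ φ n k l ^ 2 := by gcongr
    · nlinarith
    · norm_num
    · apply mul_neg_of_pos_of_neg <;> nlinarith
    · apply mul_pos <;> nlinarith
  · -- ratios smaller than one
    refine hD.order h hQ1 hQ2 hD.start (p := 1 / 400) (q := 3 / 200) ?_ ?_ ?_ ?_ ?_
    · filter_upwards [hz, h1 i j, h1 k l, hD.rpos, hne', hpos] with n g1 g2 g3 g4 g5 g6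
      have g7 := g6 i j
      have g8 := g6 k l
      rw [abs_of_neg (Real.log_neg g7 g2), abs_of_neg (Real.log_neg g8 g3)] at g1
      have g9 : rr Γ θ φ n i j ≤ rr Γ θ φ n k l ^ 2 := by
        rw [← Real.log_le_log_iff g7 (by positivity), Real.log_pow]
        push_cast
        linarith
      refine ⟨by positivity, lt_of_le_of_ne (by gcongr) g5.symm, ?_⟩
      have g10 : rr Γ θ φ n k l ^ 2 < 1 := by nlinarith
      calc r n * rr Γ θ φ n k l ^ 2 < r n * 1 := by gcongr
        _ = r n := mul_one _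
    · nlinarith
    · apply mul_pos <;> nlinarith
    · apply mul_neg_of_pos_of_neg <;> nlinarith
    · norm_num

end Pool.Agent.Helper5.WP
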