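import Pool.Agent.Helper5.WP.Defs

/-! # Project WP, module F: straight lines separate the points of a line -/

set_option autoImplicit false

namespace Pool.Agent.Helper5.WP

open Pool.Agent.Helper7.TP Metric Set Topology
open Filter (Tendsto atTop atBot)

theorem continuous_sg : Continuous fun z : (S2 × S2) × P2 => sg z.1.1 z.1.2 z.2 := by
  have h1 : IsOpenQuotientMap (fun p : S2 => mk p) :=
    ⟨mk_surjective, continuous_mk, isOpenMap_mk⟩
  have h2 : IsOpenQuotientMap (Prod.map (id : S2 × S2 → S2 × S2) (fun p : S2 => mk p)) :=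
    IsOpenQuotientMap.id.prodMap h1
  rw [h2.isQuotientMap.continuous_iff]
  change Continuous fun z : (S2 × S2) × S2 =>
    inner ℝ (z.2 : E3) (z.1.1 : E3) * inner ℝ (z.2 : E3) (z.1.2 : E3)
  fun_prop

private theorem continuous_sg_point (l m : S2) : Continuous fun x : P2 => sg l m x :=
  continuous_sg.comp (by fun_prop : Continuous fun x : P2 => (((l, m), x) : (S2 × S2) × P2))

private theorem sg_eq_zero {l m : S2} {x : P2} (h : sg l m x = 0) :
    x ∈ straight l ∨ x ∈ straight m := by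
  obtain ⟨p, rfl⟩ := mk_surjective x
  have h' : inner ℝ (p : E3) (l : E3) * inner ℝ (p : E3) (m : E3) = (0 : ℝ) := h
  rcases mul_eq_zero.1 h' with h0 | h0
  · exact Or.inl (mk_mem_straight.2 h0)
  · exact Or.inr (mk_mem_straight.2 h0)

private theorem sg_of_left {l m : S2} {x : P2} (h : x ∈ straight l) : sg l m x = 0 := by
  obtain ⟨p, rfl⟩ := mk_surjective x
  change inner ℝ (p : E3) (l : E3) * inner ℝ (p : E3) (m : E3) = (0 : ℝ)
  rw [mk_mem_straight.1 h, zero_mul]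

private theorem sg_of_right {l m : S2} {x : P2} (h : x ∈ straight m) : sg l m x = 0 := by
  obtain ⟨p, rfl⟩ := mk_surjective x
  change inner ℝ (p : E3) (l : E3) * inner ℝ (p : E3) (m : E3) = (0 : ℝ)
  rw [mk_mem_straight.1 h, mul_zero]

private theorem meet_unique {𝓛 : Set (Set P2)} (h𝓛 : IsTPP 𝓛) {C D : Set P2} (hC : C ∈ 𝓛)
    (hD : D ∈ 𝓛) (hCD : C ≠ D) {x y : P2} (hxC : x ∈ C) (hyC : y ∈ C) (hxD : x ∈ D)
    (hyD : y ∈ D) : x = y := by
  by_contra hxy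
  obtain ⟨E, -, hE⟩ := h𝓛.join x y hxy
  exact hCD ((hE C ⟨hC, hxC, hyC⟩).trans (hE D ⟨hD, hxD, hyD⟩).symm)

private theorem ne_image {e : P2 ≃ₜ P2} {l : S2} {C : Set P2} {x : P2} (hx : e x ∈ C)
    (h : x ∉ straight l) : C ≠ e '' straight l := by
  rintro rfl
  obtain ⟨y, hy, hxy⟩ := hx
  exact h (e.injective hxy ▸ hy)

private theorem zero_between {f : ℝ → ℝ} {a b : ℝ} (hab : a < b) (hf : ContinuousOn f (Icc a b))
    (h : f a < 0 ∧ 0 < f b ∨ 0 < f a ∧ f b < 0) : ∃ t, a < t ∧ t < b ∧ f t = 0 := by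
  rcases h with ⟨h1, h2⟩ | ⟨h1, h2⟩
  · obtain ⟨t, ht, h0⟩ := intermediate_value_Ioo hab.le hf ⟨h1, h2⟩
    exact ⟨t, ht.1, ht.2, h0⟩
  · obtain ⟨t, ht, h0⟩ := intermediate_value_Ioo' hab.le hf ⟨h2, h1⟩
    exact ⟨t, ht.1, ht.2, h0⟩

private theorem exists_angle (c : Circle) : ∃ t, 0 ≤ t ∧ t < 2 * Real.pi ∧ Circle.exp t = c := by
  obtain ⟨t, ht, h⟩ := Circle.periodic_exp.exists_mem_Ico₀ (by positivity)
    (Complex.arg (c : ℂ))
  refine ⟨t, ht.1, ht.2, ?_⟩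
  rw [← h, Circle.exp_arg]

private theorem angle_unique {s t : ℝ} (hs0 : 0 ≤ s) (hs : s < 2 * Real.pi) (ht0 : 0 ≤ t)
    (ht : t < 2 * Real.pi) (h : Circle.exp s = Circle.exp t) : s = t := by
  obtain ⟨m, hm⟩ := Circle.exp_eq_exp.1 h
  have hpi := Real.pi_pos
  have h1 : (m : ℝ) < 1 := by
    by_contra h2
    have h3 : (1 : ℝ) ≤ m := not_lt.1 h2
    nlinarith
  have h2 : (-1 : ℝ) < m := by
    by_contra h2
    have h3 : (m : ℝ) ≤ -1 := not_lt.1 h2
    nlinarith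
  have h3 : m < 1 := by exact_mod_cast h1
  have h4 : -1 < m := by exact_mod_cast h2
  have h5 : m = 0 := by omega
  rw [hm, h5]
  simp

private theorem three_ordered {𝓛 : Set (Set P2)} (h𝓛 : IsTPP 𝓛) (e : P2 ≃ₜ P2)
    {l₀ l₁ l₂ l₃ : S2} (hl₀ : e '' straight l₀ ∈ 𝓛) (hl₁ : e '' straight l₁ ∈ 𝓛)
    (hl₂ : e '' straight l₂ ∈ 𝓛) (hl₃ : e '' straight l₃ ∈ 𝓛) {C : Set P2} (hC : C ∈ 𝓛)
    {x y z : P2} {Γ : ℝ → P2} (hΓ : Continuous Γ) (hΓC : ∀ t, Γ t ∈ C) {P s s' : ℝ}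
    (hinj : ∀ a b, 0 ≤ a → a < P → 0 ≤ b → b < P → Γ a = Γ b → a = b)
    (hx0 : Γ 0 = e x) (hxP : Γ P = e x) (hy : Γ s = e y) (hz : Γ s' = e z)
    (h0s : 0 < s) (hss : s < s') (hsP : s' < P)
    (h1 : sg l₀ l₁ x < 0 ∧ 0 < sg l₀ l₁ y ∧ 0 < sg l₀ l₁ z)
    (h2 : 0 < sg l₀ l₂ x ∧ sg l₀ l₂ y < 0 ∧ 0 < sg l₀ l₂ z)
    (h3 : 0 < sg l₀ l₃ x ∧ 0 < sg l₀ l₃ y ∧ sg l₀ l₃ z < 0) : False := by
  have hxC : e x ∈ C := hx0 ▸ hΓC 0
  have n0 : C ≠ e '' straight l₀ := ne_image hxC fun h => h1.1.ne (sg_of_left h)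
  have n1 : C ≠ e '' straight l₁ := ne_image hxC fun h => h1.1.ne (sg_of_right h)
  have n2 : C ≠ e '' straight l₂ := ne_image hxC fun h => h2.1.ne' (sg_of_right h)
  have n3 : C ≠ e '' straight l₃ := ne_image hxC fun h => h3.1.ne' (sg_of_right h)
  have cont : ∀ l m : S2, Continuous fun t => sg l m (e.symm (Γ t)) := fun l m =>
    (continuous_sg_point l m).comp (e.symm.continuous.comp hΓ)
  have vx0 : ∀ l m : S2, sg l m (e.symm (Γ 0)) = sg l m x := fun l m => by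
    rw [hx0, e.symm_apply_apply]
  have vxP : ∀ l m : S2, sg l m (e.symm (Γ P)) = sg l m x := fun l m => by
    rw [hxP, e.symm_apply_apply]
  have vy : ∀ l m : S2, sg l m (e.symm (Γ s)) = sg l m y := fun l m => by
    rw [hy, e.symm_apply_apply]
  have vz : ∀ l m : S2, sg l m (e.symm (Γ s')) = sg l m z := fun l m => by
    rw [hz, e.symm_apply_apply]
  have on : ∀ l m : S2, ∀ t, sg l m (e.symm (Γ t)) = 0 →
      Γ t ∈ e '' straight l ∨ Γ t ∈ e '' straight m := by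
    intro l m t ht
    rcases sg_eq_zero ht with h | h
    · exact Or.inl ⟨_, h, e.apply_symm_apply _⟩
    · exact Or.inr ⟨_, h, e.apply_symm_apply _⟩
  have uq : ∀ l : S2, e '' straight l ∈ 𝓛 → C ≠ e '' straight l → ∀ a b, 0 ≤ a → a < P →
      0 ≤ b → b < P → Γ a ∈ e '' straight l → Γ b ∈ e '' straight l → a = b := by
    intro l hl hn a b ha ha' hb hb' h h'
    exact hinj a b ha ha' hb hb' (meet_unique h𝓛 hC hl hn (hΓC a) (hΓC b) h h')
  -- the zeros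
  obtain ⟨a1, a1l, a1r, a1z⟩ := zero_between h0s (cont l₀ l₁).continuousOn
    (Or.inl ⟨by rw [vx0]; exact h1.1, by rw [vy]; exact h1.2.1⟩)
  obtain ⟨b1, b1l, b1r, b1z⟩ := zero_between hsP (cont l₀ l₁).continuousOn
    (Or.inr ⟨by rw [vz]; exact h1.2.2, by rw [vxP]; exact h1.1⟩)
  obtain ⟨a2, a2l, a2r, a2z⟩ := zero_between h0s (cont l₀ l₂).continuousOn
    (Or.inr ⟨by rw [vx0]; exact h2.1, by rw [vy]; exact h2.2.1⟩)
  obtain ⟨b2, b2l, b2r, b2z⟩ := zero_between hss (cont l₀ l₂).continuousOn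
    (Or.inl ⟨by rw [vy]; exact h2.2.1, by rw [vz]; exact h2.2.2⟩)
  obtain ⟨a3, a3l, a3r, a3z⟩ := zero_between hss (cont l₀ l₃).continuousOn
    (Or.inr ⟨by rw [vy]; exact h3.2.1, by rw [vz]; exact h3.2.2⟩)
  obtain ⟨b3, b3l, b3r, b3z⟩ := zero_between hsP (cont l₀ l₃).continuousOn
    (Or.inl ⟨by rw [vz]; exact h3.2.2, by rw [vxP]; exact h3.1⟩)
  have u1 : ∃ u, Γ u ∈ e '' straight l₀ ∧ 0 < u ∧ u < P ∧ (u < s ∨ s' < u) := by
    rcases on _ _ _ a1z with h | h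
    · exact ⟨a1, h, a1l, by linarith, Or.inl a1r⟩
    · rcases on _ _ _ b1z with h' | h'
      · exact ⟨b1, h', by linarith, b1r, Or.inr b1l⟩
      · have := uq l₁ hl₁ n1 a1 b1 a1l.le (by linarith) (by linarith) b1r h h'
        linarith
  have u2 : ∃ u, Γ u ∈ e '' straight l₀ ∧ 0 < u ∧ u < P ∧ (u < s ∨ (s < u ∧ u < s')) := by
    rcases on _ _ _ a2z with h | h
    · exact ⟨a2, h, a2l, by linarith, Or.inl a2r⟩
    · rcases on _ _ _ b2z with h' | h'
      · exact ⟨b2, h', by linarith, by linarith, Or.inr ⟨b2l, b2r⟩⟩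
      · have := uq l₂ hl₂ n2 a2 b2 a2l.le (by linarith) (by linarith) (by linarith) h h'
        linarith
  have u3 : ∃ u, Γ u ∈ e '' straight l₀ ∧ 0 < u ∧ u < P ∧ ((s < u ∧ u < s') ∨ s' < u) := by
    rcases on _ _ _ a3z with h | h
    · exact ⟨a3, h, by linarith, by linarith, Or.inl ⟨a3l, a3r⟩⟩
    · rcases on _ _ _ b3z with h' | h'
      · exact ⟨b3, h', by linarith, b3r, Or.inr b3l⟩
      · have := uq l₃ hl₃ n3 a3 b3 (by linarith) (by linarith) (by linarith) b3r h h'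
        linarith
  obtain ⟨p, hp, hp0, hpP, hp'⟩ := u1
  obtain ⟨q, hq, hq0, hqP, hq'⟩ := u2
  obtain ⟨r, hr, hr0, hrP, hr'⟩ := u3
  have e1 := uq l₀ hl₀ n0 p q hp0.le hpP hq0.le hqP hp hq
  have e2 := uq l₀ hl₀ n0 p r hp0.le hpP hr0.le hrP hp hr
  subst e1
  subst e2
  rcases hp' with h | h <;> rcases hq' with h' | h' <;> rcases hr' with h'' | h'' <;>
    (try obtain ⟨h'1, h'2⟩ := h') <;> (try obtain ⟨h''1, h''2⟩ := h'') <;> linarith

theorem three_points {𝓛 : Set (Set P2)} (h𝓛 : IsTPP 𝓛) (e : P2 ≃ₜ P2) (l : Fin 4 → S2)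
    (hl : ∀ i, e '' straight (l i) ∈ 𝓛) {C : Set P2} (hC : C ∈ 𝓛) {x y z : P2}
    (hx : e x ∈ C) (hy : e y ∈ C) (hz : e z ∈ C)
    (h1 : sg (l 0) (l 1) x < 0 ∧ 0 < sg (l 0) (l 1) y ∧ 0 < sg (l 0) (l 1) z)
    (h2 : 0 < sg (l 0) (l 2) x ∧ sg (l 0) (l 2) y < 0 ∧ 0 < sg (l 0) (l 2) z)
    (h3 : 0 < sg (l 0) (l 3) x ∧ 0 < sg (l 0) (l 3) y ∧ sg (l 0) (l 3) z < 0) : False := by
  obtain ⟨⟨γ, hγ, hγi, hγr⟩, -⟩ := h𝓛.pseudoline C hC
  have hx' := hx
  have hy' := hy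
  have hz' := hz
  rw [← hγr] at hx' hy' hz'
  obtain ⟨cx, hcx⟩ := hx'
  obtain ⟨cy, hcy⟩ := hy'
  obtain ⟨cz, hcz⟩ := hz'
  have hxy : x ≠ y := by
    rintro rfl
    exact absurd h1.1 (not_lt.2 h1.2.1.le)
  have hxz : x ≠ z := by
    rintro rfl
    exact absurd h1.1 (not_lt.2 h1.2.2.le)
  have hyz : y ≠ z := by
    rintro rfl
    exact absurd h2.2.1 (not_lt.2 h2.2.2.le)
  obtain ⟨s, hs0, hsP, hs⟩ := exists_angle (cx⁻¹ * cy)
  obtain ⟨s', hs0', hsP', hs'⟩ := exists_angle (cx⁻¹ * cz)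
  have hpi := Real.pi_pos
  set Γ : ℝ → P2 := fun t => γ (cx * Circle.exp t) with hΓdef
  have hΓ : Continuous Γ := hγ.comp (continuous_const.mul Circle.exp.continuous)
  have hΓC : ∀ t, Γ t ∈ C := fun t => hγr ▸ mem_range_self _
  have hinj : ∀ a b, 0 ≤ a → a < 2 * Real.pi → 0 ≤ b → b < 2 * Real.pi → Γ a = Γ b → a = b := by
    intro a b ha ha' hb hb' h
    exact angle_unique ha ha' hb hb' (mul_left_cancel (hγi h))
  have hx0 : Γ 0 = e x := by
    change γ (cx * Circle.exp 0) = e x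
    rw [Circle.exp_zero, mul_one, hcx]
  have hxP : Γ (2 * Real.pi) = e x := by
    change γ (cx * Circle.exp (2 * Real.pi)) = e x
    rw [Circle.exp_two_pi, mul_one, hcx]
  have hΓy : Γ s = e y := by
    change γ (cx * Circle.exp s) = e y
    rw [hs, mul_inv_cancel_left, hcy]
  have hΓz : Γ s' = e z := by
    change γ (cx * Circle.exp s') = e z
    rw [hs', mul_inv_cancel_left, hcz]
  have h0s : 0 < s := by
    refine lt_of_le_of_ne hs0 ?_
    rintro rfl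
    exact hxy (e.injective (hx0.symm.trans hΓy))
  have h0s' : 0 < s' := by
    refine lt_of_le_of_ne hs0' ?_
    rintro rfl
    exact hxz (e.injective (hx0.symm.trans hΓz))
  have hss : s ≠ s' := by
    rintro rfl
    exact hyz (e.injective (hΓy.symm.trans hΓz))
  rcases lt_or_gt_of_ne hss with h | h
  · exact three_ordered h𝓛 e (hl 0) (hl 1) (hl 2) (hl 3) hC hΓ hΓC hinj hx0 hxP hΓy hΓz h0s h
      hsP' h1 h2 h3
  · exact three_ordered h𝓛 e (hl 0) (hl 1) (hl 3) (hl 2) hC hΓ hΓC hinj hx0 hxP hΓz hΓy h0s' h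
      hsP ⟨h1.1, h1.2.2, h1.2.1⟩ ⟨h3.1, h3.2.2, h3.2.1⟩ ⟨h2.1, h2.2.2, h2.2.1⟩

theorem four_points {𝓛 : Set (Set P2)} (h𝓛 : IsTPP 𝓛) (e : P2 ≃ₜ P2) {l m : S2}
    (hl : e '' straight l ∈ 𝓛) (hm : e '' straight m ∈ 𝓛) {w x y z : P2}
    (ha : Alt 𝓛 (e w) (e x) (e y) (e z)) (hw : 0 < sg l m w) (hx : sg l m x < 0)
    (hy : 0 < sg l m y) (hz : sg l m z < 0) : False := by
  obtain ⟨C, hC, γ, a, b, t₀, t₁, t₂, t₃, hγ, hinj, -, hγC, h0, h1, h2, h3, h4, e0, e1, e2, e3⟩ := ha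
  have hcont : ∀ p q, a ≤ p → q ≤ b →
      ContinuousOn (fun t => sg l m (e.symm (γ t))) (Icc p q) := by
    intro p q hp hq
    exact (continuous_sg_point l m).comp_continuousOn
      (e.symm.continuous.comp_continuousOn (hγ.mono (Icc_subset_Icc hp hq)))
  have v0 : sg l m (e.symm (γ t₀)) = sg l m w := by rw [e0, e.symm_apply_apply]
  have v1 : sg l m (e.symm (γ t₁)) = sg l m x := by rw [e1, e.symm_apply_apply]
  have v2 : sg l m (e.symm (γ t₂)) = sg l m y := by rw [e2, e.symm_apply_apply]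
  have v3 : sg l m (e.symm (γ t₃)) = sg l m z := by rw [e3, e.symm_apply_apply]
  obtain ⟨p, hp1, hp2, hp⟩ := zero_between h1 (hcont t₀ t₁ h0 (by linarith))
    (Or.inr ⟨by rw [v0]; exact hw, by rw [v1]; exact hx⟩)
  obtain ⟨q, hq1, hq2, hq⟩ := zero_between h2 (hcont t₁ t₂ (by linarith) (by linarith))
    (Or.inl ⟨by rw [v1]; exact hx, by rw [v2]; exact hy⟩)
  obtain ⟨r, hr1, hr2, hr⟩ := zero_between h3 (hcont t₂ t₃ (by linarith) (by linarith))
    (Or.inr ⟨by rw [v2]; exact hy, by rw [v3]; exact hz⟩)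
  have hwC : e w ∈ C := by
    rw [← e0]
    exact hγC t₀ ⟨h0, by linarith⟩
  have nl : C ≠ e '' straight l := ne_image hwC fun h => hw.ne' (sg_of_left h)
  have nm : C ≠ e '' straight m := ne_image hwC fun h => hw.ne' (sg_of_right h)
  have on : ∀ t, sg l m (e.symm (γ t)) = 0 → γ t ∈ e '' straight l ∨ γ t ∈ e '' straight m := by
    intro t ht
    rcases sg_eq_zero ht with h | h
    · exact Or.inl ⟨_, h, e.apply_symm_apply _⟩
    · exact Or.inr ⟨_, h, e.apply_symm_apply _⟩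
  have uq : ∀ k : S2, e '' straight k ∈ 𝓛 → C ≠ e '' straight k → ∀ s t, a ≤ s → s < b →
      a ≤ t → t < b → γ s ∈ e '' straight k → γ t ∈ e '' straight k → s = t := by
    intro k hk hn s t hs hs' ht ht' h h'
    exact hinj ⟨hs, hs'⟩ ⟨ht, ht'⟩ (meet_unique h𝓛 hC hk hn (hγC s ⟨hs, hs'.le⟩)
      (hγC t ⟨ht, ht'.le⟩) h h')
  have ap : a ≤ p := by linarith
  have pb : p < b := by linarith
  have aq : a ≤ q := by linarith
  have qb : q < b := by linarith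
  have ar : a ≤ r := by linarith
  have rb : r < b := by linarith
  rcases on p hp with hp' | hp' <;> rcases on q hq with hq' | hq' <;>
    rcases on r hr with hr' | hr'
  · have := uq l hl nl p q ap pb aq qb hp' hq'
    linarith
  · have := uq l hl nl p q ap pb aq qb hp' hq'
    linarith
  · have := uq l hl nl p r ap pb ar rb hp' hr'
    linarith
  · have := uq m hm nm q r aq qb ar rb hq' hr'
    linarith
  · have := uq l hl nl q r aq qb ar rb hq' hr'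
    linarith
  · have := uq m hm nm p r ap pb ar rb hp' hr'
    linarith
  · have := uq m hm nm p q ap pb aq qb hp' hq'
    linarith
  · have := uq m hm nm p q ap pb aq qb hp' hq'
    linarith

end Pool.Agent.Helper5.WP
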