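import Pool.Agent.Helper5.WP.Defs

/-! # Project WP, module J: definition of the profile -/

set_option autoImplicit false

namespace Pool.Agent.Helper5.WP

/-- The length of the part of the line `θ - φ = q` in the cell `[a, b] × [c, d]`. -/
noncomputable def kap (a b c d q : ℝ) : ℝ := max 0 (min b (d + q) - max a (c + q))

/-- The positions of the atoms. -/
noncomputable def pos (k : ℤ) : ℝ :=
  if 0 ≤ k then Real.arctan (TopologicalSpace.denseSeq ℝ k.toNat)
  else if Even k then -(Real.pi / 2) + (10 : ℝ) ^ k else Real.pi / 2 - (10 : ℝ) ^ k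

/-- The elementary convex functions. -/
noncomputable def el (k : ℤ) (t : ℝ) : ℝ :=
  if 0 ≤ k then |t - pos k| / 2 else if Even k then max 0 (pos k - t) else max 0 (t - pos k)

/-- The profile. -/
noncomputable def prof (t : ℝ) : ℝ := -∑' k : ℤ, (10 : ℝ) ^ (-k) * el k t

end Pool.Agent.Helper5.WP
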