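import Pool.Agent.Helper5.WP.ProfSum

/-! # Project WP, module J2: the mixed differences of the profile -/

set_option autoImplicit false

namespace Pool.Agent.Helper5.WP

open Metric Set Topology
open Filter (Tendsto atTop atBot)

theorem kap_nonneg (a b c d q : ℝ) : 0 ≤ kap a b c d q :=
  le_max_left _ _

theorem kap_le_left {a b : ℝ} (h : a ≤ b) (c d q : ℝ) : kap a b c d q ≤ b - a := by
  unfold kap
  exact max_le (sub_nonneg.2 h) (sub_le_sub (min_le_left _ _) (le_max_left _ _))

theorem kap_le_right {c d : ℝ} (h : c ≤ d) (a b q : ℝ) : kap a b c d q ≤ d - c := by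
  unfold kap
  refine max_le (sub_nonneg.2 h) ?_
  have h1 : min b (d + q) ≤ d + q := min_le_right _ _
  have h2 : c + q ≤ max a (c + q) := le_max_right _ _
  linarith

theorem kap_ne_zero {a b c d q : ℝ} (h : kap a b c d q ≠ 0) : a - d < q ∧ q < b - c := by
  have h0 : 0 < min b (d + q) - max a (c + q) := by
    by_contra hneg
    exact h (max_eq_left (not_lt.1 hneg))
  have h1 : min b (d + q) ≤ d + q := min_le_right _ _
  have h2 : c + q ≤ max a (c + q) := le_max_right _ _
  have h3 : min b (d + q) ≤ b := min_le_left _ _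
  have h4 : a ≤ max a (c + q) := le_max_left _ _
  constructor <;> linarith

theorem kap_pos {a b c d q : ℝ} (hab : a < b) (hcd : c < d) (h1 : a - d < q) (h2 : q < b - c) :
    0 < kap a b c d q := by
  unfold kap
  refine lt_max_of_lt_right (sub_pos.2 ?_)
  refine lt_min (max_lt hab ?_) (max_lt ?_ ?_) <;> linarith

private lemma pp_mix {A B C D : ℝ} (hAB : A ≤ B) (hCD : C ≤ D) :
    max 0 (D - A) + max 0 (C - B) - max 0 (C - A) - max 0 (D - B) =
      max 0 (min B D - max A C) := by
  rcases le_total C A with h1 | h1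
  · rw [max_eq_left (show C - B ≤ 0 by linarith), max_eq_left (show C - A ≤ 0 by linarith),
      max_eq_left h1]
    rcases le_total D A with h2 | h2
    · rw [min_eq_right (h2.trans hAB), max_eq_left (show D - A ≤ 0 by linarith),
        max_eq_left (show D - B ≤ 0 by linarith)]
      ring
    · rcases le_total D B with h3 | h3
      · rw [min_eq_right h3, max_eq_right (show 0 ≤ D - A by linarith),
          max_eq_left (show D - B ≤ 0 by linarith)]
        ring
      · rw [min_eq_left h3, max_eq_right (show 0 ≤ D - A by linarith),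
          max_eq_right (show 0 ≤ D - B by linarith), max_eq_right (show 0 ≤ B - A by linarith)]
        ring
  · rw [max_eq_right (show 0 ≤ C - A by linarith), max_eq_right (show 0 ≤ D - A by linarith),
      max_eq_right h1]
    rcases le_total B C with h2 | h2
    · rw [min_eq_left (h2.trans hCD), max_eq_right (show 0 ≤ C - B by linarith),
        max_eq_right (show 0 ≤ D - B by linarith), max_eq_left (show B - C ≤ 0 by linarith)]
      ring
    · rw [max_eq_left (show C - B ≤ 0 by linarith)]
      rcases le_total D B with h3 | h3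
      · rw [min_eq_right h3, max_eq_left (show D - B ≤ 0 by linarith),
          max_eq_right (show 0 ≤ D - C by linarith)]
        ring
      · rw [min_eq_left h3, max_eq_right (show 0 ≤ D - B by linarith),
          max_eq_right (show 0 ≤ B - C by linarith)]
        ring

private lemma abs_half (t p : ℝ) : |t - p| / 2 = max 0 (p - t) - (p - t) / 2 := by
  rcases le_total t p with h | h
  · rw [abs_of_nonpos (by linarith), max_eq_right (show 0 ≤ p - t by linarith)]
    ring
  · rw [abs_of_nonneg (by linarith), max_eq_left (show p - t ≤ 0 by linarith)]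
    ring

private lemma max_swap (t p : ℝ) : max 0 (t - p) = max 0 (p - t) - (p - t) := by
  rcases le_total t p with h | h
  · rw [max_eq_left (show t - p ≤ 0 by linarith), max_eq_right (show 0 ≤ p - t by linarith)]
    ring
  · rw [max_eq_right (show 0 ≤ t - p by linarith), max_eq_left (show p - t ≤ 0 by linarith)]
    ring

theorem el_mix {a b c d : ℝ} (hab : a ≤ b) (hcd : c ≤ d) (k : ℤ) :
    el k (a - d) + el k (b - c) - el k (a - c) - el k (b - d) = kap a b c d (pos k) := by
  unfold el kap
  generalize pos k = p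
  have h := pp_mix hab (add_le_add_left hcd p)
  have e1 : p - (a - d) = d + p - a := by ring
  have e2 : p - (b - c) = c + p - b := by ring
  have e3 : p - (a - c) = c + p - a := by ring
  have e4 : p - (b - d) = d + p - b := by ring
  rw [← h]
  split_ifs
  · rw [abs_half, abs_half, abs_half, abs_half, e1, e2, e3, e4]
    ring
  · rw [e1, e2, e3, e4]
  · rw [max_swap, max_swap (b - c), max_swap (a - c), max_swap (b - d), e1, e2, e3, e4]
    ring

theorem hasSum_mix {a b c d : ℝ} (hab : a ≤ b) (hcd : c ≤ d) (h1 : -(Real.pi / 2) < a - d)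
    (h2 : b - c < Real.pi / 2) : HasSum (fun k : ℤ => (10 : ℝ) ^ (-k) * kap a b c d (pos k))
      (prof (b - d) + prof (a - c) - prof (b - c) - prof (a - d)) := by
  have s1 := (summable_el (t := a - d) (abs_lt.2 ⟨by linarith, by linarith⟩)).hasSum
  have s2 := (summable_el (t := b - c) (abs_lt.2 ⟨by linarith, by linarith⟩)).hasSum
  have s3 := (summable_el (t := a - c) (abs_lt.2 ⟨by linarith, by linarith⟩)).hasSum
  have s4 := (summable_el (t := b - d) (abs_lt.2 ⟨by linarith, by linarith⟩)).hasSum
  have s := ((s1.add s2).sub s3).sub s4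
  have e1 : (fun k : ℤ => (10 : ℝ) ^ (-k) * kap a b c d (pos k)) = fun k : ℤ =>
      (10 : ℝ) ^ (-k) * el k (a - d) + (10 : ℝ) ^ (-k) * el k (b - c) -
        (10 : ℝ) ^ (-k) * el k (a - c) - (10 : ℝ) ^ (-k) * el k (b - d) := by
    funext k
    rw [← el_mix hab hcd k]
    ring
  have e2 : prof (b - d) + prof (a - c) - prof (b - c) - prof (a - d) =
      (∑' k : ℤ, (10 : ℝ) ^ (-k) * el k (a - d)) + (∑' k : ℤ, (10 : ℝ) ^ (-k) * el k (b - c)) -
        (∑' k : ℤ, (10 : ℝ) ^ (-k) * el k (a - c)) -
          ∑' k : ℤ, (10 : ℝ) ^ (-k) * el k (b - d) := by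
    unfold prof
    ring
  rw [e1, e2]
  exact s

theorem exists_pos {u v : ℝ} (huv : u < v) (hu : -(Real.pi / 2) ≤ u) (hv : v ≤ Real.pi / 2) :
    ∃ k : ℤ, u < pos k ∧ pos k < v := by
  have hopen : IsOpen (Real.arctan ⁻¹' Ioo u v) := isOpen_Ioo.preimage Real.continuous_arctan
  have hne : (Real.arctan ⁻¹' Ioo u v).Nonempty := by
    refine ⟨Real.tan ((u + v) / 2), ?_⟩
    rw [mem_preimage, Real.arctan_tan (by linarith) (by linarith)]
    constructor <;> linarith
  obtain ⟨n, hn⟩ := (TopologicalSpace.denseRange_denseSeq ℝ).exists_mem_open hopen hne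
  refine ⟨(n : ℤ), ?_⟩
  have hp : pos (n : ℤ) = Real.arctan (TopologicalSpace.denseSeq ℝ n) := by
    unfold pos
    rw [if_pos (Int.natCast_nonneg n), Int.toNat_natCast]
  rw [hp]
  exact hn

theorem bdd_pos {u v : ℝ} (hu : -(Real.pi / 2) < u) (hv : v < Real.pi / 2) :
    ∃ N : ℤ, ∀ k : ℤ, u < pos k → pos k < v → N ≤ k := by
  have he : 0 < min (u + Real.pi / 2) (Real.pi / 2 - v) :=
    lt_min (by linarith) (by linarith)
  obtain ⟨n, hn⟩ := exists_pow_lt_of_lt_one he (show (1 / 10 : ℝ) < 1 by norm_num)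
  refine ⟨-(n : ℤ), fun k hk1 hk2 => ?_⟩
  by_contra hlt
  rw [not_le] at hlt
  have hk0 : ¬ 0 ≤ k := by
    intro h
    have : (0 : ℤ) ≤ (n : ℤ) := Int.natCast_nonneg n
    omega
  have hpow : (10 : ℝ) ^ k ≤ (1 / 10 : ℝ) ^ n := by
    have h3 : (10 : ℝ) ^ k ≤ (10 : ℝ) ^ (-(n : ℤ)) :=
      zpow_le_zpow_right₀ (by norm_num) hlt.le
    rw [zpow_neg, zpow_natCast, ← inv_pow] at h3
    rwa [one_div]
  have hm1 : min (u + Real.pi / 2) (Real.pi / 2 - v) ≤ u + Real.pi / 2 := min_le_left _ _
  have hm2 : min (u + Real.pi / 2) (Real.pi / 2 - v) ≤ Real.pi / 2 - v := min_le_right _ _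
  unfold pos at hk1 hk2
  rw [if_neg hk0] at hk1 hk2
  by_cases hev : Even k
  · rw [if_pos hev] at hk1
    linarith
  · rw [if_neg hev] at hk2
    linarith

theorem isProf_prof : IsProf prof where
  cont := prof_cont
  left := prof_left
  right := prof_right
  mix := by
    intro a b c d hab hcd h1 h2
    have hs := hasSum_mix hab.le hcd.le h1 h2
    obtain ⟨k, hk1, hk2⟩ := exists_pos (u := a - d) (v := b - c) (by linarith) h1.le h2.le
    have hpos : 0 < prof (b - d) + prof (a - c) - prof (b - c) - prof (a - d) := by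
      have hnn : ∀ i : ℤ, 0 ≤ (10 : ℝ) ^ (-i) * kap a b c d (pos i) := fun i =>
        mul_nonneg (zpow_nonneg (by norm_num) _) (kap_nonneg _ _ _ _ _)
      have hk : 0 < (10 : ℝ) ^ (-k) * kap a b c d (pos k) :=
        mul_pos (zpow_pos (by norm_num) _) (kap_pos hab hcd hk1 hk2)
      exact hk.trans_le (le_hasSum hs k fun i _ => hnn i)
    linarith

end Pool.Agent.Helper5.WP
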