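import Pool.Agent.Helper5.WP.ProfDef

/-! # Project WP, module J1: the profile is continuous and tends to `-∞` at the ends -/

set_option autoImplicit false

namespace Pool.Agent.Helper5.WP

open Metric Set Topology
open Filter (Tendsto atTop atBot)

theorem el_nonneg (k : ℤ) (t : ℝ) : 0 ≤ el k t := by
  unfold el
  split_ifs
  · positivity
  · exact le_max_left _ _
  · exact le_max_left _ _

private theorem abs_pos_le {k : ℤ} (hk : 0 ≤ k) : |pos k| ≤ Real.pi / 2 := by
  unfold pos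
  rw [if_pos hk]
  exact abs_le.2 ⟨(Real.neg_pi_div_two_lt_arctan _).le, (Real.arctan_lt_pi_div_two _).le⟩

private theorem one_sub_le_inv {x : ℝ} (hx : 0 < x) : 1 - x ≤ 1 / x := by
  rw [le_div_iff₀ hx]
  nlinarith [sq_nonneg (x - 1)]

private theorem term_le {η : ℝ} (hη : 0 < η) {t : ℝ} (ht : |t| ≤ Real.pi / 2 - η) (k : ℤ) :
    (10 : ℝ) ^ (-k) * el k t ≤ (Real.pi + 1 / η) * (10 : ℝ) ^ (-|k|) := by
  have hpi := Real.pi_pos
  have h1 : 0 < 1 / η := by positivity
  obtain ⟨ht1, ht2⟩ := abs_le.1 ht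
  rcases le_or_gt 0 k with hk | hk
  · have hp : (0 : ℝ) < (10 : ℝ) ^ (-k) := by positivity
    have he : el k t ≤ Real.pi := by
      unfold el
      rw [if_pos hk]
      have h2 := abs_pos_le hk
      have h3 : |t - pos k| ≤ |t| + |pos k| := abs_sub _ _
      linarith
    rw [abs_of_nonneg hk, mul_comm]
    exact mul_le_mul_of_nonneg_right (by linarith) hp.le
  · have hp : (0 : ℝ) < (10 : ℝ) ^ (-k) := by positivity
    have hq : (0 : ℝ) < (10 : ℝ) ^ k := by positivity
    have hpq : (10 : ℝ) ^ (-k) * (10 : ℝ) ^ k = 1 := by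
      rw [← zpow_add₀ (by norm_num)]
      simp
    have he : el k t ≤ max 0 ((10 : ℝ) ^ k - η) := by
      unfold el
      rw [if_neg (not_le.2 hk)]
      unfold pos
      rw [if_neg (not_le.2 hk)]
      split_ifs with hev
      · apply max_le_max le_rfl
        linarith
      · apply max_le_max le_rfl
        linarith
    have hk' : (10 : ℝ) ^ (-|k|) = (10 : ℝ) ^ k := by
      rw [abs_of_neg hk, neg_neg]
    rw [hk']
    calc (10 : ℝ) ^ (-k) * el k t ≤ (10 : ℝ) ^ (-k) * max 0 ((10 : ℝ) ^ k - η) :=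
          mul_le_mul_of_nonneg_left he hp.le
      _ = max 0 (1 - (10 : ℝ) ^ (-k) * η) := by
          rw [mul_max_of_nonneg _ _ hp.le, mul_zero, mul_sub, hpq]
      _ ≤ 1 / ((10 : ℝ) ^ (-k) * η) :=
          max_le (by positivity) (one_sub_le_inv (by positivity))
      _ = (1 / η) * (10 : ℝ) ^ k := by
          rw [eq_comm, eq_div_iff (by positivity)]
          calc 1 / η * (10 : ℝ) ^ k * ((10 : ℝ) ^ (-k) * η)
              = (1 / η * η) * ((10 : ℝ) ^ (-k) * (10 : ℝ) ^ k) := by ring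
            _ = 1 := by rw [hpq, one_div, inv_mul_cancel₀ hη.ne', mul_one]
      _ ≤ (Real.pi + 1 / η) * (10 : ℝ) ^ k :=
          mul_le_mul_of_nonneg_right (by linarith) hq.le

private theorem summable_bd (c : ℝ) : Summable fun k : ℤ => c * (10 : ℝ) ^ (-|k|) := by
  apply Summable.mul_left
  have hg : Summable fun n : ℕ => ((10 : ℝ)⁻¹) ^ n :=
    summable_geometric_of_lt_one (by norm_num) (by norm_num)
  apply Summable.of_nat_of_neg_add_one
  · refine hg.congr fun n => ?_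
    rw [abs_of_nonneg (by positivity), zpow_neg, inv_pow, zpow_natCast]
  · refine ((summable_nat_add_iff 1).2 hg).congr fun n => ?_
    rw [abs_neg, abs_of_nonneg (by positivity), zpow_neg, inv_pow]
    norm_cast

private theorem term_nonneg (k : ℤ) (t : ℝ) : 0 ≤ (10 : ℝ) ^ (-k) * el k t :=
  mul_nonneg (by positivity) (el_nonneg k t)

private theorem summable_aux {η : ℝ} (hη : 0 < η) {t : ℝ} (ht : |t| ≤ Real.pi / 2 - η) :
    Summable fun k : ℤ => (10 : ℝ) ^ (-k) * el k t :=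
  Summable.of_nonneg_of_le (fun k => term_nonneg k t) (fun k => term_le hη ht k) (summable_bd _)

theorem summable_el {t : ℝ} (ht : |t| < Real.pi / 2) :
    Summable fun k : ℤ => (10 : ℝ) ^ (-k) * el k t :=
  summable_aux (η := Real.pi / 2 - |t|) (by linarith) (by linarith)

private theorem el_cont (k : ℤ) : Continuous (el k) := by
  unfold el
  split_ifs
  · fun_prop
  · fun_prop
  · fun_prop

theorem prof_cont : ContinuousOn prof (Ioo (-(Real.pi / 2)) (Real.pi / 2)) := by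
  intro t₀ ht₀
  have ht : |t₀| < Real.pi / 2 := abs_lt.2 ⟨ht₀.1, ht₀.2⟩
  set η : ℝ := (Real.pi / 2 - |t₀|) / 2 with hη
  have hη0 : 0 < η := by rw [hη]; linarith
  have hc : ContinuousOn prof {t : ℝ | |t| ≤ Real.pi / 2 - η} := by
    unfold prof
    apply ContinuousOn.neg
    refine continuousOn_tsum (u := fun k : ℤ => (Real.pi + 1 / η) * (10 : ℝ) ^ (-|k|))
      (fun k => ?_) (summable_bd _) (fun k t ht' => ?_)
    · exact (continuous_const.mul (el_cont k)).continuousOn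
    · rw [Real.norm_of_nonneg (term_nonneg k t)]
      exact term_le hη0 ht' k
  have hmem : {t : ℝ | |t| ≤ Real.pi / 2 - η} ∈ 𝓝 t₀ := by
    have ho : IsOpen {t : ℝ | |t| < Real.pi / 2 - η} := isOpen_lt continuous_abs continuous_const
    refine Filter.mem_of_superset (ho.mem_nhds ?_) (fun t (ht' : |t| < Real.pi / 2 - η) =>
      (ht'.le : |t| ≤ Real.pi / 2 - η))
    show |t₀| < Real.pi / 2 - η
    rw [hη]
    linarith
  exact (hc.continuousAt hmem).continuousWithinAt

private theorem sum_bd {t : ℝ} (ht : |t| < Real.pi / 2) (g : ℕ → ℤ) (hg : Function.Injective g)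
    (N : ℕ) (h : ∀ n < N, 1 / 2 ≤ (10 : ℝ) ^ (-(g n)) * el (g n) t) : prof t ≤ -(N / 2 : ℝ) := by
  unfold prof
  apply neg_le_neg
  have h1 := (summable_el ht).sum_le_tsum ((Finset.range N).map ⟨g, hg⟩)
    (fun k _ => term_nonneg k t)
  refine le_trans ?_ h1
  rw [Finset.sum_map]
  have h2 : ∑ n ∈ Finset.range N, (1 / 2 : ℝ) ≤
      ∑ n ∈ Finset.range N, (10 : ℝ) ^ (-(g n)) * el (g n) t :=
    Finset.sum_le_sum fun n hn => h n (Finset.mem_range.1 hn)
  rw [Finset.sum_const, Finset.card_range, nsmul_eq_mul] at h2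
  calc (N / 2 : ℝ) = N * (1 / 2) := by ring
    _ ≤ _ := h2

private theorem pow_small (N : ℕ) (m : ℕ) (hm : m ≤ 2 * N) {s : ℝ} (hs0 : 0 < s)
    (hs : s < ((10 : ℝ) ^ (2 * N))⁻¹ / 2) : 1 / 2 ≤ (10 : ℝ) ^ m * (((10 : ℝ) ^ m)⁻¹ - s) := by
  have hp : (0 : ℝ) < (10 : ℝ) ^ m := by positivity
  have hp2 : (0 : ℝ) < (10 : ℝ) ^ (2 * N) := by positivity
  have hle : (10 : ℝ) ^ m ≤ (10 : ℝ) ^ (2 * N) := pow_le_pow_right₀ (by norm_num) hm
  rw [mul_sub, mul_inv_cancel₀ hp.ne']
  have h1 : (10 : ℝ) ^ m * s ≤ (10 : ℝ) ^ (2 * N) * s := mul_le_mul_of_nonneg_right hle hs0.le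
  have h2 : (10 : ℝ) ^ (2 * N) * s ≤ 1 / 2 := by
    have h3 : (10 : ℝ) ^ (2 * N) * s ≤ (10 : ℝ) ^ (2 * N) * (((10 : ℝ) ^ (2 * N))⁻¹ / 2) :=
      mul_le_mul_of_nonneg_left hs.le hp2.le
    have h4 : (10 : ℝ) ^ (2 * N) * (((10 : ℝ) ^ (2 * N))⁻¹ / 2) = 1 / 2 := by
      rw [← mul_div_assoc, mul_inv_cancel₀ hp2.ne']
    linarith
  linarith

theorem prof_left : Tendsto prof (𝓝[>] (-(Real.pi / 2))) atBot := by
  have hpi := Real.pi_pos
  rw [Filter.tendsto_atBot]
  intro M
  obtain ⟨N, hN⟩ := exists_nat_ge (-2 * M)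
  set e : ℝ := ((10 : ℝ) ^ (2 * N))⁻¹ / 2 with he
  have he0 : 0 < e := by positivity
  have hmem : Ioo (-(Real.pi / 2)) (min (-(Real.pi / 2) + e) (Real.pi / 2)) ∈
      𝓝[>] (-(Real.pi / 2)) := by
    apply Ioo_mem_nhdsGT
    apply lt_min <;> linarith
  filter_upwards [hmem] with t ht
  have ht1 := ht.1
  have ht2 : t < -(Real.pi / 2) + e := lt_of_lt_of_le ht.2 (min_le_left _ _)
  have ht3 : t < Real.pi / 2 := lt_of_lt_of_le ht.2 (min_le_right _ _)
  have hb := sum_bd (t := t) (abs_lt.2 ⟨ht1, ht3⟩) (fun n : ℕ => -(2 * (n : ℤ) + 2))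
    (fun a b hab => by
      simp only at hab
      omega) N (fun n hn => by
      have hneg : ¬ (0 : ℤ) ≤ -(2 * (n : ℤ) + 2) := by omega
      have hev : Even (-(2 * (n : ℤ) + 2)) := ⟨-((n : ℤ) + 1), by ring⟩
      have hz : (10 : ℝ) ^ (-(-(2 * (n : ℤ) + 2))) = (10 : ℝ) ^ (2 * n + 2) := by
        rw [neg_neg]
        exact_mod_cast rfl
      have hz2 : (10 : ℝ) ^ (-(2 * (n : ℤ) + 2)) = ((10 : ℝ) ^ (2 * n + 2))⁻¹ := by
        rw [zpow_neg]
        congr 1
      rw [hz]
      unfold el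
      rw [if_neg hneg, if_pos hev]
      unfold pos
      rw [if_neg hneg, if_pos hev, hz2]
      have h5 := pow_small N (2 * n + 2) (by omega) (s := t + Real.pi / 2) (by linarith)
        (by linarith)
      refine h5.trans (mul_le_mul_of_nonneg_left ?_ (by positivity))
      refine le_trans (le_of_eq ?_) (le_max_right _ _)
      ring)
  linarith

theorem prof_right : Tendsto prof (𝓝[<] (Real.pi / 2)) atBot := by
  have hpi := Real.pi_pos
  rw [Filter.tendsto_atBot]
  intro M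
  obtain ⟨N, hN⟩ := exists_nat_ge (-2 * M)
  set e : ℝ := ((10 : ℝ) ^ (2 * N))⁻¹ / 2 with he
  have he0 : 0 < e := by positivity
  have hmem : Ioo (max (Real.pi / 2 - e) (-(Real.pi / 2))) (Real.pi / 2) ∈
      𝓝[<] (Real.pi / 2) := by
    apply Ioo_mem_nhdsLT
    apply max_lt <;> linarith
  filter_upwards [hmem] with t ht
  have ht1 := ht.2
  have ht2 : Real.pi / 2 - e < t := lt_of_le_of_lt (le_max_left _ _) ht.1
  have ht3 : -(Real.pi / 2) < t := lt_of_le_of_lt (le_max_right _ _) ht.1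
  have hb := sum_bd (t := t) (abs_lt.2 ⟨ht3, ht1⟩) (fun n : ℕ => -(2 * (n : ℤ) + 1))
    (fun a b hab => by
      simp only at hab
      omega) N (fun n hn => by
      have hneg : ¬ (0 : ℤ) ≤ -(2 * (n : ℤ) + 1) := by omega
      have hev : ¬ Even (-(2 * (n : ℤ) + 1)) := by
        rw [Int.not_even_iff_odd]
        exact ⟨-((n : ℤ) + 1), by ring⟩
      have hz : (10 : ℝ) ^ (-(-(2 * (n : ℤ) + 1))) = (10 : ℝ) ^ (2 * n + 1) := by
        rw [neg_neg]
        exact_mod_cast rfl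
      have hz2 : (10 : ℝ) ^ (-(2 * (n : ℤ) + 1)) = ((10 : ℝ) ^ (2 * n + 1))⁻¹ := by
        rw [zpow_neg]
        congr 1
      rw [hz]
      unfold el
      rw [if_neg hneg, if_neg hev]
      unfold pos
      rw [if_neg hneg, if_neg hev, hz2]
      have h5 := pow_small N (2 * n + 1) (by omega) (s := Real.pi / 2 - t) (by linarith)
        (by linarith)
      refine h5.trans (mul_le_mul_of_nonneg_left ?_ (by positivity))
      refine le_trans (le_of_eq ?_) (le_max_right _ _)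
      ring)
  linarith

end Pool.Agent.Helper5.WP
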