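import Pool.Agent.Helper5.WP.Ang

/-! # Project WP, module E1: the lines of the radial plane are circles on the sphere -/

set_option autoImplicit false

namespace Pool.Agent.Helper5.WP

open Pool.Agent.Helper7.TP Metric Set Topology
open Filter (Tendsto atTop atBot)

theorem IsGauge.conj {Γ : ℂ → ℝ} (h : IsGauge Γ) : IsGauge fun w => Γ ((starRingEnd ℂ) w) where
  cont := h.cont.comp Complex.continuous_conj
  smul r w := by
    simp only [map_mul, Complex.conj_ofReal]
    exact h.smul r _
  pos w := by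
    rw [h.pos, Complex.conj_re]
  mix a b c d hab hcd h1 h2 := by
    have key : ∀ t : ℝ, ang (fun w => Γ ((starRingEnd ℂ) w)) t = ang Γ (-t) := by
      intro t
      unfold ang
      simp only
      congr 1
      rw [← Complex.exp_conj, map_mul, Complex.conj_ofReal, Complex.conj_I]
      congr 1
      push_cast
      ring
    rw [key, key, key, key]
    have := h.mix c d a b hcd hab (by linarith) (by linarith)
    have e1 : -(a - d) = d - a := by ring
    have e2 : -(b - c) = c - b := by ring
    have e3 : -(a - c) = c - a := by ring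
    have e4 : -(b - d) = d - b := by ring
    rw [e1, e2, e3, e4, mul_comm (ang Γ (d - a))]
    exact this

theorem HG_swap (Γ : ℂ → ℝ) (p l : S2) :
    HG Γ p l = HG (fun w => Γ ((starRingEnd ℂ) w)) l p := by
  unfold HG
  simp only [map_mul, Complex.conj_conj]
  rw [mul_comm (cx p), mul_comm ((p : E3) 2)]

/-- The first two coordinates of a vector, as a complex number. -/
private def rcx (v : E3) : ℂ := ⟨v 0, v 1⟩

private theorem cx_eq (p : S2) : cx p = rcx (p : E3) := rfl

private theorem continuous_rcx : Continuous rcx := by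
  have h0 : Continuous fun v : E3 => v 0 := by fun_prop
  have h1 : Continuous fun v : E3 => v 1 := by fun_prop
  have h3 : Continuous fun v : E3 => ((v 0 : ℝ) : ℂ) + ((v 1 : ℝ) : ℂ) * Complex.I :=
    (Complex.continuous_ofReal.comp h0).add
      ((Complex.continuous_ofReal.comp h1).mul continuous_const)
  refine h3.congr fun v => ?_
  apply Complex.ext <;> simp [rcx]

private theorem continuous_cx' : Continuous cx := continuous_rcx.comp continuous_subtype_val

private theorem rcx_smul (r : ℝ) (v : E3) : rcx (r • v) = (r : ℂ) * rcx v := by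
  apply Complex.ext <;> simp [rcx]

private theorem rcx_vec (z : ℂ) (k : ℝ) : rcx (vec z k) = z := by
  apply Complex.ext <;> simp [rcx, vec]

private theorem vec_two (z : ℂ) (k : ℝ) : (vec z k) 2 = k := by
  simp [vec]

private theorem vec_rcx (v : E3) : vec (rcx v) (v 2) = v := by
  ext i
  fin_cases i <;> simp [vec, rcx]

private theorem gauge_zero {Γ : ℂ → ℝ} (h : IsGauge Γ) : Γ 0 = 0 := by
  have := h.smul 0 0
  simpa using this

private theorem gauge_neg {Γ : ℂ → ℝ} (h : IsGauge Γ) (w : ℂ) : Γ (-w) = -Γ w := by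
  have := h.smul (-1) w
  simpa using this

private theorem gauge_eq_zero {Γ : ℂ → ℝ} (h : IsGauge Γ) (w : ℂ) : Γ w = 0 ↔ w.re = 0 := by
  have h1 := h.pos w
  have h2 := h.pos (-w)
  rw [gauge_neg h, Complex.neg_re] at h2
  constructor
  · intro h0
    rw [h0] at h1 h2
    have h3 : ¬ 0 < w.re := fun hc => lt_irrefl _ (h1.2 hc)
    have h4 : ¬ 0 < -w.re := fun hc => by
      have := h2.2 hc
      simp at this
    linarith
  · intro h0
    rw [h0] at h1 h2
    have h3 : ¬ 0 < Γ w := fun hc => lt_irrefl _ (h1.1 hc)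
    have h4 : ¬ 0 < -Γ w := fun hc => by
      have := h2.1 hc
      simp at this
    linarith

theorem HG_cont {Γ : ℂ → ℝ} (h : IsGauge Γ) : Continuous fun z : S2 × S2 => HG Γ z.1 z.2 := by
  unfold HG
  have hc := continuous_cx'
  have h2 : Continuous fun p : S2 => (p : E3) 2 := by fun_prop
  refine Continuous.sub ?_ ?_
  · exact h.cont.comp ((hc.comp continuous_fst).mul
      (Complex.continuous_conj.comp (hc.comp continuous_snd)))
  · exact (h2.comp continuous_fst).mul (h2.comp continuous_snd)

private theorem cx_neg (p : S2) : cx (-p) = -cx p := by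
  apply Complex.ext <;> simp [cx]

private theorem coord_neg (p : S2) : ((-p : S2) : E3) 2 = -(p : E3) 2 := by simp

theorem HG_neg_left {Γ : ℂ → ℝ} (h : IsGauge Γ) (p l : S2) : HG Γ (-p) l = -HG Γ p l := by
  unfold HG
  rw [cx_neg, coord_neg, neg_mul, gauge_neg h]
  ring

theorem HG_neg_right {Γ : ℂ → ℝ} (h : IsGauge Γ) (p l : S2) : HG Γ p (-l) = -HG Γ p l := by
  unfold HG
  rw [cx_neg, coord_neg, map_neg, mul_neg, gauge_neg h]
  ring

private theorem HG_nrm {Γ : ℂ → ℝ} (h : IsGauge Γ) (v : E3) (hv : v ≠ 0) (l : S2) :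
    HG Γ (nrm v hv) l =
      ‖v‖⁻¹ * (Γ (rcx v * (starRingEnd ℂ) (cx l)) - v 2 * (l : E3) 2) := by
  unfold HG
  rw [cx_eq, nrm_coe, rcx_smul, mul_assoc, h.smul]
  have : (‖v‖⁻¹ • v) 2 = ‖v‖⁻¹ * v 2 := by simp
  rw [this]
  ring

private theorem nrm_of_smul {v : E3} (hv : v ≠ 0) {t : ℝ} (ht : 0 < t) (p : S2)
    (h : v = t • (p : E3)) : nrm v hv = p := by
  apply Subtype.ext
  have hp : ‖(p : E3)‖ = 1 := norm_eq_of_mem_sphere p
  have hn : ‖v‖ = t := by
    rw [h, norm_smul, hp, mul_one, Real.norm_eq_abs, abs_of_pos ht]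
  rw [nrm_coe, hn, h, smul_smul, inv_mul_cancel₀ ht.ne', one_smul]

private theorem nrm_neg' {v w : E3} (hv : v ≠ 0) (hw : w ≠ 0) (h : w = -v) :
    nrm w hw = -nrm v hv := by
  subst h
  apply Subtype.ext
  rw [coe_neg_sphere, nrm_coe, nrm_coe, norm_neg, smul_neg]

private theorem continuous_nrm {X : Type} [TopologicalSpace X] (w : X → E3) (hw : ∀ x, w x ≠ 0)
    (hc : Continuous w) : Continuous fun x => nrm (w x) (hw x) := by
  refine Continuous.subtype_mk ?_ _
  exact (hc.norm.inv₀ fun x => norm_ne_zero_iff.2 (hw x)).smul hc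

private theorem continuous_vec {X : Type} [TopologicalSpace X] (a : X → ℂ) (b : X → ℝ)
    (ha : Continuous a) (hb : Continuous b) : Continuous fun x => vec (a x) (b x) := by
  have h0 : Continuous fun x => (a x).re := Complex.continuous_re.comp ha
  have h1 : Continuous fun x => (a x).im := Complex.continuous_im.comp ha
  unfold vec
  refine (PiLp.continuous_toLp 2 _).comp (continuous_pi fun i => ?_)
  fin_cases i
  · exact h0
  · exact h1
  · exact hb

private theorem sq_sphere (p : S2) : ‖cx p‖ ^ 2 + (p : E3) 2 ^ 2 = 1 := by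
  have h1 : ‖(p : E3)‖ = 1 := norm_eq_of_mem_sphere p
  have h2 : ‖(p : E3)‖ ^ 2 = 1 := by rw [h1, one_pow]
  rw [EuclideanSpace.norm_sq_eq, Fin.sum_univ_three] at h2
  rw [← Complex.normSq_eq_norm_sq, Complex.normSq_apply]
  simp only [Real.norm_eq_abs, sq_abs] at h2
  change (p : E3) 0 * (p : E3) 0 + (p : E3) 1 * (p : E3) 1 + (p : E3) 2 ^ 2 = 1
  linarith

private theorem circCont : Continuous fun z : Circle => (z : ℂ) := by
  fun_prop

theorem HG_curve {Γ : ℂ → ℝ} (h : IsGauge Γ) (l : S2) :
    ∃ c : Circle → S2, Continuous c ∧ Function.Injective c ∧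
      range c = {p | HG Γ p l = 0} ∧ ∀ z, c (-z) = -c z := by
  by_cases hl : (l : E3) 2 = 0
  · -- a line through the centre
    have hs := sq_sphere l
    rw [hl] at hs
    have hn : ‖cx l‖ = 1 := by
      have h0 := norm_nonneg (cx l)
      nlinarith
    have hcl : cx l * (starRingEnd ℂ) (cx l) = 1 := by
      rw [Complex.mul_conj, Complex.normSq_eq_norm_sq, hn]
      simp
    let w : Circle → E3 := fun z => vec (((z : ℂ).im : ℂ) * (Complex.I * cx l)) (z : ℂ).re
    have hwn : ∀ z, w z ≠ 0 := by
      intro z hz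
      have h1 : rcx (w z) = 0 := by rw [hz]; apply Complex.ext <;> simp [rcx]
      have h2 : (w z) 2 = 0 := by rw [hz]; simp
      rw [rcx_vec] at h1
      rw [vec_two] at h2
      have h3 : cx l ≠ 0 := by
        intro h0
        rw [h0, norm_zero] at hn
        exact zero_ne_one hn
      have h4 : ((z : ℂ).im : ℂ) = 0 := by
        rcases mul_eq_zero.1 h1 with h5 | h5
        · exact h5
        · rcases mul_eq_zero.1 h5 with h6 | h6
          · exact absurd h6 Complex.I_ne_zero
          · exact absurd h6 h3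
      have h5 : (z : ℂ) = 0 := Complex.ext h2 (by exact_mod_cast h4)
      exact Circle.coe_ne_zero z h5
    have hw1 : ∀ z, ‖w z‖ = 1 := by
      intro z
      have h1 : ‖w z‖ ^ 2 = 1 := by
        rw [EuclideanSpace.norm_sq_eq, Fin.sum_univ_three]
        simp only [Real.norm_eq_abs, sq_abs]
        have e0 : (w z) 0 ^ 2 + (w z) 1 ^ 2 = (z : ℂ).im ^ 2 := by
          have e1 : ‖rcx (w z)‖ ^ 2 = (w z) 0 ^ 2 + (w z) 1 ^ 2 := by
            rw [← Complex.normSq_eq_norm_sq, Complex.normSq_apply]
            change (w z) 0 * (w z) 0 + (w z) 1 * (w z) 1 = _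
            ring
          rw [← e1, rcx_vec, norm_mul, norm_mul, Complex.norm_I, hn, Complex.norm_real,
            Real.norm_eq_abs, mul_one, mul_one, sq_abs]
        rw [e0, vec_two]
        have e2 := Circle.normSq_coe z
        rw [Complex.normSq_apply] at e2
        nlinarith
      have h2 := norm_nonneg (w z)
      nlinarith
    refine ⟨fun z => nrm (w z) (hwn z), ?_, ?_, ?_, ?_⟩
    · apply continuous_nrm
      apply continuous_vec
      · exact (Complex.continuous_ofReal.comp
          (Complex.continuous_im.comp circCont)).mul continuous_const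
      · exact Complex.continuous_re.comp circCont
    · intro z z' hzz
      have h1 : (nrm (w z) (hwn z) : E3) = (nrm (w z') (hwn z') : E3) := congrArg _ hzz
      rw [nrm_coe, nrm_coe, hw1, hw1, inv_one, one_smul, one_smul] at h1
      have h2 : rcx (w z) = rcx (w z') := by rw [h1]
      have h3 : (w z) 2 = (w z') 2 := by rw [h1]
      rw [rcx_vec, rcx_vec] at h2
      rw [vec_two, vec_two] at h3
      have h4 : Complex.I * cx l ≠ 0 := by
        refine mul_ne_zero Complex.I_ne_zero ?_
        intro h0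
        rw [h0, norm_zero] at hn
        exact zero_ne_one hn
      have h5 := mul_right_cancel₀ h4 h2
      apply Circle.ext
      exact Complex.ext h3 (by exact_mod_cast h5)
    · ext p
      constructor
      · rintro ⟨z, rfl⟩
        change HG Γ (nrm (w z) (hwn z)) l = 0
        rw [HG_nrm h, hl, rcx_vec, mul_zero, sub_zero]
        have e1 : ((z : ℂ).im : ℂ) * (Complex.I * cx l) * (starRingEnd ℂ) (cx l) =
            ((z : ℂ).im : ℂ) * Complex.I := by
          rw [mul_assoc, mul_assoc Complex.I, hcl, mul_one]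
        rw [e1, (gauge_eq_zero h _).2 (by simp), mul_zero]
      · intro hp
        change HG Γ p l = 0 at hp
        unfold HG at hp
        rw [hl, mul_zero, sub_zero, gauge_eq_zero h] at hp
        set u : ℂ := cx p * (starRingEnd ℂ) (cx l) with hu
        have hup : cx p = u * cx l := by
          rw [hu, mul_assoc, mul_comm ((starRingEnd ℂ) (cx l)), hcl, mul_one]
        have hui : u = (u.im : ℂ) * Complex.I := by
          apply Complex.ext
          · simp [hp]
          · simp
        have hnu : ‖cx p‖ ^ 2 = u.im ^ 2 := by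
          rw [hup, norm_mul, hn, mul_one, ← Complex.normSq_eq_norm_sq, Complex.normSq_apply, hp]
          ring
        have hz : ‖(⟨(p : E3) 2, u.im⟩ : ℂ)‖ = 1 := by
          have e1 := sq_sphere p
          rw [hnu] at e1
          have e2 : ‖(⟨(p : E3) 2, u.im⟩ : ℂ)‖ ^ 2 = 1 := by
            rw [← Complex.normSq_eq_norm_sq, Complex.normSq_apply]
            change (p : E3) 2 * (p : E3) 2 + u.im * u.im = 1
            linarith
          have e3 := norm_nonneg (⟨(p : E3) 2, u.im⟩ : ℂ)
          nlinarith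
        refine ⟨⟨⟨(p : E3) 2, u.im⟩, mem_sphere_zero_iff_norm.2 hz⟩, ?_⟩
        refine nrm_of_smul _ one_pos p ?_
        rw [one_smul]
        change vec ((u.im : ℂ) * (Complex.I * cx l)) ((p : E3) 2) = (p : E3)
        rw [← mul_assoc, ← hui, ← hup, cx_eq, vec_rcx]
    · intro z
      apply nrm_neg'
      change vec (((((-z : Circle) : ℂ)).im : ℂ) * (Complex.I * cx l)) ((-z : Circle) : ℂ).re =
        -vec (((z : ℂ).im : ℂ) * (Complex.I * cx l)) (z : ℂ).re
      rw [Circle.coe_neg]
      ext i
      fin_cases i <;> simp [vec]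
  · -- a line which does not pass through the centre
    let w : Circle → E3 := fun z =>
      vec (((l : E3) 2 : ℂ) * (z : ℂ)) (Γ ((z : ℂ) * (starRingEnd ℂ) (cx l)))
    have hlC : ((l : E3) 2 : ℂ) ≠ 0 := by exact_mod_cast hl
    have hwn : ∀ z, w z ≠ 0 := by
      intro z hz
      have h1 : rcx (w z) = 0 := by rw [hz]; apply Complex.ext <;> simp [rcx]
      rw [rcx_vec] at h1
      rcases mul_eq_zero.1 h1 with h2 | h2
      · exact hlC h2
      · exact Circle.coe_ne_zero z h2
    refine ⟨fun z => nrm (w z) (hwn z), ?_, ?_, ?_, ?_⟩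
    · apply continuous_nrm
      apply continuous_vec
      · exact continuous_const.mul circCont
      · exact h.cont.comp (circCont.mul continuous_const)
    · intro z z' hzz
      have h1 : (nrm (w z) (hwn z) : E3) = (nrm (w z') (hwn z') : E3) := congrArg _ hzz
      rw [nrm_coe, nrm_coe] at h1
      have h2 : rcx (‖w z‖⁻¹ • w z) = rcx (‖w z'‖⁻¹ • w z') := by rw [h1]
      rw [rcx_smul, rcx_smul, rcx_vec, rcx_vec] at h2
      have h3 : ‖w z‖⁻¹ = ‖w z'‖⁻¹ := by
        have e1 := congrArg (fun x : ℂ => ‖x‖) h2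
        simp only [norm_mul, Circle.norm_coe, mul_one, Complex.norm_real, norm_inv,
          norm_norm] at e1
        have e2 : ‖(l : E3) 2‖ ≠ 0 := norm_ne_zero_iff.2 hl
        exact mul_right_cancel₀ e2 e1
      rw [h3] at h2
      have h4 : ((‖w z'‖⁻¹ : ℝ) : ℂ) ≠ 0 := by
        exact_mod_cast inv_ne_zero (norm_ne_zero_iff.2 (hwn z'))
      exact Circle.ext (mul_left_cancel₀ hlC (mul_left_cancel₀ h4 h2))
    · ext p
      constructor
      · rintro ⟨z, rfl⟩
        change HG Γ (nrm (w z) (hwn z)) l = 0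
        rw [HG_nrm h, rcx_vec, vec_two, mul_assoc, h.smul]
        ring
      · intro hp
        change HG Γ p l = 0 at hp
        unfold HG at hp
        have hcp : cx p ≠ 0 := by
          intro h0
          have e1 := sq_sphere p
          rw [h0] at e1 hp
          rw [zero_mul, gauge_zero h, zero_sub, neg_eq_zero] at hp
          rcases mul_eq_zero.1 hp with e2 | e2
          · rw [e2] at e1
            simp at e1
          · exact hl e2
        have hnp : 0 < ‖cx p‖ := norm_pos_iff.2 hcp
        have hal : 0 < |(l : E3) 2| := abs_pos.2 hl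
        set ρ : ℝ := ‖cx p‖ / |(l : E3) 2| with hρ
        have hρp : 0 < ρ := div_pos hnp hal
        have hρC : (ρ : ℂ) ≠ 0 := by exact_mod_cast hρp.ne'
        have hz : ‖cx p / ((ρ : ℂ) * ((l : E3) 2 : ℂ))‖ = 1 := by
          rw [norm_div, norm_mul, Complex.norm_real, Complex.norm_real, Real.norm_eq_abs,
            Real.norm_eq_abs, abs_of_pos hρp, hρ, div_mul_cancel₀ _ hal.ne', div_self hnp.ne']
        refine ⟨⟨cx p / ((ρ : ℂ) * ((l : E3) 2 : ℂ)), mem_sphere_zero_iff_norm.2 hz⟩, ?_⟩
        refine nrm_of_smul _ (inv_pos.2 hρp) p ?_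
        change vec (((l : E3) 2 : ℂ) * (cx p / ((ρ : ℂ) * ((l : E3) 2 : ℂ))))
          (Γ (cx p / ((ρ : ℂ) * ((l : E3) 2 : ℂ)) * (starRingEnd ℂ) (cx l))) = ρ⁻¹ • (p : E3)
        have e1 : ((l : E3) 2 : ℂ) * (cx p / ((ρ : ℂ) * ((l : E3) 2 : ℂ))) =
            ((ρ⁻¹ : ℝ) : ℂ) * cx p := by
          push_cast
          field_simp
        have e2 : cx p / ((ρ : ℂ) * ((l : E3) 2 : ℂ)) * (starRingEnd ℂ) (cx l) =
            (((ρ * (l : E3) 2)⁻¹ : ℝ) : ℂ) * (cx p * (starRingEnd ℂ) (cx l)) := by
          push_cast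
          field_simp
        have e3 : Γ (cx p * (starRingEnd ℂ) (cx l)) = (p : E3) 2 * (l : E3) 2 := by linarith
        rw [e1, e2, h.smul, e3]
        have e4 : (ρ * (l : E3) 2)⁻¹ * ((p : E3) 2 * (l : E3) 2) = ρ⁻¹ * (p : E3) 2 := by
          field_simp
        rw [e4]
        ext i
        fin_cases i <;> simp [vec, cx]
    · intro z
      apply nrm_neg'
      change vec (((l : E3) 2 : ℂ) * ((-z : Circle) : ℂ))
        (Γ (((-z : Circle) : ℂ) * (starRingEnd ℂ) (cx l))) =
        -vec (((l : E3) 2 : ℂ) * (z : ℂ)) (Γ ((z : ℂ) * (starRingEnd ℂ) (cx l)))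
      rw [Circle.coe_neg, neg_mul, gauge_neg h]
      ext i
      fin_cases i <;> simp [vec]

theorem HG_dual {Γ : ℂ → ℝ} (h : IsGauge Γ) (p : S2) :
    ∃ c : Circle → S2, Continuous c ∧ (∀ z, HG Γ p (c z) = 0) ∧ ∀ z, c (-z) = -c z := by
  obtain ⟨c, h1, -, h3, h4⟩ := HG_curve h.conj p
  refine ⟨c, h1, fun z => ?_, h4⟩
  have h5 : c z ∈ range c := ⟨z, rfl⟩
  rw [h3] at h5
  rw [HG_swap]
  exact h5

end Pool.Agent.Helper5.WP
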